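import Mathlib

/-!
# Spaces of rational curves on complete intersections in `(ℙ¹)ⁿ`

Points of `(ℙ¹)ⁿ` are given by homogeneous coordinates `x (i, 0)`, `x (i, 1)`, `i : Fin n`.
-/

set_option autoImplicit false

namespace Pool.Agent.Y198.Bat

open MvPolynomial

variable {n r : ℕ}

/-- The Zariski topology on the affine space `ℂ ^ ι`. -/
@[reducible] noncomputable def zariski (ι : Type) : TopologicalSpace (ι → ℂ) :=
  TopologicalSpace.induced (pointToPoint (k := ℂ) (K := ℂ)) inferInstance

/-- `F` is multihomogeneous of multidegree `d`. -/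
def IsMultiHom (F : MvPolynomial (Fin n × Fin 2) ℂ) (d : Fin n → ℕ) : Prop :=
  ∀ a ∈ F.support, ∀ i, a (i, 0) + a (i, 1) = d i

/-- The cone over the closed subset `X = {F_j = 0 for all j}` of `(ℙ¹)ⁿ`: all homogeneous
coordinates of points of `X`. -/
def cone (F : Fin r → MvPolynomial (Fin n × Fin 2) ℂ) : Set (Fin n × Fin 2 → ℂ) :=
  {x | (∀ i, x (i, 0) ≠ 0 ∨ x (i, 1) ≠ 0) ∧ ∀ j, eval x (F j) = 0}

/-- The multidegree of the anticanonical bundle of a complete intersection of multidegrees
`D_1, ..., D_r` in `(ℙ¹)ⁿ`, by the adjunction formula. -/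
def antican (D : Fin r → Fin n → ℕ) (i : Fin n) : ℤ := 2 - ∑ j, (D j i : ℤ)

/-- `X = {F_1 = ... = F_r = 0}` in `(ℙ¹)ⁿ` is a smooth irreducible complete intersection of
multidegrees `D_1, ..., D_r`, and it is weak Fano: its anticanonical bundle is nef, since its
multidegree is nonnegative, and big, since its top self-intersection number is positive.
(The intersection number of `n` divisors on `(ℙ¹)ⁿ` is the permanent of the matrix of their
multidegrees.) -/
structure IsSmoothWeakFano (F : Fin r → MvPolynomial (Fin n × Fin 2) ℂ)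
    (D : Fin r → Fin n → ℕ) : Prop where
  multiHom : ∀ j, IsMultiHom (F j) (D j)
  smooth : ∀ x ∈ cone F, LinearIndependent ℂ fun j (v : Fin n × Fin 2) => eval x (pderiv v (F j))
  irreducible : @IsIrreducible _ (zariski _) (cone F)
  nef : ∀ i, 0 ≤ antican D i
  big : 0 < Matrix.permanent (Matrix.of fun k i : Fin n =>
    if h : (k : ℕ) < r then (D ⟨k, h⟩ i : ℤ) else antican D i)

/-- The polynomials `f (i, 0)`, `f (i, 1)` in one variable `u` are such that
`u ↦ (f (i, 0) : f (i, 1))_i` is a morphism `ℙ¹ → X`, whose components `ℙ¹ → ℙ¹` have degrees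
`m i`. -/
structure IsMor (F : Fin r → MvPolynomial (Fin n × Fin 2) ℂ) (m : Fin n → ℕ)
    (f : Fin n × Fin 2 → Polynomial ℂ) : Prop where
  coprime : ∀ i, IsCoprime (f (i, 0)) (f (i, 1))
  degree : ∀ i, max (f (i, 0)).natDegree (f (i, 1)).natDegree = m i
  mem : ∀ j, aeval f (F j) = 0

/-- The set of all representations of morphisms `ℙ¹ → X` of multidegree `m`. -/
def Rep (F : Fin r → MvPolynomial (Fin n × Fin 2) ℂ) (m : Fin n → ℕ) : Type :=
  {f : Fin n × Fin 2 → Polynomial ℂ // IsMor F m f}

/-- The Zariski topology in the coefficients of the polynomials. -/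
noncomputable instance (F : Fin r → MvPolynomial (Fin n × Fin 2) ℂ) (m : Fin n → ℕ) :
    TopologicalSpace (Rep F m) :=
  (zariski ((Fin n × Fin 2) × ℕ)).induced fun f v => (f.1 v.1).coeff v.2

/-- Two representations of the same morphism differ by scalar factors. -/
def repSetoid (F : Fin r → MvPolynomial (Fin n × Fin 2) ℂ) (m : Fin n → ℕ) :
    Setoid (Rep F m) where
  r f g := ∃ c : Fin n → ℂ, (∀ i, c i ≠ 0) ∧ ∀ v, g.1 v = Polynomial.C (c v.1) * f.1 v
  iseqv :=
    { refl := fun f => ⟨fun _ => 1, fun _ => one_ne_zero, fun v => by simp⟩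
      symm := by
        rintro f g ⟨c, hc, h⟩
        refine ⟨fun i => (c i)⁻¹, fun i => inv_ne_zero (hc i), fun v => ?_⟩
        rw [h v, ← mul_assoc, ← Polynomial.C_mul, inv_mul_cancel₀ (hc v.1), Polynomial.C_1, one_mul]
      trans := by
        rintro f g k ⟨c, hc, h⟩ ⟨c', hc', h'⟩
        refine ⟨fun i => c' i * c i, fun i => mul_ne_zero (hc' i) (hc i), fun v => ?_⟩
        rw [h' v, h v, ← mul_assoc, ← Polynomial.C_mul] }

/-- The space `Mor(ℙ¹, X)_m` of morphisms `ℙ¹ → X` of multidegree `m`, an open and closed subspace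
of `Mor(ℙ¹, X)`, with its Zariski topology. -/
def Mor (F : Fin r → MvPolynomial (Fin n × Fin 2) ℂ) (m : Fin n → ℕ) : Type :=
  Quotient (repSetoid F m)

noncomputable instance (F : Fin r → MvPolynomial (Fin n × Fin 2) ℂ) (m : Fin n → ℕ) :
    TopologicalSpace (Mor F m) :=
  inferInstanceAs (TopologicalSpace (Quotient (repSetoid F m)))

/-- The number of irreducible components of `Mor(ℙ¹, X)` whose morphisms have degree at most `d`
with respect to the ample line bundle `O(1, ..., 1)`. -/
noncomputable def numComponents (F : Fin r → MvPolynomial (Fin n × Fin 2) ℂ) (d : ℕ) : ℕ∞ :=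
  Set.encard {p : Σ m : Fin n → ℕ, Set (Mor F m) |
    ∑ i, p.1 i ≤ d ∧ p.2 ∈ irreducibleComponents (Mor F p.1)}

end Pool.Agent.Y198.Bat
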