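import Mathlib

set_option autoImplicit false

namespace Pool.Agent.Y198.Bat

open Polynomial

section hc

variable {A B : Type} [CommRing A] [Algebra ℂ A] [CommRing B] [Algebra ℂ B]

/-- evaluation of the homogenization in degree `m` -/
noncomputable def hc (m : ℕ) (p : ℂ[X]) (a b : A) : A :=
  MvPolynomial.aeval ![a, b] (p.homogenize m)

theorem hc_add (m : ℕ) (p q : ℂ[X]) (a b : A) : hc m (p + q) a b = hc m p a b + hc m q a b := by
  simp [hc]

theorem hc_sub (m : ℕ) (p q : ℂ[X]) (a b : A) : hc m (p - q) a b = hc m p a b - hc m q a b := by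
  simp [hc]

theorem hc_neg (m : ℕ) (p : ℂ[X]) (a b : A) : hc m (-p) a b = -hc m p a b := by
  simp [hc]

theorem hc_zero (m : ℕ) (a b : A) : hc m 0 a b = 0 := by
  simp [hc]

theorem hc_C_mul (m : ℕ) (c : ℂ) (p : ℂ[X]) (a b : A) :
    hc m (C c * p) a b = algebraMap ℂ A c * hc m p a b := by
  simp [hc]

theorem hc_C (m : ℕ) (c : ℂ) (a b : A) : hc m (C c) a b = algebraMap ℂ A c * b ^ m := by
  simp [hc]

theorem hc_mul {m n : ℕ} {p q : ℂ[X]} (hp : p.natDegree ≤ m) (hq : q.natDegree ≤ n) (a b : A) :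
    hc (m + n) (p * q) a b = hc m p a b * hc n q a b := by
  simp [hc, homogenize_mul p q hp hq]

theorem hc_X (a b : A) : hc 1 (X : ℂ[X]) a b = a := by
  simp [hc]

theorem hc_one_right {m : ℕ} {p : ℂ[X]} (hp : p.natDegree ≤ m) (a : A) :
    hc m p a 1 = aeval a p := by
  unfold hc
  rw [aeval_homogenize_of_eq_one hp _ (by simp)]
  simp

theorem hc_X_one {m : ℕ} {p : ℂ[X]} (hp : p.natDegree ≤ m) :
    hc m p (X : ℂ[X]) 1 = p := by
  rw [hc_one_right hp]; simp

theorem hc_smul (m : ℕ) (p : ℂ[X]) (c a b : A) : hc m p (c * a) (c * b) = c ^ m * hc m p a b := by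
  have h := (isHomogeneous_homogenize (n := m) p)
  unfold hc
  rw [MvPolynomial.aeval_def, MvPolynomial.aeval_def, MvPolynomial.eval₂_eq', MvPolynomial.eval₂_eq',
    Finset.mul_sum]
  refine Finset.sum_congr rfl fun d hd => ?_
  have h2 : d 0 + d 1 = m := by
    have := h (MvPolynomial.mem_support_iff.1 hd)
    simpa [Finsupp.weight_apply, Finsupp.sum_fintype] using this
  simp only [Fin.prod_univ_two, Matrix.cons_val_zero, Matrix.cons_val_one]
  rw [← h2, mul_pow, mul_pow, pow_add]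
  ring

theorem map_hc (φ : A →ₐ[ℂ] B) (m : ℕ) (p : ℂ[X]) (a b : A) :
    φ (hc m p a b) = hc m p (φ a) (φ b) := by
  unfold hc
  rw [← AlgHom.comp_apply, MvPolynomial.comp_aeval]
  congr 2
  ext i
  fin_cases i <;> rfl

theorem hc_eval (m : ℕ) (p a b : ℂ[X]) (u : ℂ) :
    (hc m p a b).eval u = hc m p (a.eval u) (b.eval u) := by
  have := map_hc (aeval u : ℂ[X] →ₐ[ℂ] ℂ) m p a b
  simpa [coe_aeval_eq_eval] using this

theorem hc_eq_sum (m : ℕ) (p : ℂ[X]) (a b : A) :
    hc m p a b = ∑ j ∈ Finset.range (m + 1), algebraMap ℂ A (p.coeff j) * a ^ j * b ^ (m - j) := by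
  unfold hc homogenize
  rw [map_sum, Finset.Nat.sum_antidiagonal_eq_sum_range_succ_mk]
  refine Finset.sum_congr rfl fun j hj => ?_
  rw [MvPolynomial.aeval_monomial, Finsupp.prod_fintype _ _ (by simp)]
  simp [mul_assoc, Fin.prod_univ_two]

theorem natDegree_hc {m e : ℕ} (p : ℂ[X]) {a b : ℂ[X]} (ha : a.natDegree ≤ e)
    (hb : b.natDegree ≤ e) : (hc m p a b).natDegree ≤ m * e := by
  rw [hc_eq_sum]
  refine natDegree_sum_le_of_forall_le _ _ fun j hj => ?_
  have hj' : j ≤ m := by simpa [Nat.lt_succ_iff] using hj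
  have h1 : (a ^ j).natDegree ≤ j * e := (natDegree_pow_le).trans (Nat.mul_le_mul_left _ ha)
  have h2 : (b ^ (m - j)).natDegree ≤ (m - j) * e :=
    (natDegree_pow_le).trans (Nat.mul_le_mul_left _ hb)
  have h3 : (algebraMap ℂ ℂ[X] (p.coeff j)).natDegree = 0 := natDegree_C _
  calc (algebraMap ℂ ℂ[X] (p.coeff j) * a ^ j * b ^ (m - j)).natDegree
      ≤ (algebraMap ℂ ℂ[X] (p.coeff j) * a ^ j).natDegree + (b ^ (m - j)).natDegree :=
        natDegree_mul_le
    _ ≤ ((algebraMap ℂ ℂ[X] (p.coeff j)).natDegree + (a ^ j).natDegree) +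
        (b ^ (m - j)).natDegree := by gcongr; exact natDegree_mul_le
    _ ≤ (0 + j * e) + (m - j) * e := by rw [h3]; gcongr
    _ = m * e := by rw [zero_add, ← add_mul]; congr 1; omega

/-- homogenization of a composition -/
theorem hc_hc {m e : ℕ} (p : ℂ[X]) {t0 t1 : ℂ[X]} (h0 : t0.natDegree ≤ e) (h1 : t1.natDegree ≤ e)
    (a b : A) : hc (m * e) (hc m p t0 t1) a b = hc m p (hc e t0 a b) (hc e t1 a b) := by
  have key : (hc m p t0 t1).homogenize (m * e) =
      MvPolynomial.aeval ![t0.homogenize e, t1.homogenize e] (p.homogenize m) := by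
    apply homogenize_eq_of_isHomogeneous
    · rw [MvPolynomial.aeval_def, MvPolynomial.eval₂_eq']
      refine MvPolynomial.IsHomogeneous.sum _ _ _ fun d hd => ?_
      have h2 : d 0 + d 1 = m := by
        have := (isHomogeneous_homogenize (n := m) p) (MvPolynomial.mem_support_iff.1 hd)
        simpa [Finsupp.weight_apply, Finsupp.sum_fintype] using this
      have e1 : m * e = 0 + (e * d 0 + e * d 1) := by rw [zero_add, ← mul_add, h2, mul_comm]
      rw [e1, Fin.prod_univ_two]
      refine (MvPolynomial.isHomogeneous_C _ _).mul (MvPolynomial.IsHomogeneous.mul ?_ ?_)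
      · exact (isHomogeneous_homogenize t0).pow _
      · exact (isHomogeneous_homogenize t1).pow _
    · unfold hc
      rw [← AlgHom.comp_apply, MvPolynomial.comp_aeval]
      congr 2
      ext i
      fin_cases i
      · simp [aeval_homogenize_X_one, h0]
      · simp [aeval_homogenize_X_one, h1]
  unfold hc at key ⊢
  rw [key, ← AlgHom.comp_apply, MvPolynomial.comp_aeval]
  congr 2
  ext i
  fin_cases i <;> rfl

end hc

end Pool.Agent.Y198.Bat
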