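import Mathlib
import Pool.Agent.Y198.Bat.Pair

set_option autoImplicit false

namespace Pool.Agent.Y198.Bat

open Polynomial

theorem hc_top {m : ℕ} (p : ℂ[X]) (a : ℂ) : hc m p a 0 = p.coeff m * a ^ m := by
  rw [hc_eq_sum, Finset.sum_eq_single m]
  · simp
  · intro j hj hjm
    have : j < m + 1 := by simpa using hj
    have : m - j ≠ 0 := by omega
    simp [this]
  · simp

theorem hc_of_ne {m : ℕ} {p : ℂ[X]} (hp : p.natDegree ≤ m) (a : ℂ) {b : ℂ} (hb : b ≠ 0) :
    hc m p a b = b ^ m * p.eval (a / b) := by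
  have h := hc_smul m p b (a / b) 1
  rw [mul_div_cancel₀ _ hb, mul_one] at h
  rw [h, hc_one_right hp]
  simp

/-- `(p : q)` is a morphism `ℙ¹ → ℙ¹` of degree `m` -/
structure Pr (p q : ℂ[X]) (m : ℕ) : Prop where
  dp : p.natDegree ≤ m
  dq : q.natDegree ≤ m
  ne : ∀ a b : ℂ, (a ≠ 0 ∨ b ≠ 0) → (hc m p a b ≠ 0 ∨ hc m q a b ≠ 0)

theorem Pr.ne_eval {p q : ℂ[X]} {m : ℕ} (h : Pr p q m) (u : ℂ) :
    p.eval u ≠ 0 ∨ q.eval u ≠ 0 := by
  have := h.ne u 1 (Or.inr one_ne_zero)
  rw [hc_one_right h.dp, hc_one_right h.dq] at this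
  simpa using this

theorem isCoprime_of_ne {p q : ℂ[X]} (h : ∀ u, p.eval u ≠ 0 ∨ q.eval u ≠ 0) : IsCoprime p q := by
  rw [Polynomial.isCoprime_iff_aeval_ne_zero_of_isAlgClosed ℂ ℂ]
  intro a
  simpa using h a

theorem Pr.cop {p q : ℂ[X]} {m : ℕ} (h : Pr p q m) : IsCoprime p q :=
  isCoprime_of_ne h.ne_eval

theorem Pr.top {p q : ℂ[X]} {m : ℕ} (h : Pr p q m) : p.coeff m ≠ 0 ∨ q.coeff m ≠ 0 := by
  have := h.ne 1 0 (Or.inl one_ne_zero)
  simpa [hc_top] using this

theorem Pr.max_eq_deg {p q : ℂ[X]} {m : ℕ} (h : Pr p q m) : max p.natDegree q.natDegree = m := by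
  refine le_antisymm (max_le h.dp h.dq) ?_
  rcases h.top with h1 | h1
  · exact le_max_of_le_left (le_natDegree_of_ne_zero h1)
  · exact le_max_of_le_right (le_natDegree_of_ne_zero h1)

theorem eval_ne_of_isCoprime {p q : ℂ[X]} (h : IsCoprime p q) (u : ℂ) :
    p.eval u ≠ 0 ∨ q.eval u ≠ 0 := by
  by_contra hc
  push Not at hc
  obtain ⟨a, b, hab⟩ := h
  have := congrArg (Polynomial.eval u) hab
  simp [hc.1, hc.2] at this

theorem Pr.mk' {p q : ℂ[X]} {m : ℕ} (h : IsCoprime p q) (hm : max p.natDegree q.natDegree = m) :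
    Pr p q m := by
  have hp : p.natDegree ≤ m := hm ▸ le_max_left _ _
  have hq : q.natDegree ≤ m := hm ▸ le_max_right _ _
  refine ⟨hp, hq, fun a b hab => ?_⟩
  by_cases hb : b = 0
  · have ha : a ≠ 0 := by tauto
    subst hb
    have h1 : p.coeff m ≠ 0 ∨ q.coeff m ≠ 0 := by
      rcases le_total p.natDegree q.natDegree with hle | hle
      · rw [max_eq_right hle] at hm
        by_cases hq0 : q = 0
        · subst hq0
          have hp0 : p ≠ 0 := by
            rintro rfl
            exact not_isCoprime_zero_zero h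
          have hm0 : m = 0 := by simpa using hm.symm
          have : p.natDegree = 0 := by omega
          left
          rw [hm0, ← this]
          exact (leadingCoeff_ne_zero.2 hp0)
        · right
          rw [← hm]; exact leadingCoeff_ne_zero.2 hq0
      · rw [max_eq_left hle] at hm
        by_cases hp0 : p = 0
        · subst hp0
          have hq0 : q ≠ 0 := by
            rintro rfl
            exact not_isCoprime_zero_zero h
          have hm0 : m = 0 := by simpa using hm.symm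
          have : q.natDegree = 0 := by omega
          right
          rw [hm0, ← this]
          exact (leadingCoeff_ne_zero.2 hq0)
        · left
          rw [← hm]; exact leadingCoeff_ne_zero.2 hp0
    rw [hc_top, hc_top]
    rcases h1 with h1 | h1
    · left; exact mul_ne_zero h1 (pow_ne_zero _ ha)
    · right; exact mul_ne_zero h1 (pow_ne_zero _ ha)
  · rw [hc_of_ne hp a hb, hc_of_ne hq a hb]
    rcases eval_ne_of_isCoprime h (a / b) with h1 | h1
    · left; exact mul_ne_zero (pow_ne_zero _ hb) h1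
    · right; exact mul_ne_zero (pow_ne_zero _ hb) h1

theorem pr_iff {p q : ℂ[X]} {m : ℕ} :
    Pr p q m ↔ IsCoprime p q ∧ max p.natDegree q.natDegree = m :=
  ⟨fun h => ⟨h.cop, h.max_eq_deg⟩, fun h => Pr.mk' h.1 h.2⟩

/-- composition -/
theorem Pr.comp {p q : ℂ[X]} {m : ℕ} (h : Pr p q m) {t0 t1 : ℂ[X]} {e : ℕ} (ht : Pr t0 t1 e) :
    Pr (hc m p t0 t1) (hc m q t0 t1) (m * e) := by
  refine ⟨natDegree_hc p ht.dp ht.dq, natDegree_hc q ht.dp ht.dq, fun a b hab => ?_⟩
  rw [hc_hc p ht.dp ht.dq, hc_hc q ht.dp ht.dq]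
  exact h.ne _ _ (ht.ne a b hab)

theorem pr_ne_zero {p q : ℂ[X]} {m : ℕ} (h : Pr p q m) : p ≠ 0 ∨ q ≠ 0 := by
  rcases h.ne_eval 0 with h1 | h1
  · left; rintro rfl; simp at h1
  · right; rintro rfl; simp at h1

/-- A quadratic form over `ℂ[u]` with a root -/
theorem exists_root {q2 q1 q0 x0 x1 : ℂ[X]} (hx : IsCoprime x0 x1)
    (h : q2 * x0 ^ 2 + q1 * x0 * x1 + q0 * x1 ^ 2 = 0) :
    ∃ x0' x1' : ℂ[X], q2 = x1 * x1' ∧ q0 = x0 * x0' ∧ q1 = -(x1 * x0' + x0 * x1') := by
  by_cases h1 : x1 = 0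
  · subst h1
    have hu : IsUnit x0 := isCoprime_zero_right.1 hx
    obtain ⟨c, hc⟩ := hu
    have h0 : x0 ≠ 0 := by rw [← hc]; exact c.ne_zero
    have hq2 : q2 = 0 := by
      have : q2 * x0 ^ 2 = 0 := by linear_combination h
      rcases mul_eq_zero.1 this with h2 | h2
      · exact h2
      · exact absurd (pow_eq_zero_iff (two_ne_zero) |>.1 h2) h0
    refine ⟨(↑c⁻¹ : ℂ[X]) * q0, -(↑c⁻¹ : ℂ[X]) * q1, by rw [hq2]; ring, ?_, ?_⟩
    · rw [← hc, ← mul_assoc]; simp
    · rw [← hc]
      have : (↑c : ℂ[X]) * (↑c⁻¹ : ℂ[X]) = 1 := by simp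
      linear_combination (-q1) * this
  by_cases h0 : x0 = 0
  · subst h0
    have hu : IsUnit x1 := isCoprime_zero_left.1 hx
    obtain ⟨c, hc⟩ := hu
    have hq0 : q0 = 0 := by
      have : q0 * x1 ^ 2 = 0 := by linear_combination h
      rcases mul_eq_zero.1 this with h2 | h2
      · exact h2
      · exact absurd (pow_eq_zero_iff (two_ne_zero) |>.1 h2) h1
    refine ⟨-(↑c⁻¹ : ℂ[X]) * q1, (↑c⁻¹ : ℂ[X]) * q2, ?_, by rw [hq0]; ring, ?_⟩
    · rw [← hc, ← mul_assoc]; simp
    · rw [← hc]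
      have : (↑c : ℂ[X]) * (↑c⁻¹ : ℂ[X]) = 1 := by simp
      linear_combination (-q1) * this
  · have d2 : x1 ∣ q2 := by
      have : x1 ∣ q2 * x0 ^ 2 := ⟨-(q1 * x0 + q0 * x1), by linear_combination h⟩
      exact (hx.symm.pow_right).dvd_of_dvd_mul_right this
    have d0 : x0 ∣ q0 := by
      have : x0 ∣ q0 * x1 ^ 2 := ⟨-(q2 * x0 + q1 * x1), by linear_combination h⟩
      exact (hx.pow_right).dvd_of_dvd_mul_right this
    obtain ⟨x1', rfl⟩ := d2
    obtain ⟨x0', rfl⟩ := d0
    refine ⟨x0', x1', rfl, rfl, ?_⟩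
    have : (x0 * x1) * (x1' * x0 + q1 + x0' * x1) = 0 := by linear_combination h
    rcases mul_eq_zero.1 this with h2 | h2
    · exact absurd h2 (mul_ne_zero h0 h1)
    · linear_combination h2

/-- the other root of a quadratic form without base points -/
theorem pr_root {q2 q1 q0 x0 x1 x0' x1' : ℂ[X]} {m D : ℕ} (hx : Pr x0 x1 m)
    (d2 : q2.natDegree ≤ D) (d1 : q1.natDegree ≤ D) (d0 : q0.natDegree ≤ D)
    (hne : ∀ a b : ℂ, (a ≠ 0 ∨ b ≠ 0) → ¬ (hc D q2 a b = 0 ∧ hc D q1 a b = 0 ∧ hc D q0 a b = 0))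
    (e2 : q2 = x1 * x1') (e0 : q0 = x0 * x0') (e1 : q1 = -(x1 * x0' + x0 * x1')) :
    m ≤ D ∧ Pr x0' x1' (D - m) := by
  set μ := max x0'.natDegree x1'.natDegree with hμ
  have h0' : x0'.natDegree ≤ μ := le_max_left _ _
  have h1' : x1'.natDegree ≤ μ := le_max_right _ _
  have hz : x0' ≠ 0 ∨ x1' ≠ 0 := by
    by_contra hcon
    push Not at hcon
    apply hne 1 0 (Or.inl one_ne_zero)
    rw [e2, e0, e1, hcon.1, hcon.2]
    simp [hc_zero]
  -- top coefficients
  have ht' : x0'.coeff μ ≠ 0 ∨ x1'.coeff μ ≠ 0 := by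
    rcases le_total x0'.natDegree x1'.natDegree with hle | hle
    · have hm : μ = x1'.natDegree := max_eq_right hle
      by_cases h1 : x1' = 0
      · have hx0 : x0' ≠ 0 := by tauto
        subst h1
        have : x0'.natDegree = 0 := by simpa using hle
        left
        rw [hm]; simp only [natDegree_zero]
        rw [← this]; exact leadingCoeff_ne_zero.2 hx0
      · right; rw [hm]; exact leadingCoeff_ne_zero.2 h1
    · have hm : μ = x0'.natDegree := max_eq_left hle
      by_cases h1 : x0' = 0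
      · have hx0 : x1' ≠ 0 := by tauto
        subst h1
        have : x1'.natDegree = 0 := by simpa using hle
        right
        rw [hm]; simp only [natDegree_zero]
        rw [← this]; exact leadingCoeff_ne_zero.2 hx0
      · left; rw [hm]; exact leadingCoeff_ne_zero.2 h1
  have c2 : q2.coeff (m + μ) = x1.coeff m * x1'.coeff μ := by
    rw [e2]; exact coeff_mul_add_eq_of_natDegree_le hx.dq h1'
  have c0 : q0.coeff (m + μ) = x0.coeff m * x0'.coeff μ := by
    rw [e0]; exact coeff_mul_add_eq_of_natDegree_le hx.dp h0'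
  have c1 : q1.coeff (m + μ) = -(x1.coeff m * x0'.coeff μ + x0.coeff m * x1'.coeff μ) := by
    rw [e1, coeff_neg, coeff_add, coeff_mul_add_eq_of_natDegree_le hx.dq h0',
      coeff_mul_add_eq_of_natDegree_le hx.dp h1']
  have hnz : ¬ (q2.coeff (m + μ) = 0 ∧ q1.coeff (m + μ) = 0 ∧ q0.coeff (m + μ) = 0) := by
    rintro ⟨k2, k1, k0⟩
    rw [c2] at k2; rw [c1] at k1; rw [c0] at k0
    rcases hx.top with h | h
    · have a0 : x0'.coeff μ = 0 := by
        rcases mul_eq_zero.1 k0 with h' | h'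
        · exact absurd h' h
        · exact h'
      have a1 : x1'.coeff μ = 0 := by
        rw [a0] at k1
        have : x0.coeff m * x1'.coeff μ = 0 := by linear_combination -k1
        rcases mul_eq_zero.1 this with h' | h'
        · exact absurd h' h
        · exact h'
      tauto
    · have a1 : x1'.coeff μ = 0 := by
        rcases mul_eq_zero.1 k2 with h' | h'
        · exact absurd h' h
        · exact h'
      have a0 : x0'.coeff μ = 0 := by
        rw [a1] at k1
        have : x1.coeff m * x0'.coeff μ = 0 := by linear_combination -k1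
        rcases mul_eq_zero.1 this with h' | h'
        · exact absurd h' h
        · exact h'
      tauto
  have hle1 : m + μ ≤ D := by
    by_contra hlt
    push Not at hlt
    exact hnz ⟨coeff_eq_zero_of_natDegree_lt (by omega), coeff_eq_zero_of_natDegree_lt (by omega),
      coeff_eq_zero_of_natDegree_lt (by omega)⟩
  have b2 : q2.natDegree ≤ m + μ := by
    rw [e2]; exact natDegree_mul_le.trans (add_le_add hx.dq h1')
  have b0 : q0.natDegree ≤ m + μ := by
    rw [e0]; exact natDegree_mul_le.trans (add_le_add hx.dp h0')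
  have b1 : q1.natDegree ≤ m + μ := by
    rw [e1, natDegree_neg]
    exact natDegree_add_le_of_degree_le (natDegree_mul_le.trans (add_le_add hx.dq h0'))
      (natDegree_mul_le.trans (add_le_add hx.dp h1'))
  have hle2 : D ≤ m + μ := by
    by_contra hlt
    push Not at hlt
    apply hne 1 0 (Or.inl one_ne_zero)
    simp only [hc_top, one_pow, mul_one]
    exact ⟨coeff_eq_zero_of_natDegree_lt (by omega), coeff_eq_zero_of_natDegree_lt (by omega),
      coeff_eq_zero_of_natDegree_lt (by omega)⟩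
  have hD : D = m + μ := le_antisymm hle2 hle1
  refine ⟨by omega, ?_⟩
  have : D - m = μ := by omega
  rw [this]
  refine ⟨h0', h1', fun a b hab => ?_⟩
  by_contra hcon
  push Not at hcon
  apply hne a b hab
  rw [hD, e2, e0, e1, hc_neg, hc_add, hc_mul hx.dq h1', hc_mul hx.dp h0', hc_mul hx.dq h0',
    hc_mul hx.dp h1', hcon.1, hcon.2]
  simp

end Pool.Agent.Y198.Bat
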