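import Mathlib
import Pool.Agent.Y198.Bat.Pr

set_option autoImplicit false

namespace Pool.Agent.Y198.Bat

open Polynomial

section forms

variable {A : Type} [CommRing A]

def F2 (y0 y1 t0 t1 : A) : A := t0 * t1 * (y0 * y0) - (t0 * t0 + t1 * t1) * (y0 * y1)
def F1 (y0 y1 t0 t1 : A) : A :=
  (t1 * t1 - t0 * t0) * (y1 * y1) - (t0 * t0 + t1 * t1) * (y0 * y0)
def F0 (y0 y1 t0 t1 : A) : A := (t1 * t1 - t0 * t0) * (y0 * y1) + t0 * t1 * (y1 * y1)
def FF (x0 x1 y0 y1 t0 t1 : A) : A :=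
  F2 y0 y1 t0 t1 * x0 ^ 2 + F1 y0 y1 t0 t1 * x0 * x1 + F0 y0 y1 t0 t1 * x1 ^ 2

theorem FF_comm (x0 x1 y0 y1 t0 t1 : A) : FF x0 x1 y0 y1 t0 t1 = FF y0 y1 x0 x1 t0 t1 := by
  simp only [FF, F2, F1, F0]; ring

end forms

theorem nobase {y0 y1 t0 t1 : ℂ} (hy : y0 ≠ 0 ∨ y1 ≠ 0) (ht : t0 ≠ 0 ∨ t1 ≠ 0) :
    ¬ (F2 y0 y1 t0 t1 = 0 ∧ F1 y0 y1 t0 t1 = 0 ∧ F0 y0 y1 t0 t1 = 0) := by
  rintro ⟨h2, h1, h0⟩
  simp only [F2, F1, F0] at h2 h1 h0
  by_cases hy0 : y0 = 0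
  · have hy1 : y1 ≠ 0 := by tauto
    subst hy0
    have e1 : t0 * t1 = 0 := by
      have : (t0 * t1) * (y1 * y1) = 0 := by linear_combination h0
      rcases mul_eq_zero.1 this with h | h
      · exact h
      · exact absurd h (mul_ne_zero hy1 hy1)
    have e2 : t1 * t1 - t0 * t0 = 0 := by
      have : (t1 * t1 - t0 * t0) * (y1 * y1) = 0 := by linear_combination h1
      rcases mul_eq_zero.1 this with h | h
      · exact h
      · exact absurd h (mul_ne_zero hy1 hy1)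
    rcases mul_eq_zero.1 e1 with h | h
    · have : t1 = 0 := by simpa [h] using e2
      tauto
    · have : t0 = 0 := by simpa [h] using e2
      tauto
  by_cases hy1 : y1 = 0
  · subst hy1
    have e1 : t0 * t1 = 0 := by
      have : (t0 * t1) * (y0 * y0) = 0 := by linear_combination h2
      rcases mul_eq_zero.1 this with h | h
      · exact h
      · exact absurd h (mul_ne_zero hy0 hy0)
    have e2 : t1 * t1 + t0 * t0 = 0 := by
      have : (t1 * t1 + t0 * t0) * (y0 * y0) = 0 := by linear_combination -h1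
      rcases mul_eq_zero.1 this with h | h
      · exact h
      · exact absurd h (mul_ne_zero hy0 hy0)
    rcases mul_eq_zero.1 e1 with h | h
    · have : t1 = 0 := by simpa [h] using e2
      tauto
    · have : t0 = 0 := by simpa [h] using e2
      tauto
  have k2 : t0 * t1 * y0 = (t0 * t0 + t1 * t1) * y1 := by
    have : y0 * (t0 * t1 * y0 - (t0 * t0 + t1 * t1) * y1) = 0 := by linear_combination h2
    rcases mul_eq_zero.1 this with h | h
    · exact absurd h hy0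
    · linear_combination h
  have k0 : (t1 * t1 - t0 * t0) * y0 + t0 * t1 * y1 = 0 := by
    have : y1 * ((t1 * t1 - t0 * t0) * y0 + t0 * t1 * y1) = 0 := by linear_combination h0
    rcases mul_eq_zero.1 this with h | h
    · exact absurd h hy1
    · exact h
  set u := t0 * t0 with hu
  set v := t1 * t1 with hv
  have huv : (t0 * t1) * (t0 * t1) = u * v := by rw [hu, hv]; ring
  have d1 : u * v = u ^ 2 - v ^ 2 := by
    have : y0 * (u * v - (u ^ 2 - v ^ 2)) = 0 := by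
      linear_combination (-y0) * huv + (t0 * t1) * k2 + (u + v) * k0
    rcases mul_eq_zero.1 this with h | h
    · exact absurd h hy0
    · linear_combination h
  have d2 : (v - u) * (u * v) = (u + v) ^ 3 := by
    have : y0 ^ 2 * ((v - u) * (u * v) - (u + v) ^ 3) = 0 := by
      linear_combination (u + v) ^ 2 * h1 - (v - u) * y0 ^ 2 * huv +
        (v - u) * (t0 * t1 * y0 + (u + v) * y1) * k2
    rcases mul_eq_zero.1 this with h | h
    · exact absurd h (pow_ne_zero _ hy0)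
    · linear_combination h
  have d3 : (u + v) * (u ^ 2 + v ^ 2) = 0 := by
    linear_combination (-1/2 : ℂ) * d2 + (1/2 : ℂ) * (v - u) * d1
  have huv0 : u = 0 ∧ v = 0 := by
    rcases mul_eq_zero.1 d3 with h | h
    · have hv' : v = -u := by linear_combination h
      rw [hv'] at d1
      have : u ^ 2 = 0 := by linear_combination -d1
      have hu0 : u = 0 := by simpa using this
      exact ⟨hu0, by rw [hv', hu0]; simp⟩
    · have e : u * (v - 2 * u) = 0 := by linear_combination d1 - h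
      rcases mul_eq_zero.1 e with h' | h'
      · rw [h'] at h
        have : v ^ 2 = 0 := by linear_combination h
        exact ⟨h', by simpa using this⟩
      · have hv' : v = 2 * u := by linear_combination h'
        rw [hv'] at h
        have : u ^ 2 = 0 := by linear_combination (1/5 : ℂ) * h
        have hu0 : u = 0 := by simpa using this
        exact ⟨hu0, by rw [hv', hu0]; simp⟩
  have t0z : t0 = 0 := by simpa [hu] using huv0.1
  have t1z : t1 = 0 := by simpa [hv] using huv0.2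
  tauto

theorem sub_deg_le {p q : ℂ[X]} {n : ℕ} (hp : p.natDegree ≤ n) (hq : q.natDegree ≤ n) :
    (p - q).natDegree ≤ n := (natDegree_sub_le_of_le hp hq).trans (max_self n).le

section deg

variable {y0 y1 t0 t1 : ℂ[X]} {m e : ℕ}

theorem dmul4 {p q r s : ℂ[X]} (hp : p.natDegree ≤ e) (hq : q.natDegree ≤ e)
    (hr : r.natDegree ≤ m) (hs : s.natDegree ≤ m) :
    (p * q * (r * s)).natDegree ≤ (e + e) + (m + m) :=
  natDegree_mul_le.trans (add_le_add (natDegree_mul_le.trans (add_le_add hp hq))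
    (natDegree_mul_le.trans (add_le_add hr hs)))

theorem hmul4 {p q r s : ℂ[X]} (hp : p.natDegree ≤ e) (hq : q.natDegree ≤ e)
    (hr : r.natDegree ≤ m) (hs : s.natDegree ≤ m) {A : Type} [CommRing A] [Algebra ℂ A] (a b : A) :
    hc ((e + e) + (m + m)) (p * q * (r * s)) a b =
      hc e p a b * hc e q a b * (hc m r a b * hc m s a b) := by
  rw [hc_mul (natDegree_mul_le.trans (add_le_add hp hq)) (natDegree_mul_le.trans (add_le_add hr hs)),
    hc_mul hp hq, hc_mul hr hs]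

variable (hy0 : y0.natDegree ≤ m) (hy1 : y1.natDegree ≤ m) (ht0 : t0.natDegree ≤ e)
  (ht1 : t1.natDegree ≤ e)

include hy0 hy1 ht0 ht1

theorem deg_F2 : (F2 y0 y1 t0 t1).natDegree ≤ (e + e) + (m + m) := by
  have : F2 y0 y1 t0 t1 = t0 * t1 * (y0 * y0) - (t0 * t0 * (y0 * y1) + t1 * t1 * (y0 * y1)) := by
    simp only [F2]; ring
  rw [this]
  exact sub_deg_le (dmul4 ht0 ht1 hy0 hy0) (natDegree_add_le_of_degree_le
    (dmul4 ht0 ht0 hy0 hy1) (dmul4 ht1 ht1 hy0 hy1))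

theorem deg_F1 : (F1 y0 y1 t0 t1).natDegree ≤ (e + e) + (m + m) := by
  have : F1 y0 y1 t0 t1 = (t1 * t1 * (y1 * y1) - t0 * t0 * (y1 * y1)) -
    (t0 * t0 * (y0 * y0) + t1 * t1 * (y0 * y0)) := by
    simp only [F1]; ring
  rw [this]
  exact sub_deg_le (sub_deg_le (dmul4 ht1 ht1 hy1 hy1)
    (dmul4 ht0 ht0 hy1 hy1)) (natDegree_add_le_of_degree_le
    (dmul4 ht0 ht0 hy0 hy0) (dmul4 ht1 ht1 hy0 hy0))

theorem deg_F0 : (F0 y0 y1 t0 t1).natDegree ≤ (e + e) + (m + m) := by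
  have : F0 y0 y1 t0 t1 = (t1 * t1 * (y0 * y1) - t0 * t0 * (y0 * y1)) + t0 * t1 * (y1 * y1) := by
    simp only [F0]; ring
  rw [this]
  exact natDegree_add_le_of_degree_le (sub_deg_le (dmul4 ht1 ht1 hy0 hy1)
    (dmul4 ht0 ht0 hy0 hy1)) (dmul4 ht0 ht1 hy1 hy1)

variable {A : Type} [CommRing A] [Algebra ℂ A] (a b : A)

theorem hc_F2 : hc ((e + e) + (m + m)) (F2 y0 y1 t0 t1) a b =
    F2 (hc m y0 a b) (hc m y1 a b) (hc e t0 a b) (hc e t1 a b) := by
  have : F2 y0 y1 t0 t1 = t0 * t1 * (y0 * y0) - (t0 * t0 * (y0 * y1) + t1 * t1 * (y0 * y1)) := by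
    simp only [F2]; ring
  rw [this, hc_sub, hc_add, hmul4 ht0 ht1 hy0 hy0, hmul4 ht0 ht0 hy0 hy1, hmul4 ht1 ht1 hy0 hy1]
  simp only [F2]; ring

theorem hc_F1 : hc ((e + e) + (m + m)) (F1 y0 y1 t0 t1) a b =
    F1 (hc m y0 a b) (hc m y1 a b) (hc e t0 a b) (hc e t1 a b) := by
  have : F1 y0 y1 t0 t1 = (t1 * t1 * (y1 * y1) - t0 * t0 * (y1 * y1)) -
    (t0 * t0 * (y0 * y0) + t1 * t1 * (y0 * y0)) := by
    simp only [F1]; ring
  rw [this, hc_sub, hc_sub, hc_add, hmul4 ht1 ht1 hy1 hy1, hmul4 ht0 ht0 hy1 hy1,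
    hmul4 ht0 ht0 hy0 hy0, hmul4 ht1 ht1 hy0 hy0]
  simp only [F1]; ring

theorem hc_F0 : hc ((e + e) + (m + m)) (F0 y0 y1 t0 t1) a b =
    F0 (hc m y0 a b) (hc m y1 a b) (hc e t0 a b) (hc e t1 a b) := by
  have : F0 y0 y1 t0 t1 = (t1 * t1 * (y0 * y1) - t0 * t0 * (y0 * y1)) + t0 * t1 * (y1 * y1) := by
    simp only [F0]; ring
  rw [this, hc_add, hc_sub, hmul4 ht1 ht1 hy0 hy1, hmul4 ht0 ht0 hy0 hy1, hmul4 ht0 ht1 hy1 hy1]
  simp only [F0]; ring

theorem hc_FF {x0 x1 : ℂ[X]} {l : ℕ} (hx0 : x0.natDegree ≤ l) (hx1 : x1.natDegree ≤ l) :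
    hc (((e + e) + (m + m)) + (l + l)) (FF x0 x1 y0 y1 t0 t1) a b =
    FF (hc l x0 a b) (hc l x1 a b) (hc m y0 a b) (hc m y1 a b) (hc e t0 a b) (hc e t1 a b) := by
  have : FF x0 x1 y0 y1 t0 t1 = F2 y0 y1 t0 t1 * (x0 * x0) + F1 y0 y1 t0 t1 * (x0 * x1) +
    F0 y0 y1 t0 t1 * (x1 * x1) := by
    simp only [FF]; ring
  rw [this, hc_add, hc_add, hc_mul (deg_F2 hy0 hy1 ht0 ht1)
    (natDegree_mul_le.trans (add_le_add hx0 hx0)), hc_mul (deg_F1 hy0 hy1 ht0 ht1)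
    (natDegree_mul_le.trans (add_le_add hx0 hx1)), hc_mul (deg_F0 hy0 hy1 ht0 ht1)
    (natDegree_mul_le.trans (add_le_add hx1 hx1)), hc_mul hx0 hx0, hc_mul hx0 hx1, hc_mul hx1 hx1,
    hc_F2 hy0 hy1 ht0 ht1, hc_F1 hy0 hy1 ht0 ht1, hc_F0 hy0 hy1 ht0 ht1]
  simp only [FF]; ring

end deg

/-- the other root -/
theorem step {x0 x1 y0 y1 t0 t1 : ℂ[X]} {a b : ℕ} (hx : Pr x0 x1 a) (hy : Pr y0 y1 b)
    (ht : Pr t0 t1 1) (hF : FF x0 x1 y0 y1 t0 t1 = 0) :
    ∃ x0' x1' : ℂ[X], Pr x0' x1' (2 * b + 2 - a) ∧ F2 y0 y1 t0 t1 = x1 * x1' ∧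
      F0 y0 y1 t0 t1 = x0 * x0' ∧ F1 y0 y1 t0 t1 = -(x1 * x0' + x0 * x1') := by
  obtain ⟨x0', x1', e2, e0, e1⟩ := exists_root hx.cop (by simpa only [FF] using hF)
  refine ⟨x0', x1', ?_, e2, e0, e1⟩
  have h := pr_root (D := (1 + 1) + (b + b)) hx (deg_F2 hy.dp hy.dq ht.dp ht.dq)
    (deg_F1 hy.dp hy.dq ht.dp ht.dq) (deg_F0 hy.dp hy.dq ht.dp ht.dq) ?_ e2 e0 e1
  · have e : 2 * b + 2 - a = (1 + 1) + (b + b) - a := by omega
    rw [e]; exact h.2
  · intro p q hpq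
    rw [hc_F2 hy.dp hy.dq ht.dp ht.dq, hc_F1 hy.dp hy.dq ht.dp ht.dq, hc_F0 hy.dp hy.dq ht.dp ht.dq]
    exact nobase (hy.ne p q hpq) (ht.ne p q hpq)

theorem FF_root {A : Type} [CommRing A] {x0 x1 x0' x1' y0 y1 t0 t1 : A}
    (e2 : F2 y0 y1 t0 t1 = x1 * x1') (e0 : F0 y0 y1 t0 t1 = x0 * x0')
    (e1 : F1 y0 y1 t0 t1 = -(x1 * x0' + x0 * x1')) : FF x0' x1' y0 y1 t0 t1 = 0 := by
  simp only [FF]
  rw [e2, e0, e1]; ring

end Pool.Agent.Y198.Bat
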