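import Mathlib
import Pool.Agent.Y198.Bat.Defs
import Pool.Agent.Y198.Bat.Curve

set_option autoImplicit false

namespace Pool.Agent.Y198.Bat

section forms

variable {A : Type} [CommRing A]

def ca0 (x0 x1 y0 y1 t0 t1 : A) : A := t0 * (x1 * y1) + t1 * (x0 * y1 + x1 * y0)
def ca1 (x0 x1 y0 y1 t0 _t1 : A) : A := t0 * (x1 * y1 + x0 * y0)
def cb0 (x0 x1 y0 y1 t0 t1 : A) : A := t0 * (x0 * y1 + x1 * y0) - t1 * (x0 * y0)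
def cb1 (x0 x1 y0 y1 _t0 t1 : A) : A := t1 * (x1 * y1 - x0 * y0)

/-- the first bilinear form -/
def fA (x0 x1 y0 y1 t0 t1 z0 z1 : A) : A := ca0 x0 x1 y0 y1 t0 t1 * z0 + ca1 x0 x1 y0 y1 t0 t1 * z1
/-- the second bilinear form -/
def fB (x0 x1 y0 y1 t0 t1 z0 z1 : A) : A := cb0 x0 x1 y0 y1 t0 t1 * z0 + cb1 x0 x1 y0 y1 t0 t1 * z1

/-- the equation of multidegree `(1,1,1,1,1,0)` -/
def phi (x0 x1 y0 y1 t0 t1 z0 z1 s0 s1 : A) : A :=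
  s0 * fA x0 x1 y0 y1 t0 t1 z0 z1 + s1 * fB x0 x1 y0 y1 t0 t1 z0 z1

/-- the equation of multidegree `(1,0,0,0,1,1)` -/
def psi [Algebra ℂ A] (b b' : ℂ) (x0 x1 s0 s1 w0 w1 : A) : A :=
  w0 * s0 * (x0 - algebraMap ℂ A b * x1) - w1 * s1 * (x0 - algebraMap ℂ A b' * x1)

theorem det_eq (x0 x1 y0 y1 t0 t1 : A) :
    ca0 x0 x1 y0 y1 t0 t1 * cb1 x0 x1 y0 y1 t0 t1 - ca1 x0 x1 y0 y1 t0 t1 * cb0 x0 x1 y0 y1 t0 t1
      = FF x0 x1 y0 y1 t0 t1 := by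
  simp only [ca0, ca1, cb0, cb1, FF, F2, F1, F0]; ring

end forms

open MvPolynomial in
/-- the complete intersection -/
noncomputable def FX (b b' : ℂ) : Fin 2 → MvPolynomial (Fin 6 × Fin 2) ℂ :=
  ![phi (X (0, 0)) (X (0, 1)) (X (1, 0)) (X (1, 1)) (X (2, 0)) (X (2, 1)) (X (3, 0)) (X (3, 1))
      (X (4, 0)) (X (4, 1)),
    psi b b' (X (0, 0)) (X (0, 1)) (X (4, 0)) (X (4, 1)) (X (5, 0)) (X (5, 1))]

theorem aeval_FX0 {A : Type} [CommRing A] [Algebra ℂ A] (b b' : ℂ) (f : Fin 6 × Fin 2 → A) :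
    MvPolynomial.aeval f (FX b b' 0) = phi (f (0, 0)) (f (0, 1)) (f (1, 0)) (f (1, 1)) (f (2, 0))
      (f (2, 1)) (f (3, 0)) (f (3, 1)) (f (4, 0)) (f (4, 1)) := by
  simp [FX, phi, fA, fB, ca0, ca1, cb0, cb1]

theorem aeval_FX1 {A : Type} [CommRing A] [Algebra ℂ A] (b b' : ℂ) (f : Fin 6 × Fin 2 → A) :
    MvPolynomial.aeval f (FX b b' 1) = psi b b' (f (0, 0)) (f (0, 1)) (f (4, 0)) (f (4, 1))
      (f (5, 0)) (f (5, 1)) := by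
  simp [FX, psi]

theorem eval_FX0 (b b' : ℂ) (f : Fin 6 × Fin 2 → ℂ) :
    MvPolynomial.eval f (FX b b' 0) = phi (f (0, 0)) (f (0, 1)) (f (1, 0)) (f (1, 1)) (f (2, 0))
      (f (2, 1)) (f (3, 0)) (f (3, 1)) (f (4, 0)) (f (4, 1)) := by
  simp [FX, phi, fA, fB, ca0, ca1, cb0, cb1]

theorem eval_FX1 (b b' : ℂ) (f : Fin 6 × Fin 2 → ℂ) :
    MvPolynomial.eval f (FX b b' 1) = psi b b' (f (0, 0)) (f (0, 1)) (f (4, 0)) (f (4, 1))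
      (f (5, 0)) (f (5, 1)) := by
  simp [FX, psi, MvPolynomial.algebraMap_eq]

end Pool.Agent.Y198.Bat
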