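import Mathlib
import Pool.Agent.Y198.Bat.Forms

set_option autoImplicit false

namespace Pool.Agent.Y198.Bat

open MvPolynomial

section

variable (b b' : ℂ) (x : Fin 6 × Fin 2 → ℂ)

def P0 {A : Type} [CommRing A] (t0 t1 z0 z1 s0 s1 : A) : A :=
  s0 * (t0 * z0 + t0 * z1) + s1 * t1 * z1
def P1 {A : Type} [CommRing A] (t0 t1 z0 _z1 s0 s1 : A) : A := s0 * t1 * z0 + s1 * t0 * z0
def P2 {A : Type} [CommRing A] (t0 t1 z0 z1 s0 s1 : A) : A :=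
  s0 * t0 * z1 - s1 * (t1 * z0 + t1 * z1)

theorem dPhi_x0 : eval x (pderiv (0, 0) (FX b b' 0)) =
    P1 (x (2, 0)) (x (2, 1)) (x (3, 0)) (x (3, 1)) (x (4, 0)) (x (4, 1)) * x (1, 1) +
    P2 (x (2, 0)) (x (2, 1)) (x (3, 0)) (x (3, 1)) (x (4, 0)) (x (4, 1)) * x (1, 0) := by
  simp [FX, phi, fA, fB, ca0, ca1, cb0, cb1, Derivation.leibniz, pderiv_X, P1, P2]
  ring

theorem dPhi_x1 : eval x (pderiv (0, 1) (FX b b' 0)) =
    P0 (x (2, 0)) (x (2, 1)) (x (3, 0)) (x (3, 1)) (x (4, 0)) (x (4, 1)) * x (1, 1) +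
    P1 (x (2, 0)) (x (2, 1)) (x (3, 0)) (x (3, 1)) (x (4, 0)) (x (4, 1)) * x (1, 0) := by
  simp [FX, phi, fA, fB, ca0, ca1, cb0, cb1, Derivation.leibniz, pderiv_X, P1, P0]
  ring

theorem dPhi_y0 : eval x (pderiv (1, 0) (FX b b' 0)) =
    P1 (x (2, 0)) (x (2, 1)) (x (3, 0)) (x (3, 1)) (x (4, 0)) (x (4, 1)) * x (0, 1) +
    P2 (x (2, 0)) (x (2, 1)) (x (3, 0)) (x (3, 1)) (x (4, 0)) (x (4, 1)) * x (0, 0) := by
  simp [FX, phi, fA, fB, ca0, ca1, cb0, cb1, Derivation.leibniz, pderiv_X, P1, P2]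
  ring

theorem dPhi_y1 : eval x (pderiv (1, 1) (FX b b' 0)) =
    P0 (x (2, 0)) (x (2, 1)) (x (3, 0)) (x (3, 1)) (x (4, 0)) (x (4, 1)) * x (0, 1) +
    P1 (x (2, 0)) (x (2, 1)) (x (3, 0)) (x (3, 1)) (x (4, 0)) (x (4, 1)) * x (0, 0) := by
  simp [FX, phi, fA, fB, ca0, ca1, cb0, cb1, Derivation.leibniz, pderiv_X, P1, P0]
  ring

theorem dPhi_t0 : eval x (pderiv (2, 0) (FX b b' 0)) =
    x (4, 0) * ((x (0, 1) * x (1, 1)) * x (3, 0) +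
      (x (0, 1) * x (1, 1) + x (0, 0) * x (1, 0)) * x (3, 1)) +
    x (4, 1) * (x (0, 0) * x (1, 1) + x (0, 1) * x (1, 0)) * x (3, 0) := by
  simp [FX, phi, fA, fB, ca0, ca1, cb0, cb1, Derivation.leibniz, pderiv_X]
  ring

theorem dPhi_t1 : eval x (pderiv (2, 1) (FX b b' 0)) =
    x (4, 0) * (x (0, 0) * x (1, 1) + x (0, 1) * x (1, 0)) * x (3, 0) +
    x (4, 1) * (-(x (0, 0) * x (1, 0)) * x (3, 0) +
      (x (0, 1) * x (1, 1) - x (0, 0) * x (1, 0)) * x (3, 1)) := by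
  simp [FX, phi, fA, fB, ca0, ca1, cb0, cb1, Derivation.leibniz, pderiv_X]
  ring

theorem dPhi_z0 : eval x (pderiv (3, 0) (FX b b' 0)) =
    x (4, 0) * ca0 (x (0, 0)) (x (0, 1)) (x (1, 0)) (x (1, 1)) (x (2, 0)) (x (2, 1)) +
    x (4, 1) * cb0 (x (0, 0)) (x (0, 1)) (x (1, 0)) (x (1, 1)) (x (2, 0)) (x (2, 1)) := by
  simp [FX, phi, fA, fB, ca0, ca1, cb0, cb1, Derivation.leibniz, pderiv_X]

theorem dPhi_z1 : eval x (pderiv (3, 1) (FX b b' 0)) =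
    x (4, 0) * ca1 (x (0, 0)) (x (0, 1)) (x (1, 0)) (x (1, 1)) (x (2, 0)) (x (2, 1)) +
    x (4, 1) * cb1 (x (0, 0)) (x (0, 1)) (x (1, 0)) (x (1, 1)) (x (2, 0)) (x (2, 1)) := by
  simp [FX, phi, fA, fB, ca0, ca1, cb0, cb1, Derivation.leibniz, pderiv_X]

theorem dPhi_s0 : eval x (pderiv (4, 0) (FX b b' 0)) = fA (x (0, 0)) (x (0, 1)) (x (1, 0))
    (x (1, 1)) (x (2, 0)) (x (2, 1)) (x (3, 0)) (x (3, 1)) := by
  simp [FX, phi, fA, fB, ca0, ca1, cb0, cb1, Derivation.leibniz, pderiv_X]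

theorem dPhi_s1 : eval x (pderiv (4, 1) (FX b b' 0)) = fB (x (0, 0)) (x (0, 1)) (x (1, 0))
    (x (1, 1)) (x (2, 0)) (x (2, 1)) (x (3, 0)) (x (3, 1)) := by
  simp [FX, phi, fA, fB, ca0, ca1, cb0, cb1, Derivation.leibniz, pderiv_X]

theorem dPhi_w (j : Fin 2) : eval x (pderiv (5, j) (FX b b' 0)) = 0 := by
  fin_cases j <;>
  simp [FX, phi, fA, fB, ca0, ca1, cb0, cb1, Derivation.leibniz, pderiv_X]

theorem dPsi_x0 : eval x (pderiv (0, 0) (FX b b' 1)) = x (5, 0) * x (4, 0) - x (5, 1) * x (4, 1) := by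
  simp [FX, psi, Derivation.leibniz, pderiv_X, algebraMap_eq]

theorem dPsi_x1 : eval x (pderiv (0, 1) (FX b b' 1)) =
    -(b * (x (5, 0) * x (4, 0))) + b' * (x (5, 1) * x (4, 1)) := by
  simp [FX, psi, Derivation.leibniz, pderiv_X, algebraMap_eq]
  ring

theorem dPsi_s0 : eval x (pderiv (4, 0) (FX b b' 1)) = x (5, 0) * (x (0, 0) - b * x (0, 1)) := by
  simp [FX, psi, Derivation.leibniz, pderiv_X, algebraMap_eq]
  ring

theorem dPsi_s1 : eval x (pderiv (4, 1) (FX b b' 1)) = -(x (5, 1) * (x (0, 0) - b' * x (0, 1))) := by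
  simp [FX, psi, Derivation.leibniz, pderiv_X, algebraMap_eq]
  ring

theorem dPsi_w0 : eval x (pderiv (5, 0) (FX b b' 1)) = x (4, 0) * (x (0, 0) - b * x (0, 1)) := by
  simp [FX, psi, Derivation.leibniz, pderiv_X, algebraMap_eq]
  ring

theorem dPsi_w1 : eval x (pderiv (5, 1) (FX b b' 1)) = -(x (4, 1) * (x (0, 0) - b' * x (0, 1))) := by
  simp [FX, psi, Derivation.leibniz, pderiv_X, algebraMap_eq]
  ring

theorem dPsi_o (i : Fin 6) (j : Fin 2) (h : i = 1 ∨ i = 2 ∨ i = 3) :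
    eval x (pderiv (i, j) (FX b b' 1)) = 0 := by
  rcases h with rfl | rfl | rfl <;> fin_cases j <;>
  simp [FX, psi, Derivation.leibniz, pderiv_X, algebraMap_eq]

end

end Pool.Agent.Y198.Bat
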