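import Mathlib
import Pool.Agent.Y198.Bat.Partials

set_option autoImplicit false

namespace Pool.Agent.Y198.Bat

/-- the discriminant curve has no double points -/
theorem disc_sq {x0 x1 : ℂ} (hx : x0 ≠ 0 ∨ x1 ≠ 0)
    (h : x0 ^ 8 - 16 * x0 ^ 6 * x1 ^ 2 + 2 * x0 ^ 4 * x1 ^ 4 + 16 * x0 ^ 2 * x1 ^ 6 + x1 ^ 8 = 0)
    (h0 : x0 * (x0 ^ 6 - 12 * x0 ^ 4 * x1 ^ 2 + x0 ^ 2 * x1 ^ 4 + 4 * x1 ^ 6) = 0)
    (h1 : x1 * (-4 * x0 ^ 6 + x0 ^ 4 * x1 ^ 2 + 12 * x0 ^ 2 * x1 ^ 4 + x1 ^ 6) = 0) : False := by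
  have hx0 : x0 ≠ 0 := by
    rintro rfl
    have : x1 ^ 8 = 0 := by linear_combination h
    have : x1 = 0 := eq_zero_of_pow_eq_zero this
    tauto
  have hx1 : x1 ≠ 0 := by
    rintro rfl
    have : x0 ^ 8 = 0 := by linear_combination h
    exact hx0 (eq_zero_of_pow_eq_zero this)
  obtain ⟨p, hp⟩ : ∃ p, p = x0 ^ 2 := ⟨_, rfl⟩
  obtain ⟨q, hq⟩ : ∃ q, q = x1 ^ 2 := ⟨_, rfl⟩
  have hp0 : p ≠ 0 := by rw [hp]; exact pow_ne_zero _ hx0
  have hq0 : q ≠ 0 := by rw [hq]; exact pow_ne_zero _ hx1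
  have E0 : p ^ 3 - 12 * p ^ 2 * q + p * q ^ 2 + 4 * q ^ 3 = 0 := by
    rcases mul_eq_zero.1 h0 with h' | h'
    · exact absurd h' hx0
    · rw [hp, hq]; linear_combination h'
  have E1 : -4 * p ^ 3 + p ^ 2 * q + 12 * p * q ^ 2 + q ^ 3 = 0 := by
    rcases mul_eq_zero.1 h1 with h' | h'
    · exact absurd h' hx1
    · rw [hp, hq]; linear_combination h'
  have E2 : -47 * p ^ 2 + 16 * p * q + 17 * q ^ 2 = 0 := by
    have : q * (-47 * p ^ 2 + 16 * p * q + 17 * q ^ 2) = 0 := by linear_combination E1 + 4 * E0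
    rcases mul_eq_zero.1 this with h' | h'
    · exact absurd h' hq0
    · exact h'
  have E3 : q = -12 * p := by
    have : q ^ 2 * (-5760 * p - 480 * q) = 0 := by
      linear_combination 2209 * E0 + (47 * p - 564 * q + 16 * q) * E2
    rcases mul_eq_zero.1 this with h' | h'
    · exact absurd h' (pow_ne_zero _ hq0)
    · linear_combination (-1/480 : ℂ) * h'
  rw [E3] at E2
  have : p ^ 2 = 0 := by linear_combination (1/2209 : ℂ) * E2
  exact hp0 (eq_zero_of_pow_eq_zero this)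

theorem smooth_diag {x0 x1 t0 t1 : ℂ} (hx : x0 ≠ 0 ∨ x1 ≠ 0) (ht : t0 ≠ 0 ∨ t1 ≠ 0)
    (e1 : t1 * (x0 ^ 4 + x1 ^ 4) - 4 * t0 * x0 * x1 * (x0 ^ 2 + x1 ^ 2) = 0)
    (e2 : t0 * (x0 ^ 4 + x1 ^ 4) - 4 * t1 * x0 * x1 * (x0 ^ 2 - x1 ^ 2) = 0)
    (e3 : 2 * t0 * t1 * x0 ^ 3 - 3 * (t0 ^ 2 + t1 ^ 2) * x0 ^ 2 * x1 +
      (t1 ^ 2 - t0 ^ 2) * x1 ^ 3 = 0)
    (e4 : 2 * t0 * t1 * x1 ^ 3 + 3 * (t1 ^ 2 - t0 ^ 2) * x0 * x1 ^ 2 -
      (t0 ^ 2 + t1 ^ 2) * x0 ^ 3 = 0) : False := by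
  obtain ⟨A, hA⟩ : ∃ A, A = 2 * x0 * x1 * (x1 ^ 2 - x0 ^ 2) := ⟨_, rfl⟩
  obtain ⟨B, hB⟩ : ∃ B, B = x0 ^ 4 + x1 ^ 4 := ⟨_, rfl⟩
  obtain ⟨Cc, hC⟩ : ∃ Cc, Cc = -2 * x0 * x1 * (x0 ^ 2 + x1 ^ 2) := ⟨_, rfl⟩
  have f0 : B * t1 + 2 * Cc * t0 = 0 := by rw [hB, hC]; linear_combination e1
  have f1 : 2 * A * t1 + B * t0 = 0 := by rw [hA, hB]; linear_combination e2
  have D : B ^ 2 - 4 * A * Cc = 0 := by
    rcases ht with h | h
    · apply (mul_eq_zero.1 (?_ : t0 * (B ^ 2 - 4 * A * Cc) = 0)).resolve_left h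
      linear_combination B * f1 - 2 * A * f0
    · apply (mul_eq_zero.1 (?_ : t1 * (B ^ 2 - 4 * A * Cc) = 0)).resolve_left h
      linear_combination B * f0 - 2 * Cc * f1
  have key : ∀ Ai Bi Ci : ℂ, Ai * t1 ^ 2 + Bi * (t0 * t1) + Ci * t0 ^ 2 = 0 →
      2 * Cc * Ai - B * Bi + 2 * A * Ci = 0 := by
    intro Ai Bi Ci h
    by_cases h1 : t1 = 0
    · have h0 : t0 ≠ 0 := by tauto
      rw [h1] at h f0 f1
      have c1 : Ci = 0 := by
        apply (mul_eq_zero.1 (?_ : t0 ^ 2 * Ci = 0)).resolve_left (pow_ne_zero _ h0)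
        linear_combination h
      have c2 : Cc = 0 := by
        apply (mul_eq_zero.1 (?_ : t0 * Cc = 0)).resolve_left h0
        linear_combination (1/2 : ℂ) * f0
      have c3 : B = 0 := by
        apply (mul_eq_zero.1 (?_ : t0 * B = 0)).resolve_left h0
        linear_combination f1
      rw [c1, c2, c3]; ring
    · apply (mul_eq_zero.1 (?_ : t1 ^ 2 * (2 * Cc * Ai - B * Bi + 2 * A * Ci) = 0)).resolve_left
        (pow_ne_zero _ h1)
      linear_combination 2 * Cc * h - Bi * t1 * f0 + (Ci * (t1 * f1 - t0 * f0))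
  have k0 := key (x1 ^ 3 - 3 * x0 ^ 2 * x1) (2 * x0 ^ 3) (-3 * x0 ^ 2 * x1 - x1 ^ 3)
    (by linear_combination e3)
  have k1 := key (3 * x0 * x1 ^ 2 - x0 ^ 3) (2 * x1 ^ 3) (-x0 ^ 3 - 3 * x0 * x1 ^ 2)
    (by linear_combination e4)
  rw [hA, hB, hC] at D k0 k1
  refine disc_sq hx (by linear_combination D) (by linear_combination (-1/2 : ℂ) * k0)
    (by linear_combination (-1/2 : ℂ) * k1)

/-- the surface `F = 0` is smooth -/
theorem smooth_F {x0 x1 y0 y1 t0 t1 X0 X1 X2 G0 G1 G2 : ℂ} (hx : x0 ≠ 0 ∨ x1 ≠ 0)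
    (hy : y0 ≠ 0 ∨ y1 ≠ 0) (ht : t0 ≠ 0 ∨ t1 ≠ 0) (hX0 : X0 = x1 * y1)
    (hX1 : X1 = x0 * y1 + x1 * y0) (hX2 : X2 = x0 * y0)
    (hG0 : G0 = 2 * t0 * t1 * X0 + (t1 ^ 2 - t0 ^ 2) * X1)
    (hG1 : G1 = (t1 ^ 2 - t0 ^ 2) * X0 - (t0 ^ 2 + t1 ^ 2) * X2)
    (hG2 : G2 = 2 * t0 * t1 * X2 - (t0 ^ 2 + t1 ^ 2) * X1)
    (ex0 : G1 * y1 + G2 * y0 = 0) (ex1 : G0 * y1 + G1 * y0 = 0)
    (ey0 : G1 * x1 + G2 * x0 = 0) (ey1 : G0 * x1 + G1 * x0 = 0)
    (et0 : t1 * (X0 ^ 2 + X2 ^ 2) - 2 * t0 * X1 * (X0 + X2) = 0)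
    (et1 : t0 * (X0 ^ 2 + X2 ^ 2) + 2 * t1 * X1 * (X0 - X2) = 0) : False := by
  have hXne : ¬ (X0 = 0 ∧ X1 = 0 ∧ X2 = 0) := by
    rintro ⟨h0, h1, h2⟩
    rw [hX0] at h0; rw [hX1] at h1; rw [hX2] at h2
    rcases mul_eq_zero.1 h0 with h | h
    · have hx0 : x0 ≠ 0 := by tauto
      have hy0 : y0 = 0 := (mul_eq_zero.1 h2).resolve_left hx0
      have hy1 : y1 = 0 := by
        rw [h, hy0] at h1
        simpa [hx0] using h1
      tauto
    · have hy0 : y0 ≠ 0 := by tauto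
      have hx0 : x0 = 0 := (mul_eq_zero.1 h2).resolve_right hy0
      have hx1 : x1 = 0 := by
        rw [h, hx0] at h1
        simpa [hy0] using h1
      tauto
  by_cases hd : x0 * y1 - x1 * y0 = 0
  · -- parallel
    obtain ⟨μ, hμ, h0, h1⟩ : ∃ μ : ℂ, μ ≠ 0 ∧ y0 = μ * x0 ∧ y1 = μ * x1 := by
      rcases hx with h | h
      · have hy0 : y0 ≠ 0 := by
          rintro rfl
          have : x0 * y1 = 0 := by linear_combination hd
          have := (mul_eq_zero.1 this).resolve_left h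
          tauto
        exact ⟨y0 / x0, div_ne_zero hy0 h, by field_simp, by field_simp; linear_combination hd⟩
      · have hy1 : y1 ≠ 0 := by
          rintro rfl
          have : x1 * y0 = 0 := by linear_combination -hd
          have := (mul_eq_zero.1 this).resolve_left h
          tauto
        exact ⟨y1 / x1, div_ne_zero hy1 h, by field_simp; linear_combination -hd, by field_simp⟩
    rw [h0, h1] at hX1
    rw [h1] at hX0
    rw [h0] at hX2
    rw [hG1, hG2, hX0, hX1, hX2] at ey0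
    rw [hG0, hG1, hX0, hX1, hX2] at ey1
    rw [hX0, hX1, hX2] at et0 et1
    refine smooth_diag hx ht ?_ ?_ ?_ ?_
    · apply (mul_eq_zero.1 (?_ : μ ^ 2 * _ = 0)).resolve_left (pow_ne_zero _ hμ)
      linear_combination et0
    · apply (mul_eq_zero.1 (?_ : μ ^ 2 * _ = 0)).resolve_left (pow_ne_zero _ hμ)
      linear_combination et1
    · apply (mul_eq_zero.1 (?_ : μ * _ = 0)).resolve_left hμ
      linear_combination ey0
    · apply (mul_eq_zero.1 (?_ : μ * _ = 0)).resolve_left hμ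
      linear_combination ey1
  · have g1 : G1 = 0 := by
      apply (mul_eq_zero.1 (?_ : (x0 * y1 - x1 * y0) * G1 = 0)).resolve_left hd
      linear_combination x0 * ex0 - y0 * ey0
    have g2 : G2 = 0 := by
      apply (mul_eq_zero.1 (?_ : (x0 * y1 - x1 * y0) * G2 = 0)).resolve_left hd
      linear_combination y1 * ey0 - x1 * ex0
    have g0 : G0 = 0 := by
      apply (mul_eq_zero.1 (?_ : (x0 * y1 - x1 * y0) * G0 = 0)).resolve_left hd
      linear_combination x0 * ex1 - y0 * ey1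
    rw [hG0] at g0
    rw [hG1] at g1
    rw [hG2] at g2
    by_cases h0 : t0 = 0
    · have h1 : t1 ≠ 0 := by tauto
      rw [h0] at g0 g1 g2 et0 et1
      have x1z : X1 = 0 := by
        apply (mul_eq_zero.1 (?_ : t1 ^ 2 * X1 = 0)).resolve_left (pow_ne_zero _ h1)
        linear_combination g0
      have x02 : X0 - X2 = 0 := by
        apply (mul_eq_zero.1 (?_ : t1 ^ 2 * (X0 - X2) = 0)).resolve_left (pow_ne_zero _ h1)
        linear_combination g1
      have x00 : X0 = 0 := by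
        have : t1 * (X0 ^ 2) = 0 := by
          linear_combination (1/2 : ℂ) * et0 + (1/2 : ℂ) * t1 * (X0 + X2) * x02
        exact eq_zero_of_pow_eq_zero ((mul_eq_zero.1 this).resolve_left h1)
      exact hXne ⟨x00, x1z, by linear_combination x00 - x02⟩
    by_cases h1 : t1 = 0
    · rw [h1] at g0 g1 g2 et0 et1
      have x1z : X1 = 0 := by
        apply (mul_eq_zero.1 (?_ : t0 ^ 2 * X1 = 0)).resolve_left (pow_ne_zero _ h0)
        linear_combination -g0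
      have x02 : X0 + X2 = 0 := by
        apply (mul_eq_zero.1 (?_ : t0 ^ 2 * (X0 + X2) = 0)).resolve_left (pow_ne_zero _ h0)
        linear_combination -g1
      have x00 : X0 = 0 := by
        have : t0 * (X0 ^ 2) = 0 := by
          linear_combination (1/2 : ℂ) * et1 + (1/2 : ℂ) * t0 * (X0 - X2) * x02
        exact eq_zero_of_pow_eq_zero ((mul_eq_zero.1 this).resolve_left h0)
      exact hXne ⟨x00, x1z, by linear_combination x02 - x00⟩
    · by_cases hX1z : X1 = 0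
      · rw [hX1z] at g0 g2
        have a0 : X0 = 0 := by
          apply (mul_eq_zero.1 (?_ : (2 * t0 * t1) * X0 = 0)).resolve_left
            (mul_ne_zero (mul_ne_zero two_ne_zero h0) h1)
          linear_combination g0
        have a2 : X2 = 0 := by
          apply (mul_eq_zero.1 (?_ : (2 * t0 * t1) * X2 = 0)).resolve_left
            (mul_ne_zero (mul_ne_zero two_ne_zero h0) h1)
          linear_combination g2
        exact hXne ⟨a0, hX1z, a2⟩
      · have q4 : t0 ^ 4 + t1 ^ 4 = 0 := by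
          apply (mul_eq_zero.1 (?_ : X1 * (t0 ^ 4 + t1 ^ 4) = 0)).resolve_left hX1z
          linear_combination (-(t0 * t1)) * g1 + (1/2 : ℂ) * (t1 ^ 2 - t0 ^ 2) * g0 -
            (1/2 : ℂ) * (t0 ^ 2 + t1 ^ 2) * g2
        have s1 : t1 * (X0 + X2) = t0 * X1 := by
          apply mul_left_cancel₀ (mul_ne_zero two_ne_zero h0)
          linear_combination g0 + g2
        have s2 : X0 ^ 2 + X2 ^ 2 = 0 := by
          apply (mul_eq_zero.1 (?_ : (2 * t0 * t1) ^ 2 * (X0 ^ 2 + X2 ^ 2) = 0)).resolve_left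
            (pow_ne_zero _ (mul_ne_zero (mul_ne_zero two_ne_zero h0) h1))
          linear_combination (2 * t0 * t1 * X0 - (t1 ^ 2 - t0 ^ 2) * X1) * g0 +
            (2 * t0 * t1 * X2 + (t0 ^ 2 + t1 ^ 2) * X1) * g2 + 2 * X1 ^ 2 * q4
        have s3 : X1 * (X0 + X2) = 0 := by
          apply (mul_eq_zero.1 (?_ : (2 * t0) * (X1 * (X0 + X2)) = 0)).resolve_left
            (mul_ne_zero two_ne_zero h0)
          linear_combination t1 * s2 - et0
        have s4 := (mul_eq_zero.1 s3).resolve_left hX1z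
        rw [s4, mul_zero] at s1
        rcases mul_eq_zero.1 s1.symm with h | h
        · exact h0 h
        · exact hX1z h

end Pool.Agent.Y198.Bat
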