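import Mathlib
import Pool.Agent.Y198.Bat.Smooth
import Pool.Agent.Y198.Bat.Defs

set_option autoImplicit false

namespace Pool.Agent.Y198.Bat

theorem kv {z0 z1 a0 a1 : ℂ} (hz : z0 ≠ 0 ∨ z1 ≠ 0) (h : a0 * z0 + a1 * z1 = 0) :
    ∃ α, a0 = α * z1 ∧ a1 = -(α * z0) := by
  by_cases h1 : z1 = 0
  · have h0 : z0 ≠ 0 := by tauto
    refine ⟨-a1 / z0, ?_, by field_simp⟩
    rw [h1] at h ⊢
    have : a0 * z0 = 0 := by linear_combination h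
    simpa [h0] using this
  · exact ⟨a0 / z1, by field_simp, by field_simp; linear_combination h⟩

theorem core1 {x0 x1 y0 y1 t0 t1 z0 z1 s0 s1 : ℂ} (hx : x0 ≠ 0 ∨ x1 ≠ 0)
    (hy : y0 ≠ 0 ∨ y1 ≠ 0) (ht : t0 ≠ 0 ∨ t1 ≠ 0) (hz : z0 ≠ 0 ∨ z1 ≠ 0) (hs : s0 ≠ 0 ∨ s1 ≠ 0)
    (ex0 : P1 t0 t1 z0 z1 s0 s1 * y1 + P2 t0 t1 z0 z1 s0 s1 * y0 = 0)
    (ex1 : P0 t0 t1 z0 z1 s0 s1 * y1 + P1 t0 t1 z0 z1 s0 s1 * y0 = 0)
    (ey0 : P1 t0 t1 z0 z1 s0 s1 * x1 + P2 t0 t1 z0 z1 s0 s1 * x0 = 0)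
    (ey1 : P0 t0 t1 z0 z1 s0 s1 * x1 + P1 t0 t1 z0 z1 s0 s1 * x0 = 0)
    (et0 : s0 * ((x1 * y1) * z0 + (x1 * y1 + x0 * y0) * z1) + s1 * (x0 * y1 + x1 * y0) * z0 = 0)
    (et1 : s0 * (x0 * y1 + x1 * y0) * z0 + s1 * (-(x0 * y0) * z0 + (x1 * y1 - x0 * y0) * z1) = 0)
    (ez0 : s0 * ca0 x0 x1 y0 y1 t0 t1 + s1 * cb0 x0 x1 y0 y1 t0 t1 = 0)
    (ez1 : s0 * ca1 x0 x1 y0 y1 t0 t1 + s1 * cb1 x0 x1 y0 y1 t0 t1 = 0)
    (es0 : fA x0 x1 y0 y1 t0 t1 z0 z1 = 0) (es1 : fB x0 x1 y0 y1 t0 t1 z0 z1 = 0) : False := by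
  obtain ⟨α, a0, a1⟩ := kv hz es0
  obtain ⟨β, b0, b1⟩ := kv hz es1
  have hαβ : α * s0 + β * s1 = 0 := by
    rcases hz with h | h
    · apply (mul_eq_zero.1 (?_ : z0 * (α * s0 + β * s1) = 0)).resolve_left h
      rw [a1, b1] at ez1
      linear_combination -ez1
    · apply (mul_eq_zero.1 (?_ : z1 * (α * s0 + β * s1) = 0)).resolve_left h
      rw [a0, b0] at ez0
      linear_combination ez0
  obtain ⟨c, hα, hβ⟩ := kv hs hαβ
  rw [hα] at a0 a1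
  rw [hβ] at b0 b1
  simp only [ca0, ca1, cb0, cb1] at a0 a1 b0 b1
  simp only [P0, P1, P2] at ex0 ex1 ey0 ey1
  refine smooth_F hx hy ht rfl rfl rfl rfl rfl rfl ?_ ?_ ?_ ?_ ?_ ?_
  · linear_combination c * ex0 + (-(t0 * y1) + t1 * y0) * a1 + t1 * y1 * b1 - t1 * y0 * a0 -
      t0 * y0 * b0
  · linear_combination c * ex1 + (-(t0 * y0)) * a1 + t1 * y0 * b1 + t1 * y1 * a0 -
      t0 * y1 * b0 + t0 * y1 * b1
  · linear_combination c * ey0 + (-(t0 * x1) + t1 * x0) * a1 + t1 * x1 * b1 - t1 * x0 * a0 -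
      t0 * x0 * b0
  · linear_combination c * ey1 + (-(t0 * x0)) * a1 + t1 * x0 * b1 + t1 * x1 * a0 -
      t0 * x1 * b0 + t0 * x1 * b1
  · linear_combination c * et0 + (x1 * y1) * b1 - (x1 * y1 + x0 * y0) * b0 -
      (x0 * y1 + x1 * y0) * a1
  · linear_combination c * et1 + (x0 * y1 + x1 * y0) * b1 + (x1 * y1 - x0 * y0) * a0 +
      (x0 * y0) * a1

theorem coreA {b x1 y0 y1 t0 t1 z0 z1 : ℂ} (hb : b ^ 2 ≠ 1) (hx : x1 ≠ 0) (hy : y0 ≠ 0 ∨ y1 ≠ 0)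
    (ht : t0 ≠ 0 ∨ t1 ≠ 0) (hz : z0 ≠ 0 ∨ z1 ≠ 0)
    (e0 : ca0 (b * x1) x1 y0 y1 t0 t1 = 0) (e1 : ca1 (b * x1) x1 y0 y1 t0 t1 = 0)
    (et0 : (x1 * y1) * z0 + (x1 * y1 + (b * x1) * y0) * z1 = 0)
    (et1 : ((b * x1) * y1 + x1 * y0) * z0 = 0)
    (ey0 : (t1 * z0) * x1 + (t0 * z1) * (b * x1) = 0)
    (ey1 : (t0 * z0 + t0 * z1) * x1 + (t1 * z0) * (b * x1) = 0) : False := by
  have hb' : b ^ 2 - 1 ≠ 0 := sub_ne_zero.2 hb
  simp only [ca0, ca1] at e0 e1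
  by_cases h0 : t0 = 0
  · have h1 : t1 ≠ 0 := by tauto
    rw [h0] at ey0 e0
    have hz0 : z0 = 0 := by
      apply (mul_eq_zero.1 (?_ : (t1 * x1) * z0 = 0)).resolve_left (mul_ne_zero h1 hx)
      linear_combination ey0
    have hz1 : z1 ≠ 0 := by tauto
    have k1 : b * y1 + y0 = 0 := by
      apply (mul_eq_zero.1 (?_ : (t1 * x1) * (b * y1 + y0) = 0)).resolve_left (mul_ne_zero h1 hx)
      linear_combination e0
    have k2 : y1 + b * y0 = 0 := by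
      apply (mul_eq_zero.1 (?_ : (z1 * x1) * (y1 + b * y0) = 0)).resolve_left (mul_ne_zero hz1 hx)
      rw [hz0] at et0
      linear_combination et0
    have k3 : y1 = 0 := by
      apply (mul_eq_zero.1 (?_ : (b ^ 2 - 1) * y1 = 0)).resolve_left hb'
      linear_combination b * k1 - k2
    have k4 : y0 = 0 := by rw [k3] at k1; linear_combination k1
    tauto
  · have k2 : y1 + b * y0 = 0 := by
      apply (mul_eq_zero.1 (?_ : (t0 * x1) * (y1 + b * y0) = 0)).resolve_left (mul_ne_zero h0 hx)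
      linear_combination e1
    by_cases hz0 : z0 = 0
    · have hz1 : z1 ≠ 0 := by tauto
      rw [hz0] at ey1
      apply mul_ne_zero (mul_ne_zero h0 hz1) hx
      linear_combination ey1
    · have k1 : b * y1 + y0 = 0 := by
        apply (mul_eq_zero.1 (?_ : (z0 * x1) * (b * y1 + y0) = 0)).resolve_left
          (mul_ne_zero hz0 hx)
        linear_combination et1
      have k3 : y1 = 0 := by
        apply (mul_eq_zero.1 (?_ : (b ^ 2 - 1) * y1 = 0)).resolve_left hb'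
        linear_combination b * k1 - k2
      have k4 : y0 = 0 := by rw [k3] at k1; linear_combination k1
      tauto

theorem coreB {b x1 y0 y1 t0 t1 z0 z1 : ℂ} (hb : b ^ 2 ≠ -1) (hx : x1 ≠ 0) (hy : y0 ≠ 0 ∨ y1 ≠ 0)
    (ht : t0 ≠ 0 ∨ t1 ≠ 0) (hz : z0 ≠ 0 ∨ z1 ≠ 0)
    (e0 : cb0 (b * x1) x1 y0 y1 t0 t1 = 0) (e1 : cb1 (b * x1) x1 y0 y1 t0 t1 = 0)
    (et0 : ((b * x1) * y1 + x1 * y0) * z0 = 0)
    (et1 : -((b * x1) * y0) * z0 + (x1 * y1 - (b * x1) * y0) * z1 = 0)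
    (ey0 : (t0 * z0) * x1 - (t1 * z0 + t1 * z1) * (b * x1) = 0)
    (ey1 : (t1 * z1) * x1 + (t0 * z0) * (b * x1) = 0) : False := by
  have hb' : b ^ 2 + 1 ≠ 0 := fun h => hb (by linear_combination h)
  simp only [cb0, cb1] at e0 e1
  by_cases h1 : t1 = 0
  · have h0 : t0 ≠ 0 := by tauto
    rw [h1] at ey0 e0
    have hz0 : z0 = 0 := by
      apply (mul_eq_zero.1 (?_ : (t0 * x1) * z0 = 0)).resolve_left (mul_ne_zero h0 hx)
      linear_combination ey0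
    have hz1 : z1 ≠ 0 := by tauto
    have k1 : b * y1 + y0 = 0 := by
      apply (mul_eq_zero.1 (?_ : (t0 * x1) * (b * y1 + y0) = 0)).resolve_left (mul_ne_zero h0 hx)
      linear_combination e0
    have k2 : y1 - b * y0 = 0 := by
      apply (mul_eq_zero.1 (?_ : (z1 * x1) * (y1 - b * y0) = 0)).resolve_left (mul_ne_zero hz1 hx)
      rw [hz0] at et1
      linear_combination et1
    have k3 : y1 = 0 := by
      apply (mul_eq_zero.1 (?_ : (b ^ 2 + 1) * y1 = 0)).resolve_left hb'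
      linear_combination b * k1 + k2
    have k4 : y0 = 0 := by rw [k3] at k1; linear_combination k1
    tauto
  · have k2 : y1 - b * y0 = 0 := by
      apply (mul_eq_zero.1 (?_ : (t1 * x1) * (y1 - b * y0) = 0)).resolve_left (mul_ne_zero h1 hx)
      linear_combination e1
    by_cases hz0 : z0 = 0
    · have hz1 : z1 ≠ 0 := by tauto
      rw [hz0] at ey1
      apply mul_ne_zero (mul_ne_zero h1 hz1) hx
      linear_combination ey1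
    · have k1 : b * y1 + y0 = 0 := by
        apply (mul_eq_zero.1 (?_ : (z0 * x1) * (b * y1 + y0) = 0)).resolve_left
          (mul_ne_zero hz0 hx)
        linear_combination et0
      have k3 : y1 = 0 := by
        apply (mul_eq_zero.1 (?_ : (b ^ 2 + 1) * y1 = 0)).resolve_left hb'
        linear_combination b * k1 + k2
      have k4 : y0 = 0 := by rw [k3] at k1; linear_combination k1
      tauto

theorem core2 {b b' x0 x1 y0 y1 t0 t1 z0 z1 s0 s1 : ℂ} (hbb : b ≠ b')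
    (hb : b ^ 2 ≠ 1) (hb' : b' ^ 2 ≠ -1) (hx0 : x0 ≠ 0 ∨ x1 ≠ 0)
    (hy0 : y0 ≠ 0 ∨ y1 ≠ 0) (ht0 : t0 ≠ 0 ∨ t1 ≠ 0) (hz0 : z0 ≠ 0 ∨ z1 ≠ 0) (hs0 : s0 ≠ 0 ∨ s1 ≠ 0)
    (k0 : s0 * (x0 - b * x1) = 0) (k1 : s1 * (x0 - b' * x1) = 0)
    (ry0 : P1 t0 t1 z0 z1 s0 s1 * x1 + P2 t0 t1 z0 z1 s0 s1 * x0 = 0)
    (ry1 : P0 t0 t1 z0 z1 s0 s1 * x1 + P1 t0 t1 z0 z1 s0 s1 * x0 = 0)
    (rt0 : s0 * ((x1 * y1) * z0 + (x1 * y1 + x0 * y0) * z1) +
      s1 * (x0 * y1 + x1 * y0) * z0 = 0)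
    (rt1 : s0 * (x0 * y1 + x1 * y0) * z0 +
      s1 * (-(x0 * y0) * z0 + (x1 * y1 - x0 * y0) * z1) = 0)
    (rz0 : s0 * ca0 x0 x1 y0 y1 t0 t1 + s1 * cb0 x0 x1 y0 y1 t0 t1 = 0)
    (rz1 : s0 * ca1 x0 x1 y0 y1 t0 t1 + s1 * cb1 x0 x1 y0 y1 t0 t1 = 0) : False := by
  have hββ : ¬ (x0 - b * x1 = 0 ∧ x0 - b' * x1 = 0) := by
    rintro ⟨h1, h2⟩
    have h3 : x1 = 0 := by
      apply (mul_eq_zero.1 (?_ : (b - b') * x1 = 0)).resolve_left (sub_ne_zero.2 hbb)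
      linear_combination h2 - h1
    have h4 : x0 = 0 := by rw [h3] at h1; linear_combination h1
    rcases hx0 with h | h
    · exact h h4
    · exact h h3
  by_cases hs : s0 = 0
  · have hs1 : s1 ≠ 0 := hs0.resolve_left (not_not.2 hs)
    have hβ' : x0 = b' * x1 := by
      linear_combination (mul_eq_zero.1 k1).resolve_left hs1
    have hx1 : x1 ≠ 0 := by
      intro h
      rcases hx0 with h' | h'
      · rw [h, mul_zero] at hβ'; exact h' hβ'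
      · exact h' h
    subst hs
    subst hβ'
    simp only [P0, P1, P2] at ry0 ry1
    have c1 : ∀ {u : ℂ}, s1 * u = 0 → u = 0 := fun h => (mul_eq_zero.1 h).resolve_left hs1
    have a1 := c1 (u := cb0 (b' * x1) x1 y0 y1 t0 t1) (by linear_combination rz0)
    have a2 := c1 (u := cb1 (b' * x1) x1 y0 y1 t0 t1) (by linear_combination rz1)
    have a3 := c1 (u := ((b' * x1) * y1 + x1 * y0) * z0) (by linear_combination rt0)
    have a4 := c1 (u := -((b' * x1) * y0) * z0 + (x1 * y1 - (b' * x1) * y0) * z1)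
      (by linear_combination rt1)
    have a5 := c1 (u := (t0 * z0) * x1 - (t1 * z0 + t1 * z1) * (b' * x1))
      (by linear_combination ry0)
    have a6 := c1 (u := (t1 * z1) * x1 + (t0 * z0) * (b' * x1)) (by linear_combination ry1)
    exact coreB hb' hx1 hy0 ht0 hz0 a1 a2 a3 a4 a5 a6
  · have hβ : x0 = b * x1 := by
      linear_combination (mul_eq_zero.1 k0).resolve_left hs
    have hx1 : x1 ≠ 0 := by
      intro h
      rcases hx0 with h' | h'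
      · rw [h, mul_zero] at hβ; exact h' hβ
      · exact h' h
    have hβ' : x0 - b' * x1 ≠ 0 := by
      intro h
      exact hββ ⟨by rw [hβ]; ring, h⟩
    have hs1 : s1 = 0 := (mul_eq_zero.1 k1).resolve_right hβ'
    clear hββ hβ' k0 k1
    subst hs1
    subst hβ
    simp only [P0, P1, P2] at ry0 ry1
    have c1 : ∀ {u : ℂ}, s0 * u = 0 → u = 0 := fun h => (mul_eq_zero.1 h).resolve_left hs
    have a1 := c1 (u := ca0 (b * x1) x1 y0 y1 t0 t1) (by linear_combination rz0)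
    have a2 := c1 (u := ca1 (b * x1) x1 y0 y1 t0 t1) (by linear_combination rz1)
    have a3 := c1 (u := (x1 * y1) * z0 + (x1 * y1 + (b * x1) * y0) * z1)
      (by linear_combination rt0)
    have a4 := c1 (u := ((b * x1) * y1 + x1 * y0) * z0) (by linear_combination rt1)
    have a5 := c1 (u := (t1 * z0) * x1 + (t0 * z1) * (b * x1)) (by linear_combination ry0)
    have a6 := c1 (u := (t0 * z0 + t0 * z1) * x1 + (t1 * z0) * (b * x1))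
      (by linear_combination ry1)
    exact coreA hb hx1 hy0 ht0 hz0 a1 a2 a3 a4 a5 a6

theorem coreX {b b' g0 g1 x0 x1 y0 y1 t0 t1 z0 z1 s0 s1 w0 w1 : ℂ} (hbb : b ≠ b')
    (hb : b ^ 2 ≠ 1) (hb' : b' ^ 2 ≠ -1) (hx0 : x0 ≠ 0 ∨ x1 ≠ 0)
    (hy0 : y0 ≠ 0 ∨ y1 ≠ 0) (ht0 : t0 ≠ 0 ∨ t1 ≠ 0) (hz0 : z0 ≠ 0 ∨ z1 ≠ 0) (hs0 : s0 ≠ 0 ∨ s1 ≠ 0)
    (qx0 : g0 * (P1 t0 t1 z0 z1 s0 s1 * y1 + P2 t0 t1 z0 z1 s0 s1 * y0) +
      g1 * (w0 * s0 - w1 * s1) = 0)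
    (qx1 : g0 * (P0 t0 t1 z0 z1 s0 s1 * y1 + P1 t0 t1 z0 z1 s0 s1 * y0) +
      g1 * (-(b * (w0 * s0)) + b' * (w1 * s1)) = 0)
    (qy0 : g0 * (P1 t0 t1 z0 z1 s0 s1 * x1 + P2 t0 t1 z0 z1 s0 s1 * x0) = 0)
    (qy1 : g0 * (P0 t0 t1 z0 z1 s0 s1 * x1 + P1 t0 t1 z0 z1 s0 s1 * x0) = 0)
    (qt0 : g0 * (s0 * ((x1 * y1) * z0 + (x1 * y1 + x0 * y0) * z1) +
      s1 * (x0 * y1 + x1 * y0) * z0) = 0)
    (qt1 : g0 * (s0 * (x0 * y1 + x1 * y0) * z0 +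
      s1 * (-(x0 * y0) * z0 + (x1 * y1 - x0 * y0) * z1)) = 0)
    (qz0 : g0 * (s0 * ca0 x0 x1 y0 y1 t0 t1 + s1 * cb0 x0 x1 y0 y1 t0 t1) = 0)
    (qz1 : g0 * (s0 * ca1 x0 x1 y0 y1 t0 t1 + s1 * cb1 x0 x1 y0 y1 t0 t1) = 0)
    (qs0 : g0 * fA x0 x1 y0 y1 t0 t1 z0 z1 + g1 * (w0 * (x0 - b * x1)) = 0)
    (qs1 : g0 * fB x0 x1 y0 y1 t0 t1 z0 z1 + g1 * -(w1 * (x0 - b' * x1)) = 0)
    (qw0 : g1 * (s0 * (x0 - b * x1)) = 0) (qw1 : g1 * -(s1 * (x0 - b' * x1)) = 0) : g0 = 0 := by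
  by_contra g0n
  have c0 : ∀ {u : ℂ}, g0 * u = 0 → u = 0 := fun h => (mul_eq_zero.1 h).resolve_left g0n
  have ry0 := c0 qy0
  have ry1 := c0 qy1
  have rt0 := c0 qt0
  have rt1 := c0 qt1
  have rz0 := c0 qz0
  have rz1 := c0 qz1
  clear qy0 qy1 qt0 qt1 qz0 qz1
  by_cases g1n : g1 = 0
  · rw [g1n, zero_mul, add_zero] at qx0 qx1 qs0 qs1
    exact core1 hx0 hy0 ht0 hz0 hs0 (c0 qx0) (c0 qx1) ry0 ry1 rt0 rt1 rz0 rz1 (c0 qs0) (c0 qs1)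
  · have k0 : s0 * (x0 - b * x1) = 0 := (mul_eq_zero.1 qw0).resolve_left g1n
    have k1 : s1 * (x0 - b' * x1) = 0 := by
      have := (mul_eq_zero.1 qw1).resolve_left g1n
      linear_combination -this
    exact core2 hbb hb hb' hx0 hy0 ht0 hz0 hs0 k0 k1 ry0 ry1 rt0 rt1 rz0 rz1

theorem coreX' {b b' g1 x0 x1 s0 s1 w0 w1 : ℂ} (hbb : b ≠ b') (hx0 : x0 ≠ 0 ∨ x1 ≠ 0)
    (hs0 : s0 ≠ 0 ∨ s1 ≠ 0) (hw0 : w0 ≠ 0 ∨ w1 ≠ 0)
    (qx0 : g1 * (w0 * s0 - w1 * s1) = 0)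
    (qx1 : g1 * (-(b * (w0 * s0)) + b' * (w1 * s1)) = 0)
    (qs0 : g1 * (w0 * (x0 - b * x1)) = 0)
    (qs1 : g1 * -(w1 * (x0 - b' * x1)) = 0)
    (qw0 : g1 * (s0 * (x0 - b * x1)) = 0) (qw1 : g1 * -(s1 * (x0 - b' * x1)) = 0) : g1 = 0 := by
  have hββ : ¬ (x0 - b * x1 = 0 ∧ x0 - b' * x1 = 0) := by
    rintro ⟨h1, h2⟩
    have h3 : x1 = 0 := by
      apply (mul_eq_zero.1 (?_ : (b - b') * x1 = 0)).resolve_left (sub_ne_zero.2 hbb)
      linear_combination h2 - h1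
    have h4 : x0 = 0 := by rw [h3] at h1; linear_combination h1
    rcases hx0 with h | h
    · exact h h4
    · exact h h3
  by_contra g1
  have c0 : ∀ {u : ℂ}, _ * u = 0 → u = 0 := fun h => (mul_eq_zero.1 h).resolve_left g1
  have rx0 := c0 qx0
  have rx1 := c0 qx1
  have rs0 := c0 qs0
  have rs1 := c0 qs1
  have rw0 := c0 qw0
  have rw1 := c0 qw1
  have k0 : w0 * s0 = 0 := by
    apply (mul_eq_zero.1 (?_ : (b - b') * (w0 * s0) = 0)).resolve_left (sub_ne_zero.2 hbb)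
    linear_combination (-b') * rx0 - rx1
  have k1 : w1 * s1 = 0 := by linear_combination k0 - rx0
  by_cases hw : w0 = 0
  · have hw1 : w1 ≠ 0 := hw0.resolve_left (not_not.2 hw)
    have hs1 : s1 = 0 := (mul_eq_zero.1 k1).resolve_left hw1
    have hs : s0 ≠ 0 := hs0.resolve_right (not_not.2 hs1)
    have e1 : x0 - b * x1 = 0 := (mul_eq_zero.1 rw0).resolve_left hs
    have e2 : x0 - b' * x1 = 0 := by
      have : w1 * (x0 - b' * x1) = 0 := by linear_combination -rs1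
      exact (mul_eq_zero.1 this).resolve_left hw1
    exact hββ ⟨e1, e2⟩
  · have hs : s0 = 0 := (mul_eq_zero.1 k0).resolve_left hw
    have hs1 : s1 ≠ 0 := hs0.resolve_left (not_not.2 hs)
    have e1 : x0 - b * x1 = 0 := (mul_eq_zero.1 rs0).resolve_left hw
    have e2 : x0 - b' * x1 = 0 := by
      have : s1 * (x0 - b' * x1) = 0 := by linear_combination -rw1
      exact (mul_eq_zero.1 this).resolve_left hs1
    exact hββ ⟨e1, e2⟩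

open MvPolynomial in
theorem smooth_X {b b' : ℂ} (hbb : b ≠ b') (hb : b ^ 2 ≠ 1) (hb' : b' ^ 2 ≠ -1)
    (x : Fin 6 × Fin 2 → ℂ) (hx : x ∈ cone (FX b b')) :
    LinearIndependent ℂ fun j (v : Fin 6 × Fin 2) => eval x (pderiv v (FX b b' j)) := by
  rw [Fintype.linearIndependent_iff]
  intro g hg
  have h : ∀ v, g 0 * eval x (pderiv v (FX b b' 0)) + g 1 * eval x (pderiv v (FX b b' 1)) = 0 := by
    intro v
    have := congrFun hg v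
    simpa [Fin.sum_univ_two] using this
  obtain ⟨hne, -⟩ := hx
  have qx0 := h (0, 0)
  have qx1 := h (0, 1)
  have qy0 := h (1, 0)
  have qy1 := h (1, 1)
  have qt0 := h (2, 0)
  have qt1 := h (2, 1)
  have qz0 := h (3, 0)
  have qz1 := h (3, 1)
  have qs0 := h (4, 0)
  have qs1 := h (4, 1)
  have qw0 := h (5, 0)
  have qw1 := h (5, 1)
  rw [dPhi_x0, dPsi_x0] at qx0
  rw [dPhi_x1, dPsi_x1] at qx1
  rw [dPhi_y0, dPsi_o _ _ _ _ _ (Or.inl rfl), mul_zero, add_zero] at qy0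
  rw [dPhi_y1, dPsi_o _ _ _ _ _ (Or.inl rfl), mul_zero, add_zero] at qy1
  rw [dPhi_t0, dPsi_o _ _ _ _ _ (Or.inr (Or.inl rfl)), mul_zero, add_zero] at qt0
  rw [dPhi_t1, dPsi_o _ _ _ _ _ (Or.inr (Or.inl rfl)), mul_zero, add_zero] at qt1
  rw [dPhi_z0, dPsi_o _ _ _ _ _ (Or.inr (Or.inr rfl)), mul_zero, add_zero] at qz0
  rw [dPhi_z1, dPsi_o _ _ _ _ _ (Or.inr (Or.inr rfl)), mul_zero, add_zero] at qz1
  rw [dPhi_s0, dPsi_s0] at qs0
  rw [dPhi_s1, dPsi_s1] at qs1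
  rw [dPhi_w, dPsi_w0, mul_zero, zero_add] at qw0
  rw [dPhi_w, dPsi_w1, mul_zero, zero_add] at qw1
  have g0 : g 0 = 0 := coreX hbb hb hb' (hne 0) (hne 1) (hne 2) (hne 3) (hne 4) qx0 qx1 qy0 qy1
    qt0 qt1 qz0 qz1 qs0 qs1 qw0 qw1
  rw [g0, zero_mul, zero_add] at qx0 qx1 qs0 qs1
  have g1 : g 1 = 0 := coreX' hbb (hne 0) (hne 4) (hne 5) qx0 qx1 qs0 qs1 qw0 qw1
  intro i
  fin_cases i
  · exact g0
  · exact g1

end Pool.Agent.Y198.Bat
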