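import Mathlib
import Pool.Agent.Y198.Bat.SmoothX

set_option autoImplicit false

namespace Pool.Agent.Y198.Bat

open MvPolynomial

theorem irr_of {ι : Type} {S : Set (ι → ℂ)} (hne : S.Nonempty)
    (h : ∀ P Q : MvPolynomial ι ℂ, (∀ x ∈ S, eval x P = 0 ∨ eval x Q = 0) →
      (∀ x ∈ S, eval x P = 0) ∨ (∀ x ∈ S, eval x Q = 0)) : @IsIrreducible _ (zariski ι) S := by
  let _ := zariski ι
  refine ⟨hne, ?_⟩
  rintro u v ⟨U, hU, rfl⟩ ⟨V, hV, rfl⟩ ⟨a, haS, haU⟩ ⟨c, hcS, hcV⟩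
  rw [PrimeSpectrum.isOpen_iff] at hU hV
  obtain ⟨s, hs⟩ := hU
  obtain ⟨t, ht⟩ := hV
  have hmem : ∀ (W : Set (PrimeSpectrum (MvPolynomial ι ℂ))) (s : Set (MvPolynomial ι ℂ)),
      Wᶜ = PrimeSpectrum.zeroLocus s → ∀ x : ι → ℂ,
      (x ∈ MvPolynomial.pointToPoint (k := ℂ) (K := ℂ) ⁻¹' W ↔ ∃ P ∈ s, eval x P ≠ 0) := by
    intro W s hW x
    have h1 : x ∈ MvPolynomial.pointToPoint (k := ℂ) (K := ℂ) ⁻¹' W ↔
        ¬ (MvPolynomial.pointToPoint x ∈ Wᶜ) := by simp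
    rw [h1, hW, PrimeSpectrum.mem_zeroLocus]
    have h2 : ∀ P : MvPolynomial ι ℂ, P ∈ (MvPolynomial.pointToPoint x :
        PrimeSpectrum (MvPolynomial ι ℂ)).asIdeal ↔ eval x P = 0 := by
      intro P
      change P ∈ MvPolynomial.vanishingIdeal ℂ ({x} : Set (ι → ℂ)) ↔ _
      rw [MvPolynomial.mem_vanishingIdeal_singleton_iff, MvPolynomial.aeval_eq_eval]
    rw [Set.not_subset]
    constructor
    · rintro ⟨P, hP, hP'⟩
      exact ⟨P, hP, fun h => hP' ((h2 P).2 h)⟩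
    · rintro ⟨P, hP, hP'⟩
      exact ⟨P, hP, fun h => hP' ((h2 P).1 h)⟩
  obtain ⟨P, hP, hPa⟩ := (hmem U s hs a).1 haU
  obtain ⟨Q, hQ, hQc⟩ := (hmem V t ht c).1 hcV
  by_contra hcon
  have hall : ∀ x ∈ S, eval x P = 0 ∨ eval x Q = 0 := by
    intro x hx
    by_contra hxx
    push Not at hxx
    exact hcon ⟨x, hx, (hmem U s hs x).2 ⟨P, hP, hxx.1⟩, (hmem V t ht x).2 ⟨Q, hQ, hxx.2⟩⟩
  rcases h P Q hall with h1 | h1
  · exact hPa (h1 a haS)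
  · exact hQc (h1 c hcS)

/-- the parametrization -/
def par {A : Type} [CommRing A] [Algebra ℂ A] (b b' : ℂ) (x : Fin 6 × Fin 2 → A) :
    Fin 6 × Fin 2 → A := fun v =>
  ![![x (0, 0), x (0, 1)], ![x (1, 0), x (1, 1)], ![x (2, 0), x (2, 1)], ![x (3, 0), x (3, 1)],
    ![x (4, 0) * fB (x (0, 0)) (x (0, 1)) (x (1, 0)) (x (1, 1)) (x (2, 0)) (x (2, 1)) (x (3, 0))
        (x (3, 1)),
      -(x (4, 0) * fA (x (0, 0)) (x (0, 1)) (x (1, 0)) (x (1, 1)) (x (2, 0)) (x (2, 1)) (x (3, 0))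
        (x (3, 1)))],
    ![x (5, 0) * (-(x (4, 0) * fA (x (0, 0)) (x (0, 1)) (x (1, 0)) (x (1, 1)) (x (2, 0)) (x (2, 1))
        (x (3, 0)) (x (3, 1))) * (x (0, 0) - algebraMap ℂ A b' * x (0, 1))),
      x (5, 0) * (x (4, 0) * fB (x (0, 0)) (x (0, 1)) (x (1, 0)) (x (1, 1)) (x (2, 0)) (x (2, 1))
        (x (3, 0)) (x (3, 1)) * (x (0, 0) - algebraMap ℂ A b * x (0, 1)))]] v.1 v.2

theorem eval_par (b b' : ℂ) (x : Fin 6 × Fin 2 → ℂ) (P : MvPolynomial (Fin 6 × Fin 2) ℂ) :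
    eval x (aeval (par b b' X) P) = eval (par b b' x) P := by
  have h : ∀ v, eval x (par b b' (X : Fin 6 × Fin 2 → MvPolynomial (Fin 6 × Fin 2) ℂ) v) =
      par b b' x v := by
    rintro ⟨i, j⟩
    fin_cases i <;> fin_cases j <;>
      simp [par, fA, fB, ca0, ca1, cb0, cb1, algebraMap_eq]
  have key : ((aeval x : MvPolynomial (Fin 6 × Fin 2) ℂ →ₐ[ℂ] ℂ).comp (aeval (par b b' X))) =
      aeval (par b b' x) := by
    apply MvPolynomial.algHom_ext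
    intro v
    rw [AlgHom.comp_apply, aeval_X, aeval_X, ← h v]
    exact DFunLike.congr_fun (MvPolynomial.coe_aeval_eq_eval x) _
  have h3 := DFunLike.congr_fun key P
  have e1 := DFunLike.congr_fun (MvPolynomial.coe_aeval_eq_eval x) (aeval (par b b' X) P)
  have e2 := DFunLike.congr_fun (MvPolynomial.coe_aeval_eq_eval (par b b' x)) P
  rw [← e1, ← e2]
  exact h3

end Pool.Agent.Y198.Bat
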