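import Mathlib
import Pool.Agent.Y198.Bat.Irred

set_option autoImplicit false

namespace Pool.Agent.Y198.Bat

open MvPolynomial

/-- a polynomial vanishing at almost all points of an arc vanishes on the arc -/
theorem arc (f : Fin 6 × Fin 2 → Polynomial ℂ) (P : MvPolynomial (Fin 6 × Fin 2) ℂ)
    (D : Polynomial ℂ) (hD : D ≠ 0)
    (h : ∀ ξ : ℂ, D.eval ξ ≠ 0 → eval (fun v => (f v).eval ξ) P = 0) (ξ : ℂ) :
    eval (fun v => (f v).eval ξ) P = 0 := by
  have ev : ∀ ξ : ℂ, (aeval f P).eval ξ = eval (fun v => (f v).eval ξ) P := by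
    intro ξ
    have key : ((Polynomial.aeval ξ : Polynomial ℂ →ₐ[ℂ] ℂ).comp (aeval f)) =
        aeval (fun v => (f v).eval ξ) := by
      apply MvPolynomial.algHom_ext
      intro v
      rw [AlgHom.comp_apply, aeval_X, aeval_X, Polynomial.coe_aeval_eq_eval]
    have h3 := DFunLike.congr_fun key P
    have e2 := DFunLike.congr_fun (MvPolynomial.coe_aeval_eq_eval fun v => (f v).eval ξ) P
    rw [← e2]
    rw [AlgHom.comp_apply, Polynomial.coe_aeval_eq_eval] at h3
    exact h3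
  have h0 : D * aeval f P = 0 := by
    apply Polynomial.funext
    intro ξ
    rw [Polynomial.eval_mul, Polynomial.eval_zero, ev]
    by_cases hξ : D.eval ξ = 0
    · rw [hξ, zero_mul]
    · rw [h ξ hξ, mul_zero]
  have h1 := (mul_eq_zero.1 h0).resolve_left hD
  rw [← ev, h1, Polynomial.eval_zero]

/-- two independent covectors take prescribed values -/
theorem exists_eta (u v : Fin 8 → ℂ)
    (h : ∀ c0 c1 : ℂ, (∀ i, c0 * u i + c1 * v i = 0) → c0 = 0 ∧ c1 = 0) (a b : ℂ) :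
    ∃ η : Fin 8 → ℂ, ∑ i, η i * u i = a ∧ ∑ i, η i * v i = b := by
  obtain ⟨i, j, hij⟩ : ∃ i j, u i * v j - u j * v i ≠ 0 := by
    by_contra hc
    push Not at hc
    have hu : ∀ i, u i = 0 := by
      intro i
      have := (h (-v i) (u i) fun j => by linear_combination hc i j).2
      exact this
    have := (h 1 0 fun i => by rw [hu i]; ring).1
    exact one_ne_zero this
  set Δ := u i * v j - u j * v i with hΔ
  refine ⟨Pi.single i ((a * v j - b * u j) / Δ) + Pi.single j ((b * u i - a * v i) / Δ), ?_, ?_⟩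
  · simp only [Pi.add_apply, add_mul, Finset.sum_add_distrib, Pi.single_apply, ite_mul, zero_mul,
      Finset.sum_ite_eq', Finset.mem_univ, if_true]
    field_simp
    rw [hΔ]; ring
  · simp only [Pi.add_apply, add_mul, Finset.sum_add_distrib, Pi.single_apply, ite_mul, zero_mul,
      Finset.sum_ite_eq', Finset.mem_univ, if_true]
    field_simp
    rw [hΔ]; ring

/-- expansion of the bilinear forms along a line -/
theorem lineA (x0 x1 y0 y1 t0 t1 z0 z1 : ℂ) (e : Fin 8 → ℂ)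
    (h : fA x0 x1 y0 y1 t0 t1 z0 z1 = 0) :
    ∃ a : Polynomial ℂ, fA (Polynomial.C x0 + Polynomial.C (e 0) * Polynomial.X)
      (Polynomial.C x1 + Polynomial.C (e 1) * Polynomial.X)
      (Polynomial.C y0 + Polynomial.C (e 2) * Polynomial.X)
      (Polynomial.C y1 + Polynomial.C (e 3) * Polynomial.X)
      (Polynomial.C t0 + Polynomial.C (e 4) * Polynomial.X)
      (Polynomial.C t1 + Polynomial.C (e 5) * Polynomial.X)
      (Polynomial.C z0 + Polynomial.C (e 6) * Polynomial.X)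
      (Polynomial.C z1 + Polynomial.C (e 7) * Polynomial.X) = Polynomial.X * a ∧
      a.eval 0 = e 0 * (P1 t0 t1 z0 z1 1 0 * y1 + P2 t0 t1 z0 z1 1 0 * y0) +
        e 1 * (P0 t0 t1 z0 z1 1 0 * y1 + P1 t0 t1 z0 z1 1 0 * y0) +
        e 2 * (P1 t0 t1 z0 z1 1 0 * x1 + P2 t0 t1 z0 z1 1 0 * x0) +
        e 3 * (P0 t0 t1 z0 z1 1 0 * x1 + P1 t0 t1 z0 z1 1 0 * x0) +
        e 4 * ((x1 * y1) * z0 + (x1 * y1 + x0 * y0) * z1) +
        e 5 * ((x0 * y1 + x1 * y0) * z0) +
        e 6 * ca0 x0 x1 y0 y1 t0 t1 + e 7 * ca1 x0 x1 y0 y1 t0 t1 := by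
  obtain ⟨g, hg⟩ : ∃ g, g = fA (Polynomial.C x0 + Polynomial.C (e 0) * Polynomial.X)
      (Polynomial.C x1 + Polynomial.C (e 1) * Polynomial.X)
      (Polynomial.C y0 + Polynomial.C (e 2) * Polynomial.X)
      (Polynomial.C y1 + Polynomial.C (e 3) * Polynomial.X)
      (Polynomial.C t0 + Polynomial.C (e 4) * Polynomial.X)
      (Polynomial.C t1 + Polynomial.C (e 5) * Polynomial.X)
      (Polynomial.C z0 + Polynomial.C (e 6) * Polynomial.X)
      (Polynomial.C z1 + Polynomial.C (e 7) * Polynomial.X) := ⟨_, rfl⟩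
  rw [← hg]
  have h0 : g.coeff 0 = 0 := by
    rw [Polynomial.coeff_zero_eq_eval_zero, hg]
    refine Eq.trans ?_ h
    simp [fA, ca0, ca1]
  refine ⟨g.divX, ?_, ?_⟩
  · have := g.divX_mul_X_add
    rw [h0, Polynomial.C_0, add_zero, mul_comm] at this
    exact this.symm
  · have h1 : (Polynomial.divX g).eval 0 = (Polynomial.derivative g).eval 0 := by
      rw [← Polynomial.coeff_zero_eq_eval_zero, ← Polynomial.coeff_zero_eq_eval_zero,
        Polynomial.coeff_divX, Polynomial.coeff_derivative]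
      simp
    rw [h1, hg]
    simp [fA, ca0, ca1, Polynomial.derivative_mul, P0, P1, P2]
    ring

theorem lineB (x0 x1 y0 y1 t0 t1 z0 z1 : ℂ) (e : Fin 8 → ℂ)
    (h : fB x0 x1 y0 y1 t0 t1 z0 z1 = 0) :
    ∃ a : Polynomial ℂ, fB (Polynomial.C x0 + Polynomial.C (e 0) * Polynomial.X)
      (Polynomial.C x1 + Polynomial.C (e 1) * Polynomial.X)
      (Polynomial.C y0 + Polynomial.C (e 2) * Polynomial.X)
      (Polynomial.C y1 + Polynomial.C (e 3) * Polynomial.X)
      (Polynomial.C t0 + Polynomial.C (e 4) * Polynomial.X)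
      (Polynomial.C t1 + Polynomial.C (e 5) * Polynomial.X)
      (Polynomial.C z0 + Polynomial.C (e 6) * Polynomial.X)
      (Polynomial.C z1 + Polynomial.C (e 7) * Polynomial.X) = Polynomial.X * a ∧
      a.eval 0 = e 0 * (P1 t0 t1 z0 z1 0 1 * y1 + P2 t0 t1 z0 z1 0 1 * y0) +
        e 1 * (P0 t0 t1 z0 z1 0 1 * y1 + P1 t0 t1 z0 z1 0 1 * y0) +
        e 2 * (P1 t0 t1 z0 z1 0 1 * x1 + P2 t0 t1 z0 z1 0 1 * x0) +
        e 3 * (P0 t0 t1 z0 z1 0 1 * x1 + P1 t0 t1 z0 z1 0 1 * x0) +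
        e 4 * ((x0 * y1 + x1 * y0) * z0) +
        e 5 * (-(x0 * y0) * z0 + (x1 * y1 - x0 * y0) * z1) +
        e 6 * cb0 x0 x1 y0 y1 t0 t1 + e 7 * cb1 x0 x1 y0 y1 t0 t1 := by
  obtain ⟨g, hg⟩ : ∃ g, g = fB (Polynomial.C x0 + Polynomial.C (e 0) * Polynomial.X)
      (Polynomial.C x1 + Polynomial.C (e 1) * Polynomial.X)
      (Polynomial.C y0 + Polynomial.C (e 2) * Polynomial.X)
      (Polynomial.C y1 + Polynomial.C (e 3) * Polynomial.X)
      (Polynomial.C t0 + Polynomial.C (e 4) * Polynomial.X)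
      (Polynomial.C t1 + Polynomial.C (e 5) * Polynomial.X)
      (Polynomial.C z0 + Polynomial.C (e 6) * Polynomial.X)
      (Polynomial.C z1 + Polynomial.C (e 7) * Polynomial.X) := ⟨_, rfl⟩
  rw [← hg]
  have h0 : g.coeff 0 = 0 := by
    rw [Polynomial.coeff_zero_eq_eval_zero, hg]
    refine Eq.trans ?_ h
    simp [fB, cb0, cb1]
  refine ⟨g.divX, ?_, ?_⟩
  · have := g.divX_mul_X_add
    rw [h0, Polynomial.C_0, add_zero, mul_comm] at this
    exact this.symm
  · have h1 : (Polynomial.divX g).eval 0 = (Polynomial.derivative g).eval 0 := by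
      rw [← Polynomial.coeff_zero_eq_eval_zero, ← Polynomial.coeff_zero_eq_eval_zero,
        Polynomial.coeff_divX, Polynomial.coeff_derivative]
      simp
    rw [h1, hg]
    simp [fB, cb0, cb1, Polynomial.derivative_mul, P0, P1, P2]
    ring

end Pool.Agent.Y198.Bat
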