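import Mathlib
import Pool.Agent.Y198.Bat.Arcs

set_option autoImplicit false

namespace Pool.Agent.Y198.Bat

open MvPolynomial

theorem stage1 {b b' : ℂ} {P : MvPolynomial (Fin 6 × Fin 2) ℂ}
    (hP : ∀ x, eval (par b b' x) P = 0) (p : Fin 6 × Fin 2 → ℂ)
    (hne : ∀ i, p (i, 0) ≠ 0 ∨ p (i, 1) ≠ 0)
    (h0 : phi (p (0, 0)) (p (0, 1)) (p (1, 0)) (p (1, 1)) (p (2, 0)) (p (2, 1)) (p (3, 0))
      (p (3, 1)) (p (4, 0)) (p (4, 1)) = 0)
    (h1 : psi b b' (p (0, 0)) (p (0, 1)) (p (4, 0)) (p (4, 1)) (p (5, 0)) (p (5, 1)) = 0)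
    (hg : p (4, 1) * (p (0, 0) - b' * p (0, 1)) ≠ 0 ∨ p (4, 0) * (p (0, 0) - b * p (0, 1)) ≠ 0) :
    eval p P = 0 := by
  obtain ⟨x0, hx0⟩ : ∃ a, a = p (0, 0) := ⟨_, rfl⟩
  obtain ⟨x1, hx1⟩ : ∃ a, a = p (0, 1) := ⟨_, rfl⟩
  obtain ⟨y0, hy0⟩ : ∃ a, a = p (1, 0) := ⟨_, rfl⟩
  obtain ⟨y1, hy1⟩ : ∃ a, a = p (1, 1) := ⟨_, rfl⟩
  obtain ⟨t0, ht0⟩ : ∃ a, a = p (2, 0) := ⟨_, rfl⟩
  obtain ⟨t1, ht1⟩ : ∃ a, a = p (2, 1) := ⟨_, rfl⟩
  obtain ⟨z0, hz0⟩ : ∃ a, a = p (3, 0) := ⟨_, rfl⟩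
  obtain ⟨z1, hz1⟩ : ∃ a, a = p (3, 1) := ⟨_, rfl⟩
  obtain ⟨s0, hs0⟩ : ∃ a, a = p (4, 0) := ⟨_, rfl⟩
  obtain ⟨s1, hs1⟩ : ∃ a, a = p (4, 1) := ⟨_, rfl⟩
  obtain ⟨w0, hw0⟩ : ∃ a, a = p (5, 0) := ⟨_, rfl⟩
  obtain ⟨w1, hw1⟩ : ∃ a, a = p (5, 1) := ⟨_, rfl⟩
  have hpv : ∀ q : Fin 6 × Fin 2 → ℂ, q (0, 0) = x0 → q (0, 1) = x1 → q (1, 0) = y0 →
      q (1, 1) = y1 → q (2, 0) = t0 → q (2, 1) = t1 → q (3, 0) = z0 → q (3, 1) = z1 →
      q (4, 0) = s0 → q (4, 1) = s1 → q (5, 0) = w0 → q (5, 1) = w1 → q = p := by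
    intro q e1 e2 e3 e4 e5 e6 e7 e8 e9 e10 e11 e12
    funext v
    obtain ⟨i, j⟩ := v
    fin_cases i <;> fin_cases j
    · exact e1.trans hx0
    · exact e2.trans hx1
    · exact e3.trans hy0
    · exact e4.trans hy1
    · exact e5.trans ht0
    · exact e6.trans ht1
    · exact e7.trans hz0
    · exact e8.trans hz1
    · exact e9.trans hs0
    · exact e10.trans hs1
    · exact e11.trans hw0
    · exact e12.trans hw1
  have nx := hne 0
  have ny := hne 1
  have nt := hne 2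
  have nz := hne 3
  have ns := hne 4
  rw [← hx0, ← hx1] at nx h0 h1 hg
  rw [← hy0, ← hy1] at ny h0
  rw [← ht0, ← ht1] at nt h0
  rw [← hz0, ← hz1] at nz h0
  rw [← hs0, ← hs1] at ns h0 h1 hg
  rw [← hw0, ← hw1] at h1
  clear hne
  obtain ⟨μ, hμ0, hμ1⟩ := kv (z0 := s0 * (x0 - b * x1)) (z1 := -(s1 * (x0 - b' * x1)))
    (a0 := w0) (a1 := w1) (by
      rcases hg with h | h
      · right; exact neg_ne_zero.2 h
      · left; exact h) (by
      simp only [psi, Algebra.algebraMap_self, RingHom.id_apply] at h1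
      linear_combination h1)
  simp only [phi] at h0
  by_cases hA : fA x0 x1 y0 y1 t0 t1 z0 z1 = 0 ∧ fB x0 x1 y0 y1 t0 t1 z0 z1 = 0
  · obtain ⟨hA0, hA1⟩ := hA
    obtain ⟨η, e0, e1⟩ := exists_eta
      ![P1 t0 t1 z0 z1 1 0 * y1 + P2 t0 t1 z0 z1 1 0 * y0,
        P0 t0 t1 z0 z1 1 0 * y1 + P1 t0 t1 z0 z1 1 0 * y0,
        P1 t0 t1 z0 z1 1 0 * x1 + P2 t0 t1 z0 z1 1 0 * x0,
        P0 t0 t1 z0 z1 1 0 * x1 + P1 t0 t1 z0 z1 1 0 * x0,
        (x1 * y1) * z0 + (x1 * y1 + x0 * y0) * z1, (x0 * y1 + x1 * y0) * z0,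
        ca0 x0 x1 y0 y1 t0 t1, ca1 x0 x1 y0 y1 t0 t1]
      ![P1 t0 t1 z0 z1 0 1 * y1 + P2 t0 t1 z0 z1 0 1 * y0,
        P0 t0 t1 z0 z1 0 1 * y1 + P1 t0 t1 z0 z1 0 1 * y0,
        P1 t0 t1 z0 z1 0 1 * x1 + P2 t0 t1 z0 z1 0 1 * x0,
        P0 t0 t1 z0 z1 0 1 * x1 + P1 t0 t1 z0 z1 0 1 * x0,
        (x0 * y1 + x1 * y0) * z0, -(x0 * y0) * z0 + (x1 * y1 - x0 * y0) * z1,
        cb0 x0 x1 y0 y1 t0 t1, cb1 x0 x1 y0 y1 t0 t1]
      (by
        intro c0 c1 hc
        by_contra hcon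
        have hcc : c0 ≠ 0 ∨ c1 ≠ 0 := by
          by_contra h; push Not at h; exact hcon h
        have k0 := hc 0
        have k1 := hc 1
        have k2 := hc 2
        have k3 := hc 3
        have k4 := hc 4
        have k5 := hc 5
        have k6 := hc 6
        have k7 := hc 7
        simp only [Matrix.cons_val] at k0 k1 k2 k3 k4 k5 k6 k7
        simp only [P0, P1, P2] at k0 k1 k2 k3
        refine core1 (s0 := c0) (s1 := c1) nx ny nt nz hcc ?_ ?_ ?_ ?_ ?_ ?_ k6 k7 hA0 hA1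
        · simp only [P0, P1, P2]; linear_combination k0
        · simp only [P0, P1, P2]; linear_combination k1
        · simp only [P0, P1, P2]; linear_combination k2
        · simp only [P0, P1, P2]; linear_combination k3
        · linear_combination k4
        · linear_combination k5) (-s1) s0
    simp only [Fin.sum_univ_eight, Matrix.cons_val] at e0 e1
    obtain ⟨a, ha, ha0⟩ := lineA x0 x1 y0 y1 t0 t1 z0 z1 η hA0
    obtain ⟨c, hc, hc0⟩ := lineB x0 x1 y0 y1 t0 t1 z0 z1 η hA1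
    rw [e0] at ha0
    rw [e1] at hc0
    have key := arc (fun v => ![![Polynomial.C x0 + Polynomial.C (η 0) * Polynomial.X,
      Polynomial.C x1 + Polynomial.C (η 1) * Polynomial.X],
      ![Polynomial.C y0 + Polynomial.C (η 2) * Polynomial.X,
      Polynomial.C y1 + Polynomial.C (η 3) * Polynomial.X],
      ![Polynomial.C t0 + Polynomial.C (η 4) * Polynomial.X,
      Polynomial.C t1 + Polynomial.C (η 5) * Polynomial.X],
      ![Polynomial.C z0 + Polynomial.C (η 6) * Polynomial.X,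
      Polynomial.C z1 + Polynomial.C (η 7) * Polynomial.X],
      ![c, -a],
      ![Polynomial.C (-μ) * (-a * ((Polynomial.C x0 + Polynomial.C (η 0) * Polynomial.X) -
        Polynomial.C b' * (Polynomial.C x1 + Polynomial.C (η 1) * Polynomial.X))),
        Polynomial.C (-μ) * (c * ((Polynomial.C x0 + Polynomial.C (η 0) * Polynomial.X) -
        Polynomial.C b * (Polynomial.C x1 + Polynomial.C (η 1) * Polynomial.X)))]] v.1 v.2) P
      Polynomial.X Polynomial.X_ne_zero ?_ 0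
    · rw [← key]
      congr 2
      symm
      apply hpv
      · simp
      · simp
      · simp
      · simp
      · simp
      · simp
      · simp
      · simp
      · simpa using hc0
      · simp [ha0]
      · simp only [Matrix.cons_val, Polynomial.eval_mul, Polynomial.eval_neg, ha0,
          Polynomial.eval_sub, Polynomial.eval_add, Polynomial.eval_C, Polynomial.eval_X]
        rw [hμ0]; ring
      · simp only [Matrix.cons_val, Polynomial.eval_mul, Polynomial.eval_neg, hc0,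
          Polynomial.eval_sub, Polynomial.eval_add, Polynomial.eval_C, Polynomial.eval_X]
        rw [hμ1]; ring
    · intro ξ hξ
      rw [Polynomial.eval_X] at hξ
      rw [← hP (fun v => ![![x0 + η 0 * ξ, x1 + η 1 * ξ], ![y0 + η 2 * ξ, y1 + η 3 * ξ],
        ![t0 + η 4 * ξ, t1 + η 5 * ξ], ![z0 + η 6 * ξ, z1 + η 7 * ξ], ![1 / ξ, 0],
        ![-μ, 0]] v.1 v.2)]
      have ha' := congrArg (Polynomial.eval ξ) ha
      have hc' := congrArg (Polynomial.eval ξ) hc
      simp only [fA, ca0, ca1, fB, cb0, cb1, Polynomial.eval_mul, Polynomial.eval_neg,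
        Polynomial.eval_sub, Polynomial.eval_add, Polynomial.eval_C, Polynomial.eval_X] at ha' hc'
      congr 2
      funext v
      obtain ⟨i, j⟩ := v
      fin_cases i <;> fin_cases j
      · simp [par]
      · simp [par]
      · simp [par]
      · simp [par]
      · simp [par]
      · simp [par]
      · simp [par]
      · simp [par]
      · simp [par, fB, cb0, cb1]
        rw [hc']
        field_simp
      · simp [par, fA, ca0, ca1]
        rw [ha']
        field_simp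
      · simp [par, fA, ca0, ca1]
        rw [ha']
        field_simp
        simp
      · simp [par, fB, cb0, cb1]
        rw [hc']
        field_simp
        simp
  · have hA' : fA x0 x1 y0 y1 t0 t1 z0 z1 ≠ 0 ∨ fB x0 x1 y0 y1 t0 t1 z0 z1 ≠ 0 := by
      by_contra h; push Not at h; exact hA h
    obtain ⟨l, l0, l1⟩ := kv (a0 := s0) (a1 := s1) hA' h0
    rw [← hP (fun v => ![![x0, x1], ![y0, y1], ![t0, t1], ![z0, z1], ![l, 0], ![-μ, 0]] v.1 v.2)]
    congr 2
    symm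
    apply hpv
    · simp [par]
    · simp [par]
    · simp [par]
    · simp [par]
    · simp [par]
    · simp [par]
    · simp [par]
    · simp [par]
    · simp [par, l0]
    · simp [par, l1]
    · simp only [par, Matrix.cons_val, Algebra.algebraMap_self, RingHom.id_apply]
      rw [hμ0, l1]; ring
    · simp only [par, Matrix.cons_val, Algebra.algebraMap_self, RingHom.id_apply]
      rw [hμ1, l0]; ring

end Pool.Agent.Y198.Bat
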