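import Mathlib
import Pool.Agent.Y198.Bat.Cone1

set_option autoImplicit false

namespace Pool.Agent.Y198.Bat

open MvPolynomial

theorem stage2 {b b' : ℂ} {P : MvPolynomial (Fin 6 × Fin 2) ℂ}
    (hP : ∀ x, eval (par b b' x) P = 0) (f : Fin 6 × Fin 2 → Polynomial ℂ)
    (hne : ∀ i, (f (i, 0)).eval 0 ≠ 0 ∨ (f (i, 1)).eval 0 ≠ 0)
    (h0 : phi (f (0, 0)) (f (0, 1)) (f (1, 0)) (f (1, 1)) (f (2, 0)) (f (2, 1)) (f (3, 0))
      (f (3, 1)) (f (4, 0)) (f (4, 1)) = 0)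
    (h1 : psi b b' (f (0, 0)) (f (0, 1)) (f (4, 0)) (f (4, 1)) (f (5, 0)) (f (5, 1)) = 0)
    (hE : f (4, 1) * (f (0, 0) - Polynomial.C b' * f (0, 1)) ≠ 0 ∨
      f (4, 0) * (f (0, 0) - Polynomial.C b * f (0, 1)) ≠ 0) :
    eval (fun v => (f v).eval 0) P = 0 := by
  have hj : ∀ i, ∃ j, (f (i, j)).eval 0 ≠ 0 := by
    intro i
    rcases hne i with h | h
    · exact ⟨0, h⟩
    · exact ⟨1, h⟩
  choose j hj using hj
  have hprod : (∏ i, f (i, j i)) ≠ 0 := by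
    rw [Finset.prod_ne_zero_iff]
    intro i _ h
    apply hj i
    rw [h, Polynomial.eval_zero]
  have main : ∀ E : Polynomial ℂ, E ≠ 0 → (∀ ξ, E.eval ξ ≠ 0 →
      ((f (4, 1)).eval ξ * ((f (0, 0)).eval ξ - b' * (f (0, 1)).eval ξ) ≠ 0 ∨
      (f (4, 0)).eval ξ * ((f (0, 0)).eval ξ - b * (f (0, 1)).eval ξ) ≠ 0)) →
      eval (fun v => (f v).eval 0) P = 0 := by
    intro E hE0 hE1
    refine arc f P ((∏ i, f (i, j i)) * E) (mul_ne_zero hprod hE0) ?_ 0
    intro ξ hξ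
    rw [Polynomial.eval_mul, Polynomial.eval_prod] at hξ
    have hξ1 := left_ne_zero_of_mul hξ
    have hξ2 := right_ne_zero_of_mul hξ
    rw [Finset.prod_ne_zero_iff] at hξ1
    refine stage1 hP _ ?_ ?_ ?_ (hE1 ξ hξ2)
    · intro i
      have := hξ1 i (Finset.mem_univ i)
      generalize j i = l at this
      fin_cases l
      · left; exact this
      · right; exact this
    · have := congrArg (Polynomial.eval ξ) h0
      simpa [phi, fA, fB, ca0, ca1, cb0, cb1] using this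
    · have := congrArg (Polynomial.eval ξ) h1
      simpa [psi] using this
  rcases hE with h | h
  · exact main _ h fun ξ hξ => Or.inl (by simpa using hξ)
  · exact main _ h fun ξ hξ => Or.inr (by simpa using hξ)

theorem X_add_C_ne (a : ℂ) : (Polynomial.C a + Polynomial.X : Polynomial ℂ) ≠ 0 := by
  rw [add_comm]
  exact Polynomial.X_add_C_ne_zero a

theorem base_curve {b b' x0 x1 s0 s1 w0 w1 : ℂ} (hbb : b ≠ b') (hx : x0 ≠ 0 ∨ x1 ≠ 0)
    (hs : s0 ≠ 0 ∨ s1 ≠ 0) (hw : w0 ≠ 0 ∨ w1 ≠ 0)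
    (h1 : w0 * s0 * (x0 - b * x1) - w1 * s1 * (x0 - b' * x1) = 0) :
    ∃ x0' x1' s0' s1' : Polynomial ℂ, x0'.eval 0 = x0 ∧ x1'.eval 0 = x1 ∧ s0'.eval 0 = s0 ∧
      s1'.eval 0 = s1 ∧ psi b b' x0' x1' s0' s1' (Polynomial.C w0) (Polynomial.C w1) = 0 ∧
      (s1' * (x0' - Polynomial.C b' * x1') ≠ 0 ∨ s0' * (x0' - Polynomial.C b * x1') ≠ 0) := by
  have hββ : x0 - b * x1 ≠ 0 ∨ x0 - b' * x1 ≠ 0 := by
    by_contra hcon
    push Not at hcon
    obtain ⟨h1, h2⟩ := hcon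
    have h3 : x1 = 0 := by
      apply (mul_eq_zero.1 (?_ : (b - b') * x1 = 0)).resolve_left (sub_ne_zero.2 hbb)
      linear_combination h2 - h1
    have h4 : x0 = 0 := by rw [h3] at h1; linear_combination h1
    rcases hx with h | h
    · exact h h4
    · exact h h3
  by_cases hc : w0 * (x0 - b * x1) = 0 ∧ -(w1 * (x0 - b' * x1)) = 0
  · obtain ⟨hc0, hc1⟩ := hc
    have hc1' : w1 * (x0 - b' * x1) = 0 := neg_eq_zero.1 hc1
    refine ⟨Polynomial.C x0, Polynomial.C x1, Polynomial.C s0 + Polynomial.X,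
      Polynomial.C s1 + Polynomial.X, by simp, by simp, by simp, by simp, ?_, ?_⟩
    · have e0 := congrArg Polynomial.C hc0
      have e1 := congrArg Polynomial.C hc1'
      simp only [Polynomial.C_mul, Polynomial.C_sub, Polynomial.C_0] at e0 e1
      simp only [psi, Polynomial.algebraMap_eq]
      linear_combination (Polynomial.C s0 + Polynomial.X) * e0 -
        (Polynomial.C s1 + Polynomial.X) * e1
    · have hC : ∀ a : ℂ, Polynomial.C x0 - Polynomial.C a * Polynomial.C x1 =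
          Polynomial.C (x0 - a * x1) := by
        intro a; rw [Polynomial.C_sub, Polynomial.C_mul]
      rw [hC, hC]
      rcases hββ with h | h
      · right
        exact mul_ne_zero (X_add_C_ne _) (Polynomial.C_ne_zero.2 h)
      · left
        exact mul_ne_zero (X_add_C_ne _) (Polynomial.C_ne_zero.2 h)
  · have hc' : w0 * (x0 - b * x1) ≠ 0 ∨ -(w1 * (x0 - b' * x1)) ≠ 0 := by
      by_contra h; push Not at h; exact hc h
    obtain ⟨κ, k0, k1⟩ := kv (a0 := s0) (a1 := s1) hc' (by linear_combination h1)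
    have hκ : κ ≠ 0 := by
      intro h
      rw [h] at k0 k1
      rcases hs with h' | h'
      · exact h' (by rw [k0]; ring)
      · exact h' (by rw [k1]; ring)
    have hβ : ∀ a : ℂ, (Polynomial.C x0 + Polynomial.X) - Polynomial.C a * Polynomial.C x1 ≠ 0 := by
      intro a
      have : (Polynomial.C x0 + Polynomial.X) - Polynomial.C a * Polynomial.C x1 =
          Polynomial.C (x0 - a * x1) + Polynomial.X := by
        rw [Polynomial.C_sub, Polynomial.C_mul]; ring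
      rw [this]
      exact X_add_C_ne _
    have hκ' : (Polynomial.C κ : Polynomial ℂ) ≠ 0 := Polynomial.C_ne_zero.2 hκ
    refine ⟨Polynomial.C x0 + Polynomial.X, Polynomial.C x1,
      Polynomial.C κ * (-(Polynomial.C w1 * ((Polynomial.C x0 + Polynomial.X) -
        Polynomial.C b' * Polynomial.C x1))),
      -(Polynomial.C κ * (Polynomial.C w0 * ((Polynomial.C x0 + Polynomial.X) -
        Polynomial.C b * Polynomial.C x1))), by simp, by simp, ?_, ?_, ?_, ?_⟩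
    · rw [k0]; simp
    · rw [k1]; simp
    · simp only [psi, Polynomial.algebraMap_eq]; ring
    · rcases hw with h | h
      · left
        exact mul_ne_zero (neg_ne_zero.2 (mul_ne_zero hκ' (mul_ne_zero (Polynomial.C_ne_zero.2 h)
          (hβ b)))) (hβ b')
      · right
        exact mul_ne_zero (mul_ne_zero hκ' (neg_ne_zero.2 (mul_ne_zero (Polynomial.C_ne_zero.2 h)
          (hβ b')))) (hβ b)

theorem phi_y {A : Type} [CommRing A] (x0 x1 y0 y1 t0 t1 z0 z1 s0 s1 : A) :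
    phi x0 x1 y0 y1 t0 t1 z0 z1 s0 s1 =
      y0 * (P1 t0 t1 z0 z1 s0 s1 * x1 + P2 t0 t1 z0 z1 s0 s1 * x0) +
      y1 * (P0 t0 t1 z0 z1 s0 s1 * x1 + P1 t0 t1 z0 z1 s0 s1 * x0) := by
  simp only [phi, fA, fB, ca0, ca1, cb0, cb1, P0, P1, P2]; ring

theorem phi_t {A : Type} [CommRing A] (x0 x1 y0 y1 t0 t1 z0 z1 s0 s1 : A) :
    phi x0 x1 y0 y1 t0 t1 z0 z1 s0 s1 =
      t0 * (s0 * ((x1 * y1) * z0 + (x1 * y1 + x0 * y0) * z1) + s1 * (x0 * y1 + x1 * y0) * z0) +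
      t1 * (s0 * (x0 * y1 + x1 * y0) * z0 +
        s1 * (-(x0 * y0) * z0 + (x1 * y1 - x0 * y0) * z1)) := by
  simp only [phi, fA, fB, ca0, ca1, cb0, cb1]; ring

theorem phi_z {A : Type} [CommRing A] (x0 x1 y0 y1 t0 t1 z0 z1 s0 s1 : A) :
    phi x0 x1 y0 y1 t0 t1 z0 z1 s0 s1 =
      z0 * (s0 * ca0 x0 x1 y0 y1 t0 t1 + s1 * cb0 x0 x1 y0 y1 t0 t1) +
      z1 * (s0 * ca1 x0 x1 y0 y1 t0 t1 + s1 * cb1 x0 x1 y0 y1 t0 t1) := by
  simp only [phi, fA, fB]; ring

theorem stage3 {b b' : ℂ} (hbb : b ≠ b') (hb : b ^ 2 ≠ 1) (hb' : b' ^ 2 ≠ -1)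
    {P : MvPolynomial (Fin 6 × Fin 2) ℂ}
    (hP : ∀ x, eval (par b b' x) P = 0) (p : Fin 6 × Fin 2 → ℂ)
    (hne : ∀ i, p (i, 0) ≠ 0 ∨ p (i, 1) ≠ 0)
    (h0 : phi (p (0, 0)) (p (0, 1)) (p (1, 0)) (p (1, 1)) (p (2, 0)) (p (2, 1)) (p (3, 0))
      (p (3, 1)) (p (4, 0)) (p (4, 1)) = 0)
    (h1 : psi b b' (p (0, 0)) (p (0, 1)) (p (4, 0)) (p (4, 1)) (p (5, 0)) (p (5, 1)) = 0) :
    eval p P = 0 := by
  by_cases hg : p (4, 1) * (p (0, 0) - b' * p (0, 1)) ≠ 0 ∨ p (4, 0) * (p (0, 0) - b * p (0, 1)) ≠ 0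
  · exact stage1 hP p hne h0 h1 hg
  push Not at hg
  obtain ⟨g1, g0⟩ := hg
  simp only [psi, Algebra.algebraMap_self, RingHom.id_apply] at h1
  obtain ⟨x0', x1', s0', s1', ex0, ex1, es0, es1, hpsi, hE⟩ := base_curve hbb (hne 0) (hne 4)
    (hne 5) h1
  -- a general statement
  have gen : ∀ y0' y1' t0' t1' z0' z1' : Polynomial ℂ, y0'.eval 0 = p (1, 0) →
      y1'.eval 0 = p (1, 1) → t0'.eval 0 = p (2, 0) → t1'.eval 0 = p (2, 1) →
      z0'.eval 0 = p (3, 0) → z1'.eval 0 = p (3, 1) →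
      phi x0' x1' y0' y1' t0' t1' z0' z1' s0' s1' = 0 → eval p P = 0 := by
    intro y0' y1' t0' t1' z0' z1' e1 e2 e3 e4 e5 e6 hphi
    have key := stage2 hP (fun v => ![![x0', x1'], ![y0', y1'], ![t0', t1'], ![z0', z1'],
      ![s0', s1'], ![Polynomial.C (p (5, 0)), Polynomial.C (p (5, 1))]] v.1 v.2)
    have hev : (fun v : Fin 6 × Fin 2 => Polynomial.eval 0 (![![x0', x1'], ![y0', y1'], ![t0', t1'],
      ![z0', z1'], ![s0', s1'], ![Polynomial.C (p (5, 0)), Polynomial.C (p (5, 1))]] v.1 v.2)) =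
      p := by
      funext v
      obtain ⟨i, j⟩ := v
      fin_cases i <;> fin_cases j
      · exact ex0
      · exact ex1
      · exact e1
      · exact e2
      · exact e3
      · exact e4
      · exact e5
      · exact e6
      · exact es0
      · exact es1
      · exact Polynomial.eval_C
      · exact Polynomial.eval_C
    rw [hev] at key
    refine key ?_ hphi hpsi hE
    intro i
    have h0 := congrFun hev (i, 0)
    have h1 := congrFun hev (i, 1)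
    simp only at h0 h1
    rw [h0, h1]
    exact hne i
  by_cases cy : P1 (p (2, 0)) (p (2, 1)) (p (3, 0)) (p (3, 1)) (p (4, 0)) (p (4, 1)) * p (0, 1) +
      P2 (p (2, 0)) (p (2, 1)) (p (3, 0)) (p (3, 1)) (p (4, 0)) (p (4, 1)) * p (0, 0) ≠ 0 ∨
      P0 (p (2, 0)) (p (2, 1)) (p (3, 0)) (p (3, 1)) (p (4, 0)) (p (4, 1)) * p (0, 1) +
      P1 (p (2, 0)) (p (2, 1)) (p (3, 0)) (p (3, 1)) (p (4, 0)) (p (4, 1)) * p (0, 0) ≠ 0
  · rw [phi_y] at h0
    obtain ⟨κ, k0, k1⟩ := kv cy h0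
    refine gen
      (Polynomial.C κ * (P0 (Polynomial.C (p (2, 0))) (Polynomial.C (p (2, 1)))
        (Polynomial.C (p (3, 0))) (Polynomial.C (p (3, 1))) s0' s1' * x1' +
        P1 (Polynomial.C (p (2, 0))) (Polynomial.C (p (2, 1)))
        (Polynomial.C (p (3, 0))) (Polynomial.C (p (3, 1))) s0' s1' * x0'))
      (-(Polynomial.C κ * (P1 (Polynomial.C (p (2, 0))) (Polynomial.C (p (2, 1)))
        (Polynomial.C (p (3, 0))) (Polynomial.C (p (3, 1))) s0' s1' * x1' +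
        P2 (Polynomial.C (p (2, 0))) (Polynomial.C (p (2, 1)))
        (Polynomial.C (p (3, 0))) (Polynomial.C (p (3, 1))) s0' s1' * x0')))
      (Polynomial.C (p (2, 0))) (Polynomial.C (p (2, 1))) (Polynomial.C (p (3, 0)))
      (Polynomial.C (p (3, 1))) ?_ ?_ Polynomial.eval_C Polynomial.eval_C Polynomial.eval_C
      Polynomial.eval_C ?_
    · rw [k0]
      simp [P0, P1, P2, ex0, ex1, es0, es1]
    · rw [k1]
      simp [P0, P1, P2, ex0, ex1, es0, es1]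
    · rw [phi_y]; ring
  by_cases ct : p (4, 0) * ((p (0, 1) * p (1, 1)) * p (3, 0) +
      (p (0, 1) * p (1, 1) + p (0, 0) * p (1, 0)) * p (3, 1)) +
      p (4, 1) * (p (0, 0) * p (1, 1) + p (0, 1) * p (1, 0)) * p (3, 0) ≠ 0 ∨
      p (4, 0) * (p (0, 0) * p (1, 1) + p (0, 1) * p (1, 0)) * p (3, 0) +
      p (4, 1) * (-(p (0, 0) * p (1, 0)) * p (3, 0) +
        (p (0, 1) * p (1, 1) - p (0, 0) * p (1, 0)) * p (3, 1)) ≠ 0
  · rw [phi_t] at h0
    obtain ⟨κ, k0, k1⟩ := kv ct h0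
    refine gen (Polynomial.C (p (1, 0))) (Polynomial.C (p (1, 1)))
      (Polynomial.C κ * (s0' * (x0' * Polynomial.C (p (1, 1)) + x1' * Polynomial.C (p (1, 0))) *
        Polynomial.C (p (3, 0)) + s1' * (-(x0' * Polynomial.C (p (1, 0))) * Polynomial.C (p (3, 0)) +
        (x1' * Polynomial.C (p (1, 1)) - x0' * Polynomial.C (p (1, 0))) * Polynomial.C (p (3, 1)))))
      (-(Polynomial.C κ * (s0' * ((x1' * Polynomial.C (p (1, 1))) * Polynomial.C (p (3, 0)) +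
        (x1' * Polynomial.C (p (1, 1)) + x0' * Polynomial.C (p (1, 0))) * Polynomial.C (p (3, 1))) +
        s1' * (x0' * Polynomial.C (p (1, 1)) + x1' * Polynomial.C (p (1, 0))) *
        Polynomial.C (p (3, 0)))))
      (Polynomial.C (p (3, 0)))
      (Polynomial.C (p (3, 1))) Polynomial.eval_C Polynomial.eval_C ?_ ?_ Polynomial.eval_C
      Polynomial.eval_C ?_
    · rw [k0]
      simp [ex0, ex1, es0, es1]
    · rw [k1]
      simp [ex0, ex1, es0, es1]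
    · rw [phi_t]; ring
  by_cases cz : p (4, 0) * ca0 (p (0, 0)) (p (0, 1)) (p (1, 0)) (p (1, 1)) (p (2, 0)) (p (2, 1)) +
      p (4, 1) * cb0 (p (0, 0)) (p (0, 1)) (p (1, 0)) (p (1, 1)) (p (2, 0)) (p (2, 1)) ≠ 0 ∨
      p (4, 0) * ca1 (p (0, 0)) (p (0, 1)) (p (1, 0)) (p (1, 1)) (p (2, 0)) (p (2, 1)) +
      p (4, 1) * cb1 (p (0, 0)) (p (0, 1)) (p (1, 0)) (p (1, 1)) (p (2, 0)) (p (2, 1)) ≠ 0
  · rw [phi_z] at h0
    obtain ⟨κ, k0, k1⟩ := kv cz h0
    refine gen (Polynomial.C (p (1, 0))) (Polynomial.C (p (1, 1))) (Polynomial.C (p (2, 0)))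
      (Polynomial.C (p (2, 1)))
      (Polynomial.C κ * (s0' * ca1 x0' x1' (Polynomial.C (p (1, 0))) (Polynomial.C (p (1, 1)))
        (Polynomial.C (p (2, 0))) (Polynomial.C (p (2, 1))) +
        s1' * cb1 x0' x1' (Polynomial.C (p (1, 0))) (Polynomial.C (p (1, 1)))
        (Polynomial.C (p (2, 0))) (Polynomial.C (p (2, 1)))))
      (-(Polynomial.C κ * (s0' * ca0 x0' x1' (Polynomial.C (p (1, 0))) (Polynomial.C (p (1, 1)))
        (Polynomial.C (p (2, 0))) (Polynomial.C (p (2, 1))) +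
        s1' * cb0 x0' x1' (Polynomial.C (p (1, 0))) (Polynomial.C (p (1, 1)))
        (Polynomial.C (p (2, 0))) (Polynomial.C (p (2, 1))))))
      Polynomial.eval_C Polynomial.eval_C Polynomial.eval_C Polynomial.eval_C ?_ ?_ ?_
    · rw [k0]
      simp [ca1, cb1, ex0, ex1, es0, es1]
    · rw [k1]
      simp [ca0, cb0, ex0, ex1, es0, es1]
    · rw [phi_z]; ring
  push Not at cy ct cz
  exfalso
  exact core2 hbb hb hb' (hne 0) (hne 1) (hne 2) (hne 3) (hne 4) g0 g1 cy.1 cy.2 ct.1 ct.2 cz.1 cz.2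

theorem par_mem {b b' : ℂ} (x : Fin 6 × Fin 2 → ℂ) (h : x (0, 0) * x (1, 0) * x (2, 0) * x (3, 1) *
    x (4, 0) * x (5, 0) * fA (x (0, 0)) (x (0, 1)) (x (1, 0)) (x (1, 1)) (x (2, 0)) (x (2, 1))
      (x (3, 0)) (x (3, 1)) * (x (0, 0) - b' * x (0, 1)) ≠ 0) : par b b' x ∈ cone (FX b b') := by
  simp only [mul_ne_zero_iff] at h
  obtain ⟨⟨⟨⟨⟨⟨⟨n0, n1⟩, n2⟩, n3⟩, n4⟩, n5⟩, n6⟩, n7⟩ := h
  refine ⟨fun i => ?_, fun j => ?_⟩
  · fin_cases i
    · left; exact n0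
    · left; exact n1
    · left; exact n2
    · right; exact n3
    · right
      exact neg_ne_zero.2 (mul_ne_zero n4 n6)
    · left
      exact mul_ne_zero n5 (mul_ne_zero (neg_ne_zero.2 (mul_ne_zero n4 n6)) n7)
  · fin_cases j
    · change eval _ (FX b b' 0) = 0
      rw [eval_FX0]
      simp only [par, Matrix.cons_val, phi]
      ring
    · change eval _ (FX b b' 1) = 0
      rw [eval_FX1]
      simp only [par, Matrix.cons_val, psi]
      ring

theorem irreducible_X {b b' : ℂ} (hbb : b ≠ b') (hb : b ^ 2 ≠ 1) (hb' : b' ^ 2 ≠ -1) :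
    @IsIrreducible _ (zariski (Fin 6 × Fin 2)) (cone (FX b b')) := by
  obtain ⟨H, hH⟩ : ∃ H : MvPolynomial (Fin 6 × Fin 2) ℂ, H = X (0, 0) * X (1, 0) * X (2, 0) *
    X (3, 1) * X (4, 0) * X (5, 0) * fA (X (0, 0)) (X (0, 1)) (X (1, 0)) (X (1, 1)) (X (2, 0))
      (X (2, 1)) (X (3, 0)) (X (3, 1)) * (X (0, 0) - C b' * X (0, 1)) := ⟨_, rfl⟩
  have evH : ∀ x, eval x H = x (0, 0) * x (1, 0) * x (2, 0) * x (3, 1) *
    x (4, 0) * x (5, 0) * fA (x (0, 0)) (x (0, 1)) (x (1, 0)) (x (1, 1)) (x (2, 0)) (x (2, 1))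
      (x (3, 0)) (x (3, 1)) * (x (0, 0) - b' * x (0, 1)) := by
    intro x
    rw [hH]
    simp [fA, ca0, ca1]
  have hv : eval (fun v : Fin 6 × Fin 2 => ![![(1 : ℂ), 0], ![1, 0], ![1, 0], ![0, 1], ![1, 0],
      ![1, 0]] v.1 v.2) H = 1 := by
    rw [evH]
    simp [fA, ca0, ca1]
  have hH0 : H ≠ 0 := by
    intro h
    rw [h] at hv
    simp at hv
  obtain ⟨v0, hv0⟩ : ∃ v0, eval v0 H ≠ 0 := ⟨_, by rw [hv]; exact one_ne_zero⟩
  refine irr_of ⟨_, par_mem (b := b) (b' := b') v0 (by rw [← evH]; exact hv0)⟩ ?_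
  intro P Q hPQ
  have hprod : H * (aeval (par b b' (X : Fin 6 × Fin 2 → MvPolynomial (Fin 6 × Fin 2) ℂ)) P *
      aeval (par b b' (X : Fin 6 × Fin 2 → MvPolynomial (Fin 6 × Fin 2) ℂ)) Q) = 0 := by
    apply MvPolynomial.funext
    intro x
    rw [map_mul, map_mul, map_zero, eval_par, eval_par]
    by_cases hx : eval x H = 0
    · rw [hx, zero_mul]
    · rw [evH] at hx
      rcases hPQ _ (par_mem x hx) with h | h
      · rw [h]; ring
      · rw [h]; ring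
  have hfin : ∀ R : MvPolynomial (Fin 6 × Fin 2) ℂ,
      aeval (par b b' (X : Fin 6 × Fin 2 → MvPolynomial (Fin 6 × Fin 2) ℂ)) R = 0 →
      ∀ x ∈ cone (FX b b'), eval x R = 0 := by
    intro R hR x hx
    have h0 := hx.2 0
    have h1 := hx.2 1
    rw [eval_FX0] at h0
    rw [eval_FX1] at h1
    exact stage3 hbb hb hb' (fun y => by rw [← eval_par, hR, map_zero]) x hx.1 h0 h1
  rcases mul_eq_zero.1 ((mul_eq_zero.1 hprod).resolve_left hH0) with h | h
  · left; exact hfin P h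
  · right; exact hfin Q h

end Pool.Agent.Y198.Bat
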