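import Mathlib
import Pool.Agent.Y198.Bat.Curve

set_option autoImplicit false

namespace Pool.Agent.Y198.Bat

open Polynomial

theorem pr_prop {p q p' q' : ℂ[X]} (h : IsCoprime p q) (h' : IsCoprime p' q')
    (he : p * q' = q * p') : ∃ c : ℂ, c ≠ 0 ∧ p' = C c * p ∧ q' = C c * q := by
  obtain ⟨u, v, huv⟩ := h
  have e1 : p' = (u * p' + v * q') * p := by linear_combination (-p') * huv - v * he
  have e2 : q' = (u * p' + v * q') * q := by linear_combination (-q') * huv + u * he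
  have hu : IsUnit (u * p' + v * q') := h'.isUnit_of_dvd' ⟨p, e1⟩ ⟨q, e2⟩
  obtain ⟨c, hc, hc'⟩ := Polynomial.isUnit_iff.1 hu
  exact ⟨c, hc.ne_zero, by rw [hc']; exact e1, by rw [hc']; exact e2⟩

theorem pr_X_one : Pr (X : ℂ[X]) 1 1 := by
  refine ⟨natDegree_X_le, by simp, fun a b hab => ?_⟩
  have h1 : hc 1 (1 : ℂ[X]) a b = b := by
    have := hc_C 1 1 a b
    simpa using this
  rw [hc_X, h1]
  exact hab

/-- degrees of the curves -/
def dg (k : ℕ) : ℕ := k * (k - 1)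

theorem dg_rec (k : ℕ) : dg (k + 1 + 1) + dg k = 2 * dg (k + 1) + 2 := by
  cases k with
  | zero => simp [dg]
  | succ k => simp only [dg, Nat.add_sub_cancel]; ring

/-- curves of level `k` on the surface `F = 0` -/
structure Sol (k : ℕ) (r : Fin 4 → ℂ[X]) : Prop where
  hx : Pr (r 0) (r 1) (dg k)
  hy : Pr (r 2) (r 3) (dg (k + 1))
  hF : FF (r 0) (r 1) (r 2) (r 3) X 1 = 0

def Eqv (s r : Fin 4 → ℂ[X]) : Prop := s 0 * r 1 = s 1 * r 0 ∧ s 2 * r 3 = s 3 * r 2

def Rel (r : Fin 4 → ℂ[X]) (x0 x1 : ℂ[X]) : Prop :=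
  F2 (r 2) (r 3) X 1 = r 1 * x1 ∧ F0 (r 2) (r 3) X 1 = r 0 * x0 ∧
    F1 (r 2) (r 3) X 1 = -(r 1 * x0 + r 0 * x1)

theorem Sol.next {k : ℕ} {r : Fin 4 → ℂ[X]} (h : Sol k r) :
    ∃ x0 x1 : ℂ[X], Sol (k + 1) ![r 2, r 3, x0, x1] ∧ Rel r x0 x1 := by
  obtain ⟨x0, x1, hp, e2, e0, e1⟩ := step h.hx h.hy pr_X_one h.hF
  refine ⟨x0, x1, ⟨h.hy, ?_, ?_⟩, e2, e0, e1⟩
  · have e : 2 * dg (k + 1) + 2 - dg k = dg (k + 1 + 1) := by
      have := dg_rec k
      omega
    rw [e] at hp
    exact hp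
  · simp only [Matrix.cons_val]
    rw [FF_comm]
    exact FF_root e2 e0 e1

theorem Sol.prev {k : ℕ} {s : Fin 4 → ℂ[X]} (h : Sol (k + 1) s) :
    ∃ y0 y1 : ℂ[X], Sol k ![y0, y1, s 0, s 1] ∧ F2 (s 0) (s 1) X 1 = s 3 * y1 ∧
      F0 (s 0) (s 1) X 1 = s 2 * y0 ∧ F1 (s 0) (s 1) X 1 = -(s 3 * y0 + s 2 * y1) := by
  have hF := h.hF
  rw [FF_comm] at hF
  obtain ⟨y0, y1, hp, e2, e0, e1⟩ := step h.hy h.hx pr_X_one hF
  refine ⟨y0, y1, ⟨?_, h.hx, ?_⟩, e2, e0, e1⟩
  · have e : 2 * dg (k + 1) + 2 - dg (k + 1 + 1) = dg k := by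
      have := dg_rec k
      omega
    rw [e] at hp
    exact hp
  · simp only [Matrix.cons_val]
    exact FF_root e2 e0 e1

theorem uniq_root {A : Type} [CommRing A] [IsDomain A] {x0 x1 a0 a1 b0 b1 : A}
    (hx : x0 ≠ 0 ∨ x1 ≠ 0)
    (e2 : x1 * a1 = x1 * b1) (e0 : x0 * a0 = x0 * b0)
    (e1 : x1 * a0 + x0 * a1 = x1 * b0 + x0 * b1) : a0 = b0 ∧ a1 = b1 := by
  by_cases h1 : x1 = 0
  · have h0 : x0 ≠ 0 := by tauto
    subst h1
    exact ⟨mul_left_cancel₀ h0 e0, mul_left_cancel₀ h0 (by linear_combination e1)⟩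
  · have ha : a1 = b1 := mul_left_cancel₀ h1 e2
    exact ⟨mul_left_cancel₀ h1 (by rw [ha] at e1; linear_combination e1), ha⟩

theorem F_smul {A : Type} [CommRing A] (c y0 y1 t0 t1 : A) :
    F2 (c * y0) (c * y1) t0 t1 = c ^ 2 * F2 y0 y1 t0 t1 ∧
    F1 (c * y0) (c * y1) t0 t1 = c ^ 2 * F1 y0 y1 t0 t1 ∧
    F0 (c * y0) (c * y1) t0 t1 = c ^ 2 * F0 y0 y1 t0 t1 := by
  simp only [F2, F1, F0]
  refine ⟨by ring, by ring, by ring⟩

/-- level zero -/
theorem classify_zero : ∃ R : Set (Fin 4 → ℂ[X]), R.Finite ∧ (∀ r ∈ R, Sol 0 r) ∧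
    ∀ s, Sol 0 s → ∃ r ∈ R, Eqv s r := by
  classical
  refine ⟨{r | r = ![0, 1, 1, 0]} ∪ {r | r = ![1, 0, 0, 1]} ∪
    (fun ζ : ℂ => ![C ζ, 1, C (-ζ), 1]) '' {ζ | ζ ^ 4 = -1}, ?_, ?_, ?_⟩
  · refine Set.Finite.union (Set.Finite.union (Set.finite_singleton _) (Set.finite_singleton _)) ?_
    refine Set.Finite.image _ ?_
    refine Set.Finite.subset (Finset.finite_toSet ((X ^ 4 + 1 : ℂ[X]).roots.toFinset)) ?_
    intro ζ hζ
    have hne : (X ^ 4 + 1 : ℂ[X]) ≠ 0 := (monic_X_pow_add_C (1 : ℂ) (by norm_num)).ne_zero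
    have hz : ζ ^ 4 = -1 := hζ
    simp [hne, hz]
  · have pC : ∀ a b : ℂ, (a ≠ 0 ∨ b ≠ 0) → Pr (C a) (C b) 0 := by
      intro a b hab
      refine ⟨by simp, by simp, fun u v _ => ?_⟩
      simpa [hc_C] using hab
    rintro r ((rfl | rfl) | ⟨ζ, hζ, rfl⟩)
    · refine ⟨by simpa [dg] using pC 0 1 (by simp), by simpa [dg] using pC 1 0 (by simp), ?_⟩
      simp [FF, F2, F1, F0]
    · refine ⟨by simpa [dg] using pC 1 0 (by simp), by simpa [dg] using pC 0 1 (by simp), ?_⟩
      simp [FF, F2, F1, F0]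
    · have hz : ζ ^ 4 = -1 := hζ
      refine ⟨by simpa [dg] using pC ζ 1 (by simp), by simpa [dg] using pC (-ζ) 1 (by simp), ?_⟩
      have hC : (C ζ : ℂ[X]) ^ 4 = -1 := by
        rw [← C_pow, hz]; simp
      simp only [Matrix.cons_val, FF, F2, F1, F0, C_neg]
      linear_combination X * hC
  · intro s hs
    obtain ⟨p, hp⟩ := natDegree_eq_zero.1 (Nat.le_zero.1 (by simpa [dg] using hs.hx.dp) :
      (s 0).natDegree = 0)
    obtain ⟨q, hq⟩ := natDegree_eq_zero.1 (Nat.le_zero.1 (by simpa [dg] using hs.hx.dq) :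
      (s 1).natDegree = 0)
    obtain ⟨u, hu⟩ := natDegree_eq_zero.1 (Nat.le_zero.1 (by simpa [dg] using hs.hy.dp) :
      (s 2).natDegree = 0)
    obtain ⟨v, hv⟩ := natDegree_eq_zero.1 (Nat.le_zero.1 (by simpa [dg] using hs.hy.dq) :
      (s 3).natDegree = 0)
    have h1 : p ≠ 0 ∨ q ≠ 0 := by
      have := pr_ne_zero hs.hx
      rw [← hp, ← hq] at this
      simpa using this
    have h2 : u ≠ 0 ∨ v ≠ 0 := by
      have := pr_ne_zero hs.hy
      rw [← hu, ← hv] at this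
      simpa using this
    have hF : ∀ w : ℂ, FF p q u v w 1 = 0 := by
      intro w
      have := congrArg (eval w) hs.hF
      rw [← hp, ← hq, ← hu, ← hv] at this
      simpa [FF, F2, F1, F0] using this
    have k0 := hF 0
    have k1 := hF 1
    have k2 := hF (-1)
    simp only [FF, F2, F1, F0] at k0 k1 k2
    have c1 : (p * v + q * u) * (p * u) = 0 := by
      linear_combination (-1/4 : ℂ) * k1 - (1/4 : ℂ) * k2
    have c2 : (p * v + q * u) * (q * v) = 0 := by
      linear_combination k0 + c1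
    have c3 : (q * v) ^ 2 + (p * u) ^ 2 = 0 := by
      linear_combination (1/2 : ℂ) * k1 - (1/2 : ℂ) * k2
    by_cases hX : p * v + q * u = 0
    · have hq0 : q ≠ 0 := by
        rintro rfl
        have hp0 : p ≠ 0 := by tauto
        have hv0 : v = 0 := by simpa [hp0] using hX
        have hu0 : u ≠ 0 := by tauto
        simp [hp0, hu0] at c3
      have hv0 : v ≠ 0 := by
        rintro rfl
        have hu0 : u ≠ 0 := by tauto
        have : q = 0 := by simpa [hu0] using hX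
        exact hq0 this
      have hz : (p / q) ^ 4 = -1 := by
        have e : u = -(p * v) / q := by
          field_simp
          linear_combination hX
        have c4 : v ^ 2 * (q ^ 4 + p ^ 4) = 0 := by
          have e' : q * u = -(p * v) := by linear_combination hX
          linear_combination q ^ 2 * c3 - p ^ 2 * (q * u - p * v) * e'
        have c5 : q ^ 4 + p ^ 4 = 0 := by
          rcases mul_eq_zero.1 c4 with h | h
          · exact absurd h (pow_ne_zero _ hv0)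
          · exact h
        field_simp
        linear_combination c5
      refine ⟨_, Or.inr ⟨p / q, hz, rfl⟩, ?_, ?_⟩
      · simp only [Matrix.cons_val]
        rw [← hp, ← hq, mul_one, ← C_mul]
        congr 1
        field_simp
      · simp only [Matrix.cons_val]
        rw [← hu, ← hv, mul_one, ← C_mul]
        congr 1
        field_simp
        linear_combination hX
    · have hpu : p * u = 0 := by
        rcases mul_eq_zero.1 c1 with h | h
        · exact absurd h hX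
        · exact h
      have hqv : q * v = 0 := by
        rcases mul_eq_zero.1 c2 with h | h
        · exact absurd h hX
        · exact h
      rcases mul_eq_zero.1 hpu with hp0 | hu0
      · have hq0 : q ≠ 0 := by tauto
        have hv0 : v = 0 := by
          rcases mul_eq_zero.1 hqv with h | h
          · exact absurd h hq0
          · exact h
        refine ⟨_, Or.inl (Or.inl rfl), ?_, ?_⟩
        · simp only [Matrix.cons_val]
          rw [← hp, hp0]; simp
        · simp only [Matrix.cons_val]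
          rw [← hv, hv0]; simp
      · have hv0 : v ≠ 0 := by tauto
        have hq0 : q = 0 := by
          rcases mul_eq_zero.1 hqv with h | h
          · exact h
          · exact absurd h hv0
        refine ⟨_, Or.inl (Or.inr rfl), ?_, ?_⟩
        · simp only [Matrix.cons_val]
          rw [← hq, hq0]; simp
        · simp only [Matrix.cons_val]
          rw [← hu, hu0]; simp

theorem classify (k : ℕ) : ∃ R : Set (Fin 4 → ℂ[X]), R.Finite ∧ (∀ r ∈ R, Sol k r) ∧
    ∀ s, Sol k s → ∃ r ∈ R, Eqv s r := by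
  induction k with
  | zero => exact classify_zero
  | succ k ih =>
    obtain ⟨R, hfin, hsol, hall⟩ := ih
    have hex : ∀ r : Fin 4 → ℂ[X], ∃ x : Fin 2 → ℂ[X], r ∈ R →
        Sol (k + 1) ![r 2, r 3, x 0, x 1] ∧ Rel r (x 0) (x 1) := by
      intro r
      by_cases hr : r ∈ R
      · obtain ⟨x0, x1, h1, h2⟩ := (hsol r hr).next
        exact ⟨![x0, x1], fun _ => ⟨h1, h2⟩⟩
      · exact ⟨0, fun h => absurd h hr⟩
    choose g hg using hex
    refine ⟨(fun r => ![r 2, r 3, g r 0, g r 1]) '' R, hfin.image _, ?_, ?_⟩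
    · rintro _ ⟨r, hr, rfl⟩
      exact (hg r hr).1
    · intro s hs
      obtain ⟨y0, y1, h1, e2, e0, e1⟩ := hs.prev
      obtain ⟨r, hr, hr1, hr2⟩ := hall _ h1
      obtain ⟨h2, g2, g0, g1⟩ := hg r hr
      simp only [Matrix.cons_val] at hr1 hr2
      obtain ⟨d, hd, hd0, hd1⟩ := pr_prop h1.hx.cop (hsol r hr).hx.cop hr1
      obtain ⟨c, hc, hc0, hc1⟩ := pr_prop h1.hy.cop (hsol r hr).hy.cop hr2
      simp only [Matrix.cons_val] at hd0 hd1 hc0 hc1
      refine ⟨_, ⟨r, hr, rfl⟩, hr2, ?_⟩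
      simp only [Matrix.cons_val]
      have hy : y0 ≠ 0 ∨ y1 ≠ 0 := pr_ne_zero h1.hx
      rw [hc0, hc1, (F_smul (C c) (s 0) (s 1) X 1).1, e2, hd1] at g2
      rw [hc0, hc1, (F_smul (C c) (s 0) (s 1) X 1).2.1, e1, hd1, hd0] at g1
      rw [hc0, hc1, (F_smul (C c) (s 0) (s 1) X 1).2.2, e0, hd0] at g0
      have key := uniq_root (x0 := y0) (x1 := y1) (a0 := C c ^ 2 * s 2) (a1 := C c ^ 2 * s 3)
        (b0 := C d * g r 0) (b1 := C d * g r 1) hy (by linear_combination g2)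
        (by linear_combination g0) (by linear_combination -g1)
      have hcc : (C c ^ 2 * C d : ℂ[X]) ≠ 0 := by simp [hc, hd]
      apply mul_left_cancel₀ hcc
      linear_combination (C d * g r 1) * key.1 - (C d * g r 0) * key.2

theorem exists_sol (k : ℕ) : ∃ r, Sol k r := by
  induction k with
  | zero =>
    obtain ⟨R, _, hsol, hall⟩ := classify_zero
    have pC : ∀ a b : ℂ, (a ≠ 0 ∨ b ≠ 0) → Pr (C a) (C b) 0 := by
      intro a b hab
      refine ⟨by simp, by simp, fun u v _ => ?_⟩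
      simpa [hc_C] using hab
    refine ⟨![0, 1, 1, 0], by simpa [dg] using pC 0 1 (by simp),
      by simpa [dg] using pC 1 0 (by simp), ?_⟩
    simp [FF, F2, F1, F0]
  | succ k ih =>
    obtain ⟨r, hr⟩ := ih
    obtain ⟨x0, x1, h, _⟩ := hr.next
    exact ⟨_, h⟩

end Pool.Agent.Y198.Bat
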