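import Mathlib
import Pool.Agent.Y198.Bat.Forms
import Pool.Agent.Y198.Bat.Classify

set_option autoImplicit false

namespace Pool.Agent.Y198.Bat

open Polynomial

theorem maxdeg {p q c c' : ℂ[X]} {d : ℕ} (hpq : p ≠ 0 ∨ q ≠ 0) (hc : c ≠ 0) (hc' : c' ≠ 0)
    (hd : c.natDegree = d) (hd' : c'.natDegree = d) :
    max (p * c).natDegree (q * c').natDegree = max p.natDegree q.natDegree + d := by
  by_cases hp : p = 0
  · have hq : q ≠ 0 := by tauto
    subst hp
    simp [natDegree_mul hq hc', hd']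
  by_cases hq : q = 0
  · subst hq
    simp [natDegree_mul hp hc, hd]
  · rw [natDegree_mul hp hc, natDegree_mul hq hc', hd, hd']
    omega

theorem ne_of_coprime {p q : ℂ[X]} (h : IsCoprime p q) : p ≠ 0 ∨ q ≠ 0 := by
  rcases eval_ne_of_isCoprime h 0 with h1 | h1
  · left; rintro rfl; simp at h1
  · right; rintro rfl; simp at h1

/-- Polynomials without double roots -/
def NoSq (p : ℂ[X]) : Prop := ∀ τ : ℂ, ¬ (X - C τ) ^ 2 ∣ p

theorem count {s0 s1 w0 w1 β β' : ℂ[X]} {m n q : ℕ} (hs : IsCoprime s0 s1) (hw : IsCoprime w0 w1)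
    (hβ : IsCoprime β β') (sβ : NoSq β) (sβ' : NoSq β') (dβ : β.natDegree = m)
    (dβ' : β'.natDegree = m) (ds : max s0.natDegree s1.natDegree = n)
    (dw : max w0.natDegree w1.natDegree = q) (h : w0 * s0 * β = w1 * s1 * β') :
    {τ : ℂ | β.eval τ = 0 ∧ s1.eval τ = 0}.ncard + {τ : ℂ | β'.eval τ = 0 ∧ s0.eval τ = 0}.ncard
      + q = n + m := by
  have hβ0 : β ≠ 0 := by rintro rfl; exact sβ 0 (dvd_zero _)
  have hβ0' : β' ≠ 0 := by rintro rfl; exact sβ' 0 (dvd_zero _)
  obtain ⟨u, v, huv⟩ := hw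
  obtain ⟨c, hc⟩ : ∃ c, c = u * (s1 * β') + v * (s0 * β) := ⟨_, rfl⟩
  have e0 : s1 * β' = w0 * c := by rw [hc]; linear_combination (-(s1 * β')) * huv - v * h
  have e1 : s0 * β = w1 * c := by rw [hc]; linear_combination (-(s0 * β)) * huv + u * h
  have hc0 : c ≠ 0 := by
    intro h0
    rw [h0, mul_zero] at e0 e1
    rcases ne_of_coprime hs with h1 | h1
    · exact mul_ne_zero h1 hβ0 e1
    · exact mul_ne_zero h1 hβ0' e0
  have hdeg : q + c.natDegree = n + m := by
    have k1 := maxdeg (p := w0) (q := w1) (c := c) (c' := c)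
      (ne_of_coprime ⟨u, v, huv⟩) hc0 hc0 rfl rfl
    have k2 := maxdeg (p := s1) (q := s0) (c := β') (c' := β)
      (ne_of_coprime hs).symm hβ0' hβ0 dβ' dβ
    rw [← e0, ← e1, k2, dw, max_comm, ds] at k1
    omega
  have hroot : {τ : ℂ | β.eval τ = 0 ∧ s1.eval τ = 0} ∪ {τ : ℂ | β'.eval τ = 0 ∧ s0.eval τ = 0} =
      (c.roots.toFinset : Set ℂ) := by
    ext τ
    simp only [Set.mem_union, Set.mem_ofPred_eq, Finset.mem_coe, Multiset.mem_toFinset,
      mem_roots hc0, IsRoot.def]
    constructor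
    · rintro (⟨h1, h2⟩ | ⟨h1, h2⟩)
      · have f0 := congrArg (eval τ) e0
        have f1 := congrArg (eval τ) e1
        simp only [eval_mul, h1, h2, mul_zero, zero_mul] at f0 f1
        rcases eval_ne_of_isCoprime ⟨u, v, huv⟩ τ with h3 | h3
        · rcases mul_eq_zero.1 f0.symm with h4 | h4
          · exact absurd h4 h3
          · exact h4
        · rcases mul_eq_zero.1 f1.symm with h4 | h4
          · exact absurd h4 h3
          · exact h4
      · have f0 := congrArg (eval τ) e0
        have f1 := congrArg (eval τ) e1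
        simp only [eval_mul, h1, h2, mul_zero, zero_mul] at f0 f1
        rcases eval_ne_of_isCoprime ⟨u, v, huv⟩ τ with h3 | h3
        · rcases mul_eq_zero.1 f0.symm with h4 | h4
          · exact absurd h4 h3
          · exact h4
        · rcases mul_eq_zero.1 f1.symm with h4 | h4
          · exact absurd h4 h3
          · exact h4
    · intro h1
      have f0 := congrArg (eval τ) e0
      have f1 := congrArg (eval τ) e1
      simp only [eval_mul, h1, mul_zero, mul_eq_zero] at f0 f1
      rcases eval_ne_of_isCoprime hs τ with h3 | h3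
      · have h4 : β.eval τ = 0 := by tauto
        rcases eval_ne_of_isCoprime hβ τ with h5 | h5
        · exact absurd h4 h5
        · left; exact ⟨h4, by tauto⟩
      · have h4 : β'.eval τ = 0 := by tauto
        rcases eval_ne_of_isCoprime hβ τ with h5 | h5
        · right; exact ⟨h4, by tauto⟩
        · exact absurd h4 h5
  have hdisj : Disjoint {τ : ℂ | β.eval τ = 0 ∧ s1.eval τ = 0}
      {τ : ℂ | β'.eval τ = 0 ∧ s0.eval τ = 0} := by
    rw [Set.disjoint_left]
    rintro τ ⟨h1, _⟩ ⟨h2, _⟩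
    rcases eval_ne_of_isCoprime hβ τ with h5 | h5
    · exact h5 h1
    · exact h5 h2
  have hfin : (↑c.roots.toFinset : Set ℂ).Finite := Finset.finite_toSet _
  have hfin1 : {τ : ℂ | β.eval τ = 0 ∧ s1.eval τ = 0}.Finite :=
    hfin.subset (by rw [← hroot]; exact Set.subset_union_left)
  have hfin2 : {τ : ℂ | β'.eval τ = 0 ∧ s0.eval τ = 0}.Finite :=
    hfin.subset (by rw [← hroot]; exact Set.subset_union_right)
  have hnd : c.roots.Nodup := by
    rw [Multiset.nodup_iff_count_le_one]
    intro τ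
    rw [count_roots]
    by_contra hlt
    push Not at hlt
    have h2 : (X - C τ) ^ 2 ∣ c := (le_rootMultiplicity_iff hc0).1 hlt
    have g0 : (X - C τ) ^ 2 ∣ s1 * β' := by rw [e0]; exact h2.mul_left _
    have g1 : (X - C τ) ^ 2 ∣ s0 * β := by rw [e1]; exact h2.mul_left _
    have hcop : ∀ s : ℂ[X], s.eval τ ≠ 0 → IsCoprime ((X - C τ) ^ 2) s := by
      intro s hs
      apply IsCoprime.pow_left
      rw [Polynomial.isCoprime_iff_aeval_ne_zero_of_isAlgClosed ℂ ℂ]
      intro a
      by_cases ha : a = τ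
      · subst ha; right; simpa using hs
      · left; simpa [sub_eq_zero] using ha
    rcases eval_ne_of_isCoprime hs τ with h3 | h3
    · exact sβ τ ((hcop _ h3).dvd_of_dvd_mul_left g1)
    · exact sβ' τ ((hcop _ h3).dvd_of_dvd_mul_left g0)
  have hcard : c.natDegree = (c.roots.toFinset : Set ℂ).ncard := by
    rw [Set.ncard_coe_finset, Multiset.toFinset_card_of_nodup hnd]
    exact (IsAlgClosed.splits c).natDegree_eq_card_roots
  rw [← Set.ncard_union_eq hdisj hfin1 hfin2, hroot, ← hcard]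
  omega

end Pool.Agent.Y198.Bat
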