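import Mathlib
import Pool.Agent.Y198.Bat.Forms
import Pool.Agent.Y198.Bat.Classify
import Pool.Agent.Y198.Bat.Count

set_option autoImplicit false

namespace Pool.Agent.Y198.Bat

open Polynomial

theorem deg3 {p q r : ℂ[X]} {a b c : ℕ} (hp : p.natDegree ≤ a) (hq : q.natDegree ≤ b)
    (hr : r.natDegree ≤ c) : (p * (q * r)).natDegree ≤ a + (b + c) :=
  natDegree_mul_le.trans (add_le_add hp (natDegree_mul_le.trans (add_le_add hq hr)))

section deg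

variable {x0 x1 y0 y1 t0 t1 z0 z1 : ℂ[X]} {a b c d : ℕ} (hx0 : x0.natDegree ≤ a)
  (hx1 : x1.natDegree ≤ a) (hy0 : y0.natDegree ≤ b) (hy1 : y1.natDegree ≤ b)
  (ht0 : t0.natDegree ≤ c) (ht1 : t1.natDegree ≤ c) 

include hx0 hx1 hy0 hy1 ht0 ht1

theorem deg_ca0 : (ca0 x0 x1 y0 y1 t0 t1).natDegree ≤ c + (a + b) := by
  have : ca0 x0 x1 y0 y1 t0 t1 = t0 * (x1 * y1) + (t1 * (x0 * y1) + t1 * (x1 * y0)) := by
    simp only [ca0]; ring
  rw [this]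
  exact natDegree_add_le_of_degree_le (deg3 ht0 hx1 hy1) (natDegree_add_le_of_degree_le
    (deg3 ht1 hx0 hy1) (deg3 ht1 hx1 hy0))

theorem deg_ca1 : (ca1 x0 x1 y0 y1 t0 t1).natDegree ≤ c + (a + b) := by
  have : ca1 x0 x1 y0 y1 t0 t1 = t0 * (x1 * y1) + t0 * (x0 * y0) := by
    simp only [ca1]; ring
  rw [this]
  exact natDegree_add_le_of_degree_le (deg3 ht0 hx1 hy1) (deg3 ht0 hx0 hy0)

theorem deg_cb0 : (cb0 x0 x1 y0 y1 t0 t1).natDegree ≤ c + (a + b) := by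
  have : cb0 x0 x1 y0 y1 t0 t1 = (t0 * (x0 * y1) + t0 * (x1 * y0)) - t1 * (x0 * y0) := by
    simp only [cb0]; ring
  rw [this]
  exact sub_deg_le (natDegree_add_le_of_degree_le (deg3 ht0 hx0 hy1) (deg3 ht0 hx1 hy0))
    (deg3 ht1 hx0 hy0)

theorem deg_cb1 : (cb1 x0 x1 y0 y1 t0 t1).natDegree ≤ c + (a + b) := by
  have : cb1 x0 x1 y0 y1 t0 t1 = t1 * (x1 * y1) - t1 * (x0 * y0) := by
    simp only [cb1]; ring
  rw [this]
  exact sub_deg_le (deg3 ht1 hx1 hy1) (deg3 ht1 hx0 hy0)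

theorem deg_fA (hz0 : z0.natDegree ≤ d) (hz1 : z1.natDegree ≤ d) :
    (fA x0 x1 y0 y1 t0 t1 z0 z1).natDegree ≤ c + (a + b) + d :=
  natDegree_add_le_of_degree_le
    (natDegree_mul_le.trans (add_le_add (deg_ca0 hx0 hx1 hy0 hy1 ht0 ht1) hz0))
    (natDegree_mul_le.trans (add_le_add (deg_ca1 hx0 hx1 hy0 hy1 ht0 ht1) hz1))

theorem deg_fB (hz0 : z0.natDegree ≤ d) (hz1 : z1.natDegree ≤ d) :
    (fB x0 x1 y0 y1 t0 t1 z0 z1).natDegree ≤ c + (a + b) + d :=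
  natDegree_add_le_of_degree_le
    (natDegree_mul_le.trans (add_le_add (deg_cb0 hx0 hx1 hy0 hy1 ht0 ht1) hz0))
    (natDegree_mul_le.trans (add_le_add (deg_cb1 hx0 hx1 hy0 hy1 ht0 ht1) hz1))

end deg

/-- negativity -/
theorem neg {s0 s1 P Q : ℂ[X]} {n : ℕ} (hs : IsCoprime s0 s1) (ds : max s0.natDegree s1.natDegree = n)
    (hP : P.natDegree < n) (hQ : Q.natDegree < n) (h : s0 * P + s1 * Q = 0) : P = 0 ∧ Q = 0 := by
  obtain ⟨u, v, huv⟩ := hs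
  obtain ⟨c, hc⟩ : ∃ c, c = u * Q - v * P := ⟨_, rfl⟩
  have e1 : Q = s0 * c := by rw [hc]; linear_combination (-Q) * huv + v * h
  have e0 : P = -(s1 * c) := by rw [hc]; linear_combination (-P) * huv + u * h
  by_cases h0 : c = 0
  · rw [h0] at e0 e1
    exact ⟨by simpa using e0, by simpa using e1⟩
  · exfalso
    have h1 := maxdeg (ne_of_coprime ⟨u, v, huv⟩) h0 h0 rfl rfl
    rw [ds, ← e1] at h1
    have h2 : (s1 * c).natDegree = P.natDegree := by rw [e0, natDegree_neg]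
    rw [h2] at h1
    have := max_lt hQ hP
    omega

theorem FF_zero {s0 s1 x0 x1 y0 y1 t0 t1 z0 z1 : ℂ[X]} {a b c d n : ℕ} (hs : IsCoprime s0 s1)
    (hz : IsCoprime z0 z1)
    (ds : max s0.natDegree s1.natDegree = n) (hx0 : x0.natDegree ≤ a)
    (hx1 : x1.natDegree ≤ a) (hy0 : y0.natDegree ≤ b) (hy1 : y1.natDegree ≤ b)
    (ht0 : t0.natDegree ≤ c) (ht1 : t1.natDegree ≤ c) (hz0 : z0.natDegree ≤ d)
    (hz1 : z1.natDegree ≤ d) (hn : c + (a + b) + d < n)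
    (h : phi x0 x1 y0 y1 t0 t1 z0 z1 s0 s1 = 0) : FF x0 x1 y0 y1 t0 t1 = 0 := by
  have h1 := neg hs ds ((deg_fA hx0 hx1 hy0 hy1 ht0 ht1 hz0 hz1).trans_lt hn)
    ((deg_fB hx0 hx1 hy0 hy1 ht0 ht1 hz0 hz1).trans_lt hn) h
  simp only [fA, fB] at h1
  rw [← det_eq]
  rcases ne_of_coprime hz with h2 | h2
  · apply mul_right_cancel₀ h2
    linear_combination (cb1 x0 x1 y0 y1 t0 t1) * h1.1 - (ca1 x0 x1 y0 y1 t0 t1) * h1.2
  · apply mul_right_cancel₀ h2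
    linear_combination (ca0 x0 x1 y0 y1 t0 t1) * h1.2 - (cb0 x0 x1 y0 y1 t0 t1) * h1.1

section mob

/-- the inverse of `t` -/
noncomputable def M0 (t0 t1 : ℂ[X]) : ℂ[X] := C (t1.coeff 0) * X - C (t0.coeff 0)
/-- the inverse of `t` -/
noncomputable def M1 (t0 t1 : ℂ[X]) : ℂ[X] := C (t0.coeff 1) - C (t1.coeff 1) * X

variable {t0 t1 : ℂ[X]}

theorem hc_one' {A : Type} [CommRing A] [Algebra ℂ A] (t : ℂ[X]) (a b : A) :
    hc 1 t a b = algebraMap ℂ A (t.coeff 0) * b + algebraMap ℂ A (t.coeff 1) * a := by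
  rw [hc_eq_sum]
  simp [Finset.sum_range_succ]

def dt (t0 t1 : ℂ[X]) : ℂ := t0.coeff 1 * t1.coeff 0 - t0.coeff 0 * t1.coeff 1

theorem dt_ne (ht : Pr t0 t1 1) : dt t0 t1 ≠ 0 := by
  intro h
  unfold dt at h
  have key : ∀ a b : ℂ, (a ≠ 0 ∨ b ≠ 0) →
      ¬ (t0.coeff 0 * b + t0.coeff 1 * a = 0 ∧ t1.coeff 0 * b + t1.coeff 1 * a = 0) := by
    intro a b hab hc
    have := ht.ne a b hab
    simp only [hc_one', Algebra.algebraMap_self, RingHom.id_apply] at this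
    tauto
  by_cases h0 : t0.coeff 0 = 0 ∧ t0.coeff 1 = 0
  · by_cases h1 : t1.coeff 0 = 0 ∧ t1.coeff 1 = 0
    · exact key 1 0 (by simp) ⟨by simp [h0], by simp [h1]⟩
    · exact key (t1.coeff 0) (-t1.coeff 1) (by simp; tauto) ⟨by simp [h0], by ring⟩
  · exact key (t0.coeff 0) (-t0.coeff 1) (by simp; tauto) ⟨by ring, by linear_combination -h⟩

theorem pr_M (ht : Pr t0 t1 1) : Pr (M0 t0 t1) (M1 t0 t1) 1 := by
  have hd := dt_ne ht
  have d0 : (M0 t0 t1).natDegree ≤ 1 := by unfold M0; compute_degree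
  have d1 : (M1 t0 t1).natDegree ≤ 1 := by unfold M1; compute_degree
  refine ⟨d0, d1, fun a b hab => ?_⟩
  simp only [hc_one', M0, M1, coeff_sub, coeff_C_mul, coeff_X_zero, coeff_X_one, coeff_C_zero,
    Algebra.algebraMap_self, RingHom.id_apply]
  simp only [coeff_C, one_ne_zero, if_false]
  by_contra hc
  push Not at hc
  obtain ⟨h0, h1⟩ := hc
  have ha : a * dt t0 t1 = 0 := by
    unfold dt
    linear_combination t0.coeff 1 * h0 + t0.coeff 0 * h1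
  have hb : b * dt t0 t1 = 0 := by
    unfold dt
    linear_combination t1.coeff 1 * h0 + t1.coeff 0 * h1
  rcases mul_eq_zero.1 ha with ha | ha
  · rcases mul_eq_zero.1 hb with hb | hb
    · tauto
    · exact hd hb
  · exact hd ha

theorem hc_M0 : hc 1 t0 (M0 t0 t1) (M1 t0 t1) = C (dt t0 t1) * X := by
  rw [hc_one']
  simp only [algebraMap_eq, M0, M1, dt, C_sub, C_mul]
  ring

theorem hc_M1 : hc 1 t1 (M0 t0 t1) (M1 t0 t1) = C (dt t0 t1) * 1 := by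
  rw [hc_one']
  simp only [algebraMap_eq, M0, M1, dt, C_sub, C_mul]
  ring

end mob

theorem FF_smul_t {A : Type} [CommRing A] (c x0 x1 y0 y1 t0 t1 : A) :
    FF x0 x1 y0 y1 (c * t0) (c * t1) = c ^ 2 * FF x0 x1 y0 y1 t0 t1 := by
  simp only [FF, F2, F1, F0]; ring

theorem sol_of {x0 x1 y0 y1 t0 t1 : ℂ[X]} {k : ℕ} (hx : Pr x0 x1 (dg k)) (hy : Pr y0 y1 (dg (k + 1)))
    (ht : Pr t0 t1 1) (hF : FF x0 x1 y0 y1 t0 t1 = 0) :
    Sol k ![hc (dg k) x0 (M0 t0 t1) (M1 t0 t1), hc (dg k) x1 (M0 t0 t1) (M1 t0 t1),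
      hc (dg (k + 1)) y0 (M0 t0 t1) (M1 t0 t1), hc (dg (k + 1)) y1 (M0 t0 t1) (M1 t0 t1)] := by
  refine ⟨?_, ?_, ?_⟩
  · have := hx.comp (pr_M ht)
    rw [mul_one] at this
    exact this
  · have := hy.comp (pr_M ht)
    rw [mul_one] at this
    exact this
  · have h := hc_FF hy.dp hy.dq ht.dp ht.dq (M0 t0 t1) (M1 t0 t1) hx.dp hx.dq
    rw [hF, hc_zero, hc_M0, hc_M1, FF_smul_t] at h
    simp only [Matrix.cons_val]
    have hd : (C (dt t0 t1) : ℂ[X]) ^ 2 ≠ 0 := by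
      simpa using dt_ne ht
    rcases mul_eq_zero.1 h.symm with h1 | h1
    · exact absurd h1 hd
    · exact h1

theorem hc_psi {b b' : ℂ} {x0 x1 s0 s1 w0 w1 : ℂ[X]} {a n q : ℕ} (hx0 : x0.natDegree ≤ a)
    (hx1 : x1.natDegree ≤ a) (hs0 : s0.natDegree ≤ n) (hs1 : s1.natDegree ≤ n)
    (hw0 : w0.natDegree ≤ q) (hw1 : w1.natDegree ≤ q) (u v : ℂ[X]) :
    hc ((q + n) + a) (psi b b' x0 x1 s0 s1 w0 w1) u v =
      psi b b' (hc a x0 u v) (hc a x1 u v) (hc n s0 u v) (hc n s1 u v) (hc q w0 u v)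
        (hc q w1 u v) := by
  have h0 : (x0 - algebraMap ℂ ℂ[X] b * x1).natDegree ≤ a := by
    refine sub_deg_le hx0 ?_
    exact (natDegree_C_mul_le _ _).trans hx1
  have h1 : (x0 - algebraMap ℂ ℂ[X] b' * x1).natDegree ≤ a := by
    refine sub_deg_le hx0 ?_
    exact (natDegree_C_mul_le _ _).trans hx1
  unfold psi
  rw [hc_sub, hc_mul (natDegree_mul_le.trans (add_le_add hw0 hs0)) h0,
    hc_mul (natDegree_mul_le.trans (add_le_add hw1 hs1)) h1, hc_mul hw0 hs0, hc_mul hw1 hs1,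
    hc_sub, hc_sub]
  simp only [algebraMap_eq, hc_C_mul]

end Pool.Agent.Y198.Bat
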