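import Mathlib
import Pool.Agent.Y198.Bat.Defs
import Pool.Agent.Y198.Bat.Pair

set_option autoImplicit false

namespace Pool.Agent.Y198.Bat

open Polynomial

theorem isClosed_zariski {ι : Type} (P : MvPolynomial ι ℂ) :
    @IsClosed _ (zariski ι) {v | MvPolynomial.eval v P = 0} := by
  let _ := zariski ι
  have hc : Continuous (MvPolynomial.pointToPoint (k := ℂ) (K := ℂ) (σ := ι)) :=
    continuous_induced_dom
  have h := (PrimeSpectrum.isClosed_zeroLocus ({P} : Set (MvPolynomial ι ℂ))).preimage hc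
  have e : {v : ι → ℂ | MvPolynomial.eval v P = 0} =
      MvPolynomial.pointToPoint (k := ℂ) (K := ℂ) ⁻¹'
        PrimeSpectrum.zeroLocus ({P} : Set (MvPolynomial ι ℂ)) := by
    ext v
    rw [Set.mem_preimage, PrimeSpectrum.mem_zeroLocus, Set.singleton_subset_iff]
    change MvPolynomial.eval v P = 0 ↔ P ∈ MvPolynomial.vanishingIdeal ℂ ({v} : Set (ι → ℂ))
    rw [MvPolynomial.mem_vanishingIdeal_singleton_iff, MvPolynomial.aeval_eq_eval]
  rw [e]
  exact h

variable {n r : ℕ} {F : Fin r → MvPolynomial (Fin n × Fin 2) ℂ} {m : Fin n → ℕ}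

/-- coefficient vector -/
def cf (f : Rep F m) : (Fin n × Fin 2) × ℕ → ℂ := fun v => (f.1 v.1).coeff v.2

theorem isClosed_cf (P : MvPolynomial ((Fin n × Fin 2) × ℕ) ℂ) :
    IsClosed {f : Rep F m | MvPolynomial.eval (cf f) P = 0} := by
  let _ := zariski ((Fin n × Fin 2) × ℕ)
  have hc : Continuous (fun f : Rep F m => cf f) := continuous_induced_dom
  exact (isClosed_zariski P).preimage hc

/-- regular functions with values in polynomials -/
noncomputable def regHom : Polynomial (MvPolynomial ((Fin n × Fin 2) × ℕ) ℂ) →+* (Rep F m → ℂ[X]) :=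
  RingHom.pi fun f => Polynomial.mapRingHom (MvPolynomial.eval (cf f))

theorem regHom_apply (P : Polynomial (MvPolynomial ((Fin n × Fin 2) × ℕ) ℂ)) (f : Rep F m) :
    regHom P f = P.map (MvPolynomial.eval (cf f)) := rfl

/-- regular functions with values in polynomials -/
noncomputable def Reg (F : Fin r → MvPolynomial (Fin n × Fin 2) ℂ) (m : Fin n → ℕ) :
    Subring (Rep F m → ℂ[X]) := (regHom (F := F) (m := m)).range

theorem reg_const (c : ℂ[X]) : (fun _ => c) ∈ Reg F m :=
  ⟨c.map MvPolynomial.C, by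
    funext f
    rw [regHom_apply, Polynomial.map_map]
    have : (MvPolynomial.eval (cf f)).comp MvPolynomial.C = RingHom.id ℂ := by
      ext <;> simp
    rw [this, Polynomial.map_id]⟩

theorem reg_coeff (v : Fin n × Fin 2) (j : ℕ) : (fun f : Rep F m => C ((f.1 v).coeff j)) ∈ Reg F m :=
  ⟨C (MvPolynomial.X (v, j)), by
    funext f
    simp [regHom_apply, cf]⟩

theorem natDegree_le (f : Rep F m) (v : Fin n × Fin 2) : (f.1 v).natDegree ≤ m v.1 := by
  obtain ⟨i, j⟩ := v
  have h := f.2.degree i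
  fin_cases j
  · exact h ▸ le_max_left _ _
  · exact h ▸ le_max_right _ _

theorem reg_self (v : Fin n × Fin 2) : (fun f : Rep F m => f.1 v) ∈ Reg F m := by
  have h : (fun f : Rep F m => f.1 v) =
      ∑ j ∈ Finset.range (m v.1 + 1), (fun f : Rep F m => C ((f.1 v).coeff j)) * fun _ => X ^ j := by
    funext f
    rw [Finset.sum_apply]
    simp only [Pi.mul_apply]
    rw [← (f.1 v).as_sum_range_C_mul_X_pow' (Nat.lt_succ_of_le (natDegree_le f v))]
  rw [h]
  exact Subring.sum_mem _ fun j _ => Subring.mul_mem _ (reg_coeff v j) (reg_const _)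

theorem reg_hc (v : Fin n × Fin 2) (e : ℕ) {a b : Rep F m → ℂ[X]} (ha : a ∈ Reg F m)
    (hb : b ∈ Reg F m) : (fun f : Rep F m => hc e (f.1 v) (a f) (b f)) ∈ Reg F m := by
  have h : (fun f : Rep F m => hc e (f.1 v) (a f) (b f)) =
      ∑ j ∈ Finset.range (e + 1), (fun f : Rep F m => C ((f.1 v).coeff j)) * a ^ j * b ^ (e - j) := by
    funext f
    rw [Finset.sum_apply, hc_eq_sum]
    rfl
  rw [h]
  exact Subring.sum_mem _ fun j _ => Subring.mul_mem _ (Subring.mul_mem _ (reg_coeff v j)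
    (Subring.pow_mem _ ha _)) (Subring.pow_mem _ hb _)

theorem isClosed_reg {g : Rep F m → ℂ[X]} (hg : g ∈ Reg F m) : IsClosed {f | g f = 0} := by
  obtain ⟨P, rfl⟩ := hg
  have : {f : Rep F m | regHom P f = 0} =
      ⋂ j : ℕ, {f : Rep F m | MvPolynomial.eval (cf f) (P.coeff j) = 0} := by
    ext f
    simp [regHom_apply, Polynomial.ext_iff]
  rw [this]
  exact isClosed_iInter fun j => isClosed_cf _

theorem isClosed_reg_eval {g : Rep F m → ℂ[X]} (hg : g ∈ Reg F m) (τ : ℂ) :
    IsClosed {f | (g f).eval τ = 0} := by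
  obtain ⟨P, rfl⟩ := hg
  have : {f : Rep F m | (regHom P f).eval τ = 0} =
      {f : Rep F m | MvPolynomial.eval (cf f) (P.eval (MvPolynomial.C τ)) = 0} := by
    ext f
    rw [Set.mem_ofPred_eq, Set.mem_ofPred_eq, regHom_apply, ← Polynomial.eval₂_eq_eval_map]
    have h := Polynomial.hom_eval₂ P (RingHom.id _) (MvPolynomial.eval (cf f)) (MvPolynomial.C τ)
    simp only [RingHom.comp_id, MvPolynomial.eval_C] at h
    rw [← h]
    rfl
  rw [this]
  exact isClosed_cf _

end Pool.Agent.Y198.Bat
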