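import Mathlib
import Pool.Agent.Y198.Bat.Defs

set_option autoImplicit false

namespace Pool.Agent.Y198.Bat

theorem comps_ge {M : Type} [TopologicalSpace M] {Λ : Type} (lab : M → Λ)
    (hfin : (Set.range lab).Finite) (hcl : ∀ l ∈ Set.range lab, IsClosed (lab ⁻¹' {l})) :
    (Set.range lab).encard ≤ (irreducibleComponents M).encard := by
  classical
  have hopen : ∀ l ∈ Set.range lab, IsClopen (lab ⁻¹' {l}) := by
    intro l hl
    refine ⟨hcl l hl, ?_⟩
    rw [← isClosed_compl_iff]
    have : (lab ⁻¹' {l})ᶜ = ⋃ l' ∈ (Set.range lab \ {l}), lab ⁻¹' {l'} := by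
      ext a
      simp
    rw [this]
    exact Set.Finite.isClosed_biUnion (hfin.subset Set.sdiff_subset) fun l' hl' => hcl l' hl'.1
  have hconst : ∀ a b : M, b ∈ irreducibleComponent a → lab b = lab a := by
    intro a b hb
    have h1 : IsPreconnected (irreducibleComponent a) :=
      (isIrreducible_irreducibleComponent (x := a)).isPreirreducible.isPreconnected
    have h2 := h1.subset_isClopen (hopen (lab a) ⟨a, rfl⟩)
      ⟨a, mem_irreducibleComponent, rfl⟩
    exact h2 hb
  rcases isEmpty_or_nonempty M with hM | hM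
  · simp [Set.range_eq_empty]
  have hex : ∀ l ∈ Set.range lab, ∃ a, lab a = l := fun l hl => hl
  choose! g hg using hex
  refine Set.encard_le_encard_of_injOn (f := fun l => irreducibleComponent (g l)) ?_ ?_
  · intro l _
    exact irreducibleComponent_mem_irreducibleComponents (g l)
  · intro l hl l' hl' h
    have h1 : g l ∈ irreducibleComponent (g l') := by
      have : g l ∈ irreducibleComponent (g l) := mem_irreducibleComponent
      exact (congrArg (fun s => g l ∈ s) h).mp this
    have h2 := hconst _ _ h1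
    rwa [hg l hl, hg l' hl'] at h2

theorem encard_le_numComponents {n r : ℕ} (F : Fin r → MvPolynomial (Fin n × Fin 2) ℂ)
    (m : Fin n → ℕ) {d : ℕ} (hd : ∑ i, m i ≤ d) :
    (irreducibleComponents (Mor F m)).encard ≤ numComponents F d := by
  refine Set.encard_le_encard_of_injOn (f := fun Z => (⟨m, Z⟩ : Σ m : Fin n → ℕ, Set (Mor F m)))
    ?_ ?_
  · intro Z hZ
    exact ⟨hd, hZ⟩
  · intro Z _ Z' _ h
    simpa using h

end Pool.Agent.Y198.Bat
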