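import Mathlib
import Pool.Agent.Y198.Bat.Norm
import Pool.Agent.Y198.Bat.Reg
import Pool.Agent.Y198.Bat.Top

set_option autoImplicit false

namespace Pool.Agent.Y198.Bat

open Polynomial

/-- multidegrees -/
structure Lev (k : ℕ) (m : Fin 6 → ℕ) : Prop where
  h0 : m 0 = dg k
  h1 : m 1 = dg (k + 1)
  h2 : m 2 = 1
  hn : m 2 + (m 0 + m 1) + m 3 < m 4

def Good (b : ℂ) (k : ℕ) : Prop :=
  ∀ r, Sol k r → (r 0 - C b * r 1).natDegree = dg k ∧ NoSq (r 0 - C b * r 1)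

def KK (s : Fin 4 → ℂ[X]) : Set (Fin 4 → ℂ[X]) := {r | Eqv s r}

theorem KK_smul {s s' : Fin 4 → ℂ[X]} {c d : ℂ} (hc : c ≠ 0) (hd : d ≠ 0) (h0 : s' 0 = C c * s 0)
    (h1 : s' 1 = C c * s 1) (h2 : s' 2 = C d * s 2) (h3 : s' 3 = C d * s 3) : KK s' = KK s := by
  have hc' : (C c : ℂ[X]) ≠ 0 := by simpa using hc
  have hd' : (C d : ℂ[X]) ≠ 0 := by simpa using hd
  ext r
  simp only [KK, Eqv, Set.mem_ofPred_eq, h0, h1, h2, h3]
  constructor
  · rintro ⟨k1, k2⟩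
    exact ⟨mul_left_cancel₀ hc' (by linear_combination k1),
      mul_left_cancel₀ hd' (by linear_combination k2)⟩
  · rintro ⟨k1, k2⟩
    exact ⟨by linear_combination (C c) * k1, by linear_combination (C d) * k2⟩

variable {b b' : ℂ} {m : Fin 6 → ℕ}

/-- normalized polynomials -/
noncomputable def nn (v : Fin 6 × Fin 2) (f : Rep (FX b b') m) : ℂ[X] :=
  hc (m v.1) (f.1 v) (M0 (f.1 (2, 0)) (f.1 (2, 1))) (M1 (f.1 (2, 0)) (f.1 (2, 1)))

theorem reg_nn (v : Fin 6 × Fin 2) : (fun f : Rep (FX b b') m => nn v f) ∈ Reg (FX b b') m := by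
  refine reg_hc v (m v.1) ?_ ?_
  · exact Subring.sub_mem _ (Subring.mul_mem _ (reg_coeff (2, 1) 0) (reg_const X))
      (reg_coeff (2, 0) 0)
  · exact Subring.sub_mem _ (reg_coeff (2, 0) 1)
      (Subring.mul_mem _ (reg_coeff (2, 1) 1) (reg_const X))

noncomputable def nq (f : Rep (FX b b') m) : Fin 4 → ℂ[X] :=
  ![nn (0, 0) f, nn (0, 1) f, nn (1, 0) f, nn (1, 1) f]

/-- the label -/
noncomputable def lab (f : Rep (FX b b') m) : Set (Fin 4 → ℂ[X]) × Set ℂ × Set ℂ :=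
  (KK (nq f), {τ | (nn (0, 0) f - C b * nn (0, 1) f).eval τ = 0 ∧ (nn (4, 1) f).eval τ = 0},
    {τ | (nn (0, 0) f - C b' * nn (0, 1) f).eval τ = 0 ∧ (nn (4, 0) f).eval τ = 0})

theorem nn_smul {f g : Rep (FX b b') m} {c : Fin 6 → ℂ} (hc : ∀ i, c i ≠ 0)
    (h : ∀ v, g.1 v = C (c v.1) * f.1 v) :
    ∃ e : Fin 6 → ℂ, (∀ i, e i ≠ 0) ∧ ∀ v, nn v g = C (e v.1) * nn v f := by
  refine ⟨fun i => c 2 ^ m i * c i, fun i => mul_ne_zero (pow_ne_zero _ (hc 2)) (hc i), fun v => ?_⟩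
  have e0 : M0 (g.1 (2, 0)) (g.1 (2, 1)) = C (c 2) * M0 (f.1 (2, 0)) (f.1 (2, 1)) := by
    rw [h, h]
    simp only [M0, coeff_C_mul, C_mul]; ring
  have e1 : M1 (g.1 (2, 0)) (g.1 (2, 1)) = C (c 2) * M1 (f.1 (2, 0)) (f.1 (2, 1)) := by
    rw [h, h]
    simp only [M1, coeff_C_mul, C_mul]; ring
  unfold nn
  rw [e0, e1, hc_smul, h v, hc_C_mul]
  simp only [algebraMap_eq, C_mul, C_pow]
  ring

theorem lab_smul {f g : Rep (FX b b') m} {c : Fin 6 → ℂ} (hc : ∀ i, c i ≠ 0)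
    (h : ∀ v, g.1 v = C (c v.1) * f.1 v) : lab g = lab f := by
  obtain ⟨e, he, hv⟩ := nn_smul hc h
  have h1 : KK (nq g) = KK (nq f) := by
    refine KK_smul (he 0) (he 1) ?_ ?_ ?_ ?_ <;> simp only [nq, Matrix.cons_val] <;> exact hv _
  have h2 : ∀ (a : ℂ) (τ : ℂ), (nn (0, 0) g - C a * nn (0, 1) g).eval τ = 0 ↔
      (nn (0, 0) f - C a * nn (0, 1) f).eval τ = 0 := by
    intro a τ
    have : nn (0, 0) g - C a * nn (0, 1) g = C (e 0) * (nn (0, 0) f - C a * nn (0, 1) f) := by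
      rw [hv, hv]; ring
    rw [this, eval_mul, eval_C]
    simp [he 0]
  have h3 : ∀ (j : Fin 2) (τ : ℂ), (nn (4, j) g).eval τ = 0 ↔ (nn (4, j) f).eval τ = 0 := by
    intro j τ
    rw [hv, eval_mul, eval_C]
    simp [he 4]
  unfold lab
  rw [h1]
  simp only [h2, h3]

section facts

variable {k : ℕ} (hm : Lev k m) (hbb : b ≠ b') (hb : Good b k) (hb' : Good b' k)

include hm

theorem pr_f (f : Rep (FX b b') m) (i : Fin 6) : Pr (f.1 (i, 0)) (f.1 (i, 1)) (m i) :=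
  Pr.mk' (f.2.coprime i) (f.2.degree i)

theorem pr_t (f : Rep (FX b b') m) : Pr (f.1 (2, 0)) (f.1 (2, 1)) 1 := by
  have := pr_f hm f 2
  rwa [hm.h2] at this

theorem pr_n (f : Rep (FX b b') m) (i : Fin 6) : Pr (nn (i, 0) f) (nn (i, 1) f) (m i) := by
  have := (pr_f hm f i).comp (pr_M (pr_t hm f))
  rwa [mul_one] at this

theorem sol_n (f : Rep (FX b b') m) : Sol k (nq f) := by
  have h := f.2.mem 0
  rw [aeval_FX0] at h
  have hF := FF_zero (f.2.coprime 4) (f.2.coprime 3) (f.2.degree 4) (pr_f hm f 0).dp (pr_f hm f 0).dq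
    (pr_f hm f 1).dp (pr_f hm f 1).dq (pr_f hm f 2).dp (pr_f hm f 2).dq (pr_f hm f 3).dp
    (pr_f hm f 3).dq hm.hn h
  have h0 := pr_f hm f 0
  rw [hm.h0] at h0
  have h1 := pr_f hm f 1
  rw [hm.h1] at h1
  have := sol_of h0 h1 (pr_t hm f) hF
  unfold nq nn
  rw [hm.h0, hm.h1]
  exact this

theorem psi_n (f : Rep (FX b b') m) :
    nn (5, 0) f * nn (4, 0) f * (nn (0, 0) f - C b * nn (0, 1) f) =
      nn (5, 1) f * nn (4, 1) f * (nn (0, 0) f - C b' * nn (0, 1) f) := by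
  have h := f.2.mem 1
  rw [aeval_FX1] at h
  have h2 := hc_psi (b := b) (b' := b') (pr_f hm f 0).dp (pr_f hm f 0).dq (pr_f hm f 4).dp
    (pr_f hm f 4).dq (pr_f hm f 5).dp (pr_f hm f 5).dq (M0 (f.1 (2, 0)) (f.1 (2, 1)))
    (M1 (f.1 (2, 0)) (f.1 (2, 1)))
  rw [h, hc_zero] at h2
  simp only [psi, algebraMap_eq] at h2
  unfold nn
  linear_combination -h2

include hbb in
theorem cop_be (f : Rep (FX b b') m) : IsCoprime (nn (0, 0) f - C b * nn (0, 1) f)
    (nn (0, 0) f - C b' * nn (0, 1) f) := by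
  apply isCoprime_of_ne
  intro u
  by_contra hc
  push Not at hc
  obtain ⟨h1, h2⟩ := hc
  simp only [eval_sub, eval_mul, eval_C] at h1 h2
  have h3 : (b - b') * (nn (0, 1) f).eval u = 0 := by linear_combination h2 - h1
  have h4 : (nn (0, 1) f).eval u = 0 := by
    rcases mul_eq_zero.1 h3 with h | h
    · exact absurd (sub_eq_zero.1 h) hbb
    · exact h
  have h5 : (nn (0, 0) f).eval u = 0 := by rw [h4] at h1; simpa using h1
  rcases (pr_n hm f 0).ne_eval u with h | h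
  · exact h h5
  · exact h h4

include hbb hb hb' in
theorem count_n (f : Rep (FX b b') m) :
    (lab f).2.1.ncard + (lab f).2.2.ncard + m 5 = m 4 + m 0 := by
  have hs := sol_n hm f
  have h1 := hb _ hs
  have h2 := hb' _ hs
  simp only [nq, Matrix.cons_val, ← hm.h0] at h1 h2
  exact count (pr_n hm f 4).cop (pr_n hm f 5).cop (cop_be hm hbb f) h1.2 h2.2 h1.1 h2.1
    (pr_n hm f 4).max_eq_deg (pr_n hm f 5).max_eq_deg (psi_n hm f)

omit hm in
theorem finite_roots {p : ℂ[X]} (hp : p ≠ 0) : {τ : ℂ | p.eval τ = 0}.Finite := by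
  refine (Finset.finite_toSet p.roots.toFinset).subset ?_
  intro τ hτ
  simpa [hp] using hτ

include hb in
theorem fin1 (f : Rep (FX b b') m) : {τ : ℂ | (nn (0, 0) f - C b * nn (0, 1) f).eval τ = 0}.Finite := by
  have h1 := hb _ (sol_n hm f)
  simp only [nq, Matrix.cons_val] at h1
  apply finite_roots
  rintro h
  rw [h] at h1
  exact h1.2 0 (dvd_zero _)

include hb' in
theorem fin2 (f : Rep (FX b b') m) : {τ : ℂ | (nn (0, 0) f - C b' * nn (0, 1) f).eval τ = 0}.Finite := by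
  have h1 := hb' _ (sol_n hm f)
  simp only [nq, Matrix.cons_val] at h1
  apply finite_roots
  rintro h
  rw [h] at h1
  exact h1.2 0 (dvd_zero _)

include hbb hb hb' in
theorem fiber_eq (f0 : Rep (FX b b') m) : {f : Rep (FX b b') m | lab f = lab f0} =
    {f | nn (0, 0) f * nn (0, 1) f0 - nn (0, 1) f * nn (0, 0) f0 = 0} ∩
    {f | nn (1, 0) f * nn (1, 1) f0 - nn (1, 1) f * nn (1, 0) f0 = 0} ∩
    (⋂ τ ∈ (lab f0).2.1, {f | (nn (4, 1) f).eval τ = 0}) ∩
    (⋂ τ ∈ (lab f0).2.2, {f | (nn (4, 0) f).eval τ = 0}) := by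
  ext f
  simp only [Set.mem_inter_iff, Set.mem_iInter, Set.mem_ofPred_eq]
  constructor
  · intro h
    have h1 : nq f0 ∈ (lab f).1 := by
      rw [h]
      exact ⟨mul_comm _ _, mul_comm _ _⟩
    obtain ⟨h2, h3⟩ := h1
    simp only [nq, Matrix.cons_val] at h2 h3
    refine ⟨⟨⟨sub_eq_zero.2 h2, sub_eq_zero.2 h3⟩, fun τ hτ => ?_⟩, fun τ hτ => ?_⟩
    · rw [← h] at hτ; exact hτ.2
    · rw [← h] at hτ; exact hτ.2
  · rintro ⟨⟨⟨h1, h2⟩, h3⟩, h4⟩
    obtain ⟨c, hc, hc0, hc1⟩ := pr_prop (pr_n hm f 0).cop (pr_n hm f0 0).cop (sub_eq_zero.1 h1)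
    obtain ⟨d, hd, hd0, hd1⟩ := pr_prop (pr_n hm f 1).cop (pr_n hm f0 1).cop (sub_eq_zero.1 h2)
    have k1 : (lab f).1 = (lab f0).1 := by
      symm
      exact KK_smul hc hd hc0 hc1 hd0 hd1
    have hroot : ∀ (a : ℂ) (τ : ℂ), (nn (0, 0) f0 - C a * nn (0, 1) f0).eval τ = 0 →
        (nn (0, 0) f - C a * nn (0, 1) f).eval τ = 0 := by
      intro a τ h
      have e : nn (0, 0) f0 - C a * nn (0, 1) f0 = C c * (nn (0, 0) f - C a * nn (0, 1) f) := by
        rw [hc0, hc1]; ring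
      rw [e, eval_mul, eval_C] at h
      rcases mul_eq_zero.1 h with h' | h'
      · exact absurd h' hc
      · exact h'
    have s1 : (lab f0).2.1 ⊆ (lab f).2.1 := fun τ hτ => ⟨hroot _ _ hτ.1, h3 τ hτ⟩
    have s2 : (lab f0).2.2 ⊆ (lab f).2.2 := fun τ hτ => ⟨hroot _ _ hτ.1, h4 τ hτ⟩
    have g1 : (lab f).2.1.Finite := (fin1 hm hb f).subset fun τ h => h.1
    have g2 : (lab f).2.2.Finite := (fin2 hm hb' f).subset fun τ h => h.1
    have c0 := count_n hm hbb hb hb' f0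
    have c1 := count_n hm hbb hb hb' f
    have n1 := Set.ncard_le_ncard s1 g1
    have n2 := Set.ncard_le_ncard s2 g2
    have q1 := Set.eq_of_subset_of_ncard_le s1 (by omega) g1
    have q2 := Set.eq_of_subset_of_ncard_le s2 (by omega) g2
    exact Prod.ext k1 (Prod.ext q1.symm q2.symm)

include hbb hb hb' in
theorem fiber_closed (f0 : Rep (FX b b') m) : IsClosed {f : Rep (FX b b') m | lab f = lab f0} := by
  rw [fiber_eq hm hbb hb hb' f0]
  refine IsClosed.inter (IsClosed.inter (IsClosed.inter ?_ ?_) ?_) ?_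
  · exact isClosed_reg (g := fun f => nn (0, 0) f * nn (0, 1) f0 - nn (0, 1) f * nn (0, 0) f0)
      (Subring.sub_mem _ (Subring.mul_mem _ (reg_nn _) (reg_const _))
        (Subring.mul_mem _ (reg_nn _) (reg_const _)))
  · exact isClosed_reg (g := fun f => nn (1, 0) f * nn (1, 1) f0 - nn (1, 1) f * nn (1, 0) f0)
      (Subring.sub_mem _ (Subring.mul_mem _ (reg_nn _) (reg_const _))
        (Subring.mul_mem _ (reg_nn _) (reg_const _)))
  · exact isClosed_biInter fun τ _ => isClosed_reg_eval (reg_nn (4, 1)) τ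
  · exact isClosed_biInter fun τ _ => isClosed_reg_eval (reg_nn (4, 0)) τ

include hb hb' in
theorem lab_finite : (Set.range (lab (b := b) (b' := b') (m := m))).Finite := by
  obtain ⟨R, hR, hsol, hall⟩ := classify k
  refine Set.Finite.subset (s := ⋃ r ∈ R, {KK r} ×ˢ ((𝒫 {τ : ℂ | (r 0 - C b * r 1).eval τ = 0}) ×ˢ
    (𝒫 {τ : ℂ | (r 0 - C b' * r 1).eval τ = 0}))) ?_ ?_
  · refine Set.Finite.biUnion hR fun r hr => ?_
    refine (Set.finite_singleton _).prod (Set.Finite.prod ?_ ?_)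
    · refine Set.Finite.finite_subsets (finite_roots ?_)
      intro h
      have h1 := hb _ (hsol r hr)
      rw [h] at h1
      exact h1.2 0 (dvd_zero _)
    · refine Set.Finite.finite_subsets (finite_roots ?_)
      intro h
      have h1 := hb' _ (hsol r hr)
      rw [h] at h1
      exact h1.2 0 (dvd_zero _)
  · rintro _ ⟨f, rfl⟩
    obtain ⟨r, hr, e0, e1⟩ := hall _ (sol_n hm f)
    have hs := hsol r hr
    obtain ⟨c, hc, hc0, hc1⟩ := pr_prop (sol_n hm f).hx.cop hs.hx.cop e0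
    obtain ⟨d, hd, hd0, hd1⟩ := pr_prop (sol_n hm f).hy.cop hs.hy.cop e1
    have hroot : ∀ (a : ℂ) (τ : ℂ), (nn (0, 0) f - C a * nn (0, 1) f).eval τ = 0 →
        (r 0 - C a * r 1).eval τ = 0 := by
      intro a τ h
      have e : r 0 - C a * r 1 = C c * (nn (0, 0) f - C a * nn (0, 1) f) := by
        rw [hc0, hc1]; simp only [nq, Matrix.cons_val]; ring
      rw [e, eval_mul, h, mul_zero]
    refine Set.mem_biUnion hr ⟨?_, ?_, ?_⟩
    · exact (KK_smul hc hd hc0 hc1 hd0 hd1).symm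
    · exact fun τ h => hroot _ _ h.1
    · exact fun τ h => hroot _ _ h.1

end facts

/-- the label on the space of morphisms -/
noncomputable def labM : Mor (FX b b') m → Set (Fin 4 → ℂ[X]) × Set ℂ × Set ℂ :=
  Quotient.lift lab fun _ _ ⟨_, hc, h⟩ => (lab_smul hc h).symm

theorem labM_mk (f : Rep (FX b b') m) : labM (Quotient.mk (repSetoid (FX b b') m) f) = lab f := rfl

theorem range_labM : Set.range (labM (b := b) (b' := b') (m := m)) =
    Set.range (lab (b := b) (b' := b') (m := m)) := by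
  ext l
  constructor
  · rintro ⟨q, rfl⟩
    obtain ⟨f, rfl⟩ := Quotient.exists_rep q
    exact ⟨f, rfl⟩
  · rintro ⟨f, rfl⟩
    exact ⟨Quotient.mk _ f, rfl⟩

theorem comps_ge_lab {k : ℕ} (hm : Lev k m) (hbb : b ≠ b') (hb : Good b k) (hb' : Good b' k) :
    (Set.range (lab (b := b) (b' := b') (m := m))).encard ≤
      (irreducibleComponents (Mor (FX b b') m)).encard := by
  rw [← range_labM]
  refine comps_ge labM (by rw [range_labM]; exact lab_finite hm hb hb') ?_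
  rintro _ ⟨q, rfl⟩
  obtain ⟨f0, rfl⟩ := Quotient.exists_rep q
  have hq : Topology.IsQuotientMap (Quotient.mk (repSetoid (FX b b') m)) := isQuotientMap_quotient_mk'
  have h2 : IsClosed (Quotient.mk (repSetoid (FX b b') m) ⁻¹' (labM ⁻¹' {lab f0})) :=
    fiber_closed hm hbb hb hb' f0
  exact hq.isClosed_preimage.1 h2

end Pool.Agent.Y198.Bat
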