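import Mathlib
import Pool.Agent.Y198.Bat.Label

set_option autoImplicit false

namespace Pool.Agent.Y198.Bat

open Polynomial

theorem ker1 {p q : ℂ[X]} {D : ℕ} (hpq : p ≠ 0 ∨ q ≠ 0) (hp : p.natDegree ≤ D)
    (hq : q.natDegree ≤ D) :
    ∃ z0 z1 : ℂ[X], IsCoprime z0 z1 ∧ p * z0 + q * z1 = 0 ∧ z0.natDegree ≤ D ∧ z1.natDegree ≤ D := by
  obtain ⟨g, p', q', hg, hcop, e0, e1⟩ : ∃ g p' q' : ℂ[X], g ≠ 0 ∧ IsCoprime p' q' ∧ p = g * p' ∧
      q = g * q' := by
    have hg : EuclideanDomain.gcd p q ≠ 0 := by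
      intro h
      rw [EuclideanDomain.gcd_eq_zero_iff] at h
      tauto
    obtain ⟨p', hp'⟩ := EuclideanDomain.gcd_dvd_left p q
    obtain ⟨q', hq'⟩ := EuclideanDomain.gcd_dvd_right p q
    refine ⟨_, p', q', hg, ?_, hp', hq'⟩
    have hb := EuclideanDomain.gcd_eq_gcd_ab p q
    refine ⟨EuclideanDomain.gcdA p q, EuclideanDomain.gcdB p q, ?_⟩
    apply mul_left_cancel₀ hg
    calc EuclideanDomain.gcd p q * (EuclideanDomain.gcdA p q * p' + EuclideanDomain.gcdB p q * q')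
        = (EuclideanDomain.gcd p q * p') * EuclideanDomain.gcdA p q +
          (EuclideanDomain.gcd p q * q') * EuclideanDomain.gcdB p q := by ring
      _ = p * EuclideanDomain.gcdA p q + q * EuclideanDomain.gcdB p q := by rw [← hp', ← hq']
      _ = EuclideanDomain.gcd p q * 1 := by rw [← hb, mul_one]
  have hdeg : ∀ s t : ℂ[X], s = g * t → t.natDegree ≤ s.natDegree := by
    intro s t h
    by_cases ht : t = 0
    · simp [ht]
    · rw [h, natDegree_mul hg ht]; omega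
  refine ⟨-q', p', hcop.symm.neg_left, by rw [e0, e1]; ring, ?_, ?_⟩
  · rw [natDegree_neg]; exact (hdeg _ _ e1).trans hq
  · exact (hdeg _ _ e0).trans hp

theorem ker2 {a0 a1 b0 b1 : ℂ[X]} {D : ℕ} (h : a0 * b1 - a1 * b0 = 0) (ha0 : a0.natDegree ≤ D)
    (ha1 : a1.natDegree ≤ D) (hb0 : b0.natDegree ≤ D) (hb1 : b1.natDegree ≤ D) :
    ∃ z0 z1 : ℂ[X], IsCoprime z0 z1 ∧ a0 * z0 + a1 * z1 = 0 ∧ b0 * z0 + b1 * z1 = 0 ∧
      z0.natDegree ≤ D ∧ z1.natDegree ≤ D := by
  by_cases hA : a0 ≠ 0 ∨ a1 ≠ 0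
  · obtain ⟨z0, z1, hz, e, d0, d1⟩ := ker1 hA ha0 ha1
    refine ⟨z0, z1, hz, e, ?_, d0, d1⟩
    rcases hA with h1 | h1
    · apply (mul_eq_zero.1 (?_ : a0 * (b0 * z0 + b1 * z1) = 0)).resolve_left h1
      linear_combination b0 * e + z1 * h
    · apply (mul_eq_zero.1 (?_ : a1 * (b0 * z0 + b1 * z1) = 0)).resolve_left h1
      linear_combination b1 * e - z0 * h
  · push Not at hA
    by_cases hB : b0 ≠ 0 ∨ b1 ≠ 0
    · obtain ⟨z0, z1, hz, e, d0, d1⟩ := ker1 hB hb0 hb1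
      exact ⟨z0, z1, hz, by rw [hA.1, hA.2]; ring, e, d0, d1⟩
    · push Not at hB
      exact ⟨1, 0, isCoprime_one_left, by rw [hA.1, hA.2]; ring, by rw [hB.1, hB.2]; ring,
        by simp, by simp⟩

variable {b b' : ℂ}

theorem fam {k l mz : ℕ} (hk : 0 < dg k) (hbb : b ≠ b') (hb : Good b k) (hb' : Good b' k)
    {r : Fin 4 → ℂ[X]} (hr : Sol k r) {z0 z1 : ℂ[X]} (hz : IsCoprime z0 z1)
    (eA : ca0 (r 0) (r 1) (r 2) (r 3) X 1 * z0 + ca1 (r 0) (r 1) (r 2) (r 3) X 1 * z1 = 0)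
    (eB : cb0 (r 0) (r 1) (r 2) (r 3) X 1 * z0 + cb1 (r 0) (r 1) (r 2) (r 3) X 1 * z1 = 0)
    (hmz : max z0.natDegree z1.natDegree = mz) {m : Fin 6 → ℕ} (m0 : m 0 = dg k)
    (m1 : m 1 = dg (k + 1)) (m2 : m 2 = 1) (m3 : m 3 = mz) (m4 : m 4 = 2 + (dg k + dg (k + 1)) + mz)
    (m5 : m 5 = m 4 + m 0 - l) (A : Finset ℂ)
    (hA : ∀ τ ∈ A, (r 0 - C b * r 1).eval τ = 0) (hAl : A.card = l) :
    ∃ f : Rep (FX b b') m, (lab f).2.1 = A := by
  obtain ⟨hβd, hβs⟩ := hb r hr
  obtain ⟨hβd', hβs'⟩ := hb' r hr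
  set β := r 0 - C b * r 1 with hβ
  set β' := r 0 - C b' * r 1 with hβ'
  have hβ0 : β ≠ 0 := by
    intro h; rw [h] at hβs; exact hβs 0 (dvd_zero _)
  have hβ0' : β' ≠ 0 := by
    intro h; rw [h] at hβs'; exact hβs' 0 (dvd_zero _)
  have hcopβ : ∀ u, β.eval u ≠ 0 ∨ β'.eval u ≠ 0 := by
    intro u
    by_contra hc
    push Not at hc
    obtain ⟨h1, h2⟩ := hc
    simp only [hβ, hβ', eval_sub, eval_mul, eval_C] at h1 h2
    have h3 : (b - b') * (r 1).eval u = 0 := by linear_combination h2 - h1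
    have h4 : (r 1).eval u = 0 := by
      rcases mul_eq_zero.1 h3 with h | h
      · exact absurd (sub_eq_zero.1 h) hbb
      · exact h
    have h5 : (r 0).eval u = 0 := by rw [h4] at h1; simpa using h1
    rcases hr.hx.ne_eval u with h | h
    · exact h h5
    · exact h h4
  set α : ℂ[X] := ∏ τ ∈ A, (X - C τ) with hα
  have hαm : α.Monic := monic_prod_of_monic _ _ fun τ _ => monic_X_sub_C τ
  have hαd : α.natDegree = l := by
    rw [hα, natDegree_prod_of_monic _ _ fun τ _ => monic_X_sub_C τ]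
    simp [hAl]
  have hdvd : α ∣ β := by
    refine Finset.prod_dvd_of_coprime ?_ fun τ hτ => ?_
    · intro x _ y _ hxy
      exact isCoprime_X_sub_C_of_isUnit_sub (sub_ne_zero.2 hxy).isUnit
    · exact dvd_iff_isRoot.2 (hA τ hτ)
  obtain ⟨γ, hγ⟩ := hdvd
  have hγ0 : γ ≠ 0 := by rintro rfl; rw [mul_zero] at hγ; exact hβ0 hγ
  have hγd : l + γ.natDegree = dg k := by
    rw [← hβd, hγ, natDegree_mul hαm.ne_zero hγ0, hαd]
  have hlm : l ≤ dg k := by omega
  obtain ⟨ρ, hρ⟩ := Infinite.exists_notMem_finset ((β * β').roots.toFinset)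
  obtain ⟨ρ', hρ'⟩ := Infinite.exists_notMem_finset (insert ρ (β * β').roots.toFinset)
  have hββ : β * β' ≠ 0 := mul_ne_zero hβ0 hβ0'
  simp only [Finset.mem_insert, Multiset.mem_toFinset, mem_roots hββ, IsRoot.def, eval_mul,
    mul_eq_zero, not_or] at hρ hρ'
  obtain ⟨ρ1, ρ2⟩ := hρ
  obtain ⟨ρ3, ρ4, ρ5⟩ := hρ'
  have mono1 : ∀ (c : ℂ) (j : ℕ), ((X - C c : ℂ[X]) ^ j).Monic := fun c j => (monic_X_sub_C c).pow j
  have mono2 : ∀ (c : ℂ) (j : ℕ), ((X - C c : ℂ[X]) ^ j).natDegree = j := by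
    intro c j
    rw [natDegree_pow, natDegree_X_sub_C, mul_one]
  have hl4 : l ≤ m 4 := by omega
  set s0 : ℂ[X] := (X - C ρ') ^ (m 4) with hs0
  set s1 : ℂ[X] := α * (X - C ρ) ^ (m 4 - l) with hs1
  set w0 : ℂ[X] := (X - C ρ) ^ (m 4 - l) * β' with hw0
  set w1 : ℂ[X] := (X - C ρ') ^ (m 4) * γ with hw1
  have ds0 : s0.natDegree = m 4 := mono2 _ _
  have ds1 : s1.natDegree = m 4 := by
    rw [hs1, natDegree_mul hαm.ne_zero (mono1 _ _).ne_zero, mono2, hαd]; omega
  have dw0 : w0.natDegree = m 5 := by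
    rw [hw0, natDegree_mul (mono1 _ _).ne_zero hβ0', mono2, hβd']; omega
  have dw1 : w1.natDegree = m 5 := by
    rw [hw1, natDegree_mul (mono1 _ _).ne_zero hγ0, mono2]; omega
  have ev1 : ∀ u, eval u s0 = 0 → u = ρ' := by
    intro u h
    rw [hs0, eval_pow, eval_sub, eval_X, eval_C] at h
    exact sub_eq_zero.1 (eq_zero_of_pow_eq_zero h)
  have evα : ∀ u, eval u α = 0 → u ∈ A := by
    intro u h
    rw [hα, eval_prod, Finset.prod_eq_zero_iff] at h
    obtain ⟨τ, hτ, h⟩ := h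
    rw [eval_sub, eval_X, eval_C, sub_eq_zero] at h
    rw [h]; exact hτ
  have evp : ∀ (c u : ℂ) (j : ℕ), eval u ((X - C c : ℂ[X]) ^ j) = 0 → u = c := by
    intro c u j h
    rw [eval_pow, eval_sub, eval_X, eval_C] at h
    exact sub_eq_zero.1 (eq_zero_of_pow_eq_zero h)
  have ev2 : ∀ u, eval u s1 = 0 → u = ρ ∨ u ∈ A := by
    intro u h
    rw [hs1, eval_mul, mul_eq_zero] at h
    rcases h with h | h
    · right; exact evα u h
    · left; exact evp _ _ _ h
  have hγβ : ∀ u, eval u γ = 0 → eval u β = 0 := by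
    intro u h
    rw [hγ, eval_mul, h, mul_zero]
  have cops : IsCoprime s0 s1 := by
    apply isCoprime_of_ne
    intro u
    by_contra hc
    push Not at hc
    have h1 := ev1 u hc.1
    rcases ev2 u hc.2 with h2 | h2
    · exact ρ3 (h1.symm.trans h2)
    · rw [h1] at h2
      exact ρ4 (hA _ h2)
  have copw : IsCoprime w0 w1 := by
    apply isCoprime_of_ne
    intro u
    by_contra hc
    push Not at hc
    obtain ⟨h1, h2⟩ := hc
    rw [hw0, eval_mul, mul_eq_zero] at h1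
    rw [hw1, eval_mul, mul_eq_zero] at h2
    rcases h1 with h1 | h1
    · have h1' := evp _ _ _ h1
      rcases h2 with h2 | h2
      · exact ρ3 ((evp _ _ _ h2).symm.trans h1')
      · rw [h1'] at h2
        exact ρ1 (hγβ _ h2)
    · rcases h2 with h2 | h2
      · rw [evp _ _ _ h2] at h1
        exact ρ5 h1
      · rcases hcopβ u with h | h
        · exact h (hγβ _ h2)
        · exact h h1
  have hmem : IsMor (FX b b') m (fun v => ![![r 0, r 1], ![r 2, r 3], ![X, 1], ![z0, z1], ![s0, s1],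
      ![w0, w1]] v.1 v.2) := by
    refine ⟨fun i => ?_, fun i => ?_, fun j => ?_⟩
    · fin_cases i
      · exact hr.hx.cop
      · exact hr.hy.cop
      · exact isCoprime_one_right
      · exact hz
      · exact cops
      · exact copw
    · fin_cases i
      · exact hr.hx.max_eq_deg.trans m0.symm
      · exact hr.hy.max_eq_deg.trans m1.symm
      · simp [m2]
      · exact hmz.trans m3.symm
      · change max s0.natDegree s1.natDegree = m 4
        rw [ds0, ds1, max_self]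
      · change max w0.natDegree w1.natDegree = m 5
        rw [dw0, dw1, max_self]
    · fin_cases j
      · change MvPolynomial.aeval _ (FX b b' 0) = 0
        rw [aeval_FX0]
        simp only [Matrix.cons_val]
        simp only [phi, fA, fB]
        rw [eA, eB]; ring
      · change MvPolynomial.aeval _ (FX b b' 1) = 0
        rw [aeval_FX1]
        simp only [Matrix.cons_val]
        simp only [psi, algebraMap_eq]
        rw [← hβ, ← hβ', hw0, hw1, hs0, hs1, hγ]
        ring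
  refine ⟨⟨_, hmem⟩, ?_⟩
  have hn : ∀ v, nn v (⟨_, hmem⟩ : Rep (FX b b') m) =
      ![![r 0, r 1], ![r 2, r 3], ![X, 1], ![z0, z1], ![s0, s1], ![w0, w1]] v.1 v.2 := by
    intro v
    have e0 : M0 (X : ℂ[X]) 1 = X := by simp [M0]
    have e1 : M1 (X : ℂ[X]) 1 = 1 := by simp [M1, coeff_one]
    have hd := natDegree_le (⟨_, hmem⟩ : Rep (FX b b') m) v
    unfold nn
    change hc (m v.1) _ (M0 X 1) (M1 X 1) = _
    rw [e0, e1]
    exact hc_X_one hd
  unfold lab
  simp only [hn]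
  simp only [Matrix.cons_val]
  ext τ
  simp only [Set.mem_ofPred_eq, Finset.mem_coe]
  rw [← hβ]
  constructor
  · rintro ⟨h1, h2⟩
    rcases ev2 τ h2 with h3 | h3
    · rw [h3] at h1; exact absurd h1 ρ1
    · exact h3
  · intro h
    refine ⟨hA τ h, ?_⟩
    rw [hs1, eval_mul]
    have : eval τ α = 0 := by
      rw [hα, eval_prod]
      exact Finset.prod_eq_zero h (by simp)
    rw [this, zero_mul]

theorem many {k l : ℕ} (hk : 0 < dg k) (hbb : b ≠ b') (hb : Good b k) (hb' : Good b' k) :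
    ∃ m : Fin 6 → ℕ, ∑ i, m i ≤ 7 * (dg k + dg (k + 1) + 1) + 2 ∧
      (((dg k).choose l : ℕ) : ℕ∞) ≤ (irreducibleComponents (Mor (FX b b') m)).encard := by
  classical
  obtain ⟨r, hr⟩ := exists_sol k
  have hX : (X : ℂ[X]).natDegree ≤ 1 := by simp
  have h1 : (1 : ℂ[X]).natDegree ≤ 1 := by simp
  have hF := hr.hF
  rw [← det_eq] at hF
  obtain ⟨z0, z1, hz, eA, eB, dz0, dz1⟩ := ker2 hF
    (deg_ca0 hr.hx.dp hr.hx.dq hr.hy.dp hr.hy.dq hX h1)
    (deg_ca1 hr.hx.dp hr.hx.dq hr.hy.dp hr.hy.dq hX h1)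
    (deg_cb0 hr.hx.dp hr.hx.dq hr.hy.dp hr.hy.dq hX h1)
    (deg_cb1 hr.hx.dp hr.hx.dq hr.hy.dp hr.hy.dq hX h1)
  obtain ⟨mz, hmz⟩ : ∃ mz, mz = max z0.natDegree z1.natDegree := ⟨_, rfl⟩
  have hmz' : mz ≤ 1 + (dg k + dg (k + 1)) := hmz ▸ max_le dz0 dz1
  set m : Fin 6 → ℕ := ![dg k, dg (k + 1), 1, mz, 2 + (dg k + dg (k + 1)) + mz,
    2 + (dg k + dg (k + 1)) + mz + dg k - l] with hm
  have hlev : Lev k m := ⟨rfl, rfl, rfl, by
    change 1 + (dg k + dg (k + 1)) + mz < 2 + (dg k + dg (k + 1)) + mz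
    omega⟩
  refine ⟨m, ?_, ?_⟩
  · rw [hm]
    simp only [Fin.sum_univ_six, Matrix.cons_val]
    omega
  · refine le_trans ?_ (comps_ge_lab hlev hbb hb hb')
    obtain ⟨hβd, hβs⟩ := hb r hr
    set β := r 0 - C b * r 1 with hβ
    have hβ0 : β ≠ 0 := by
      intro h; rw [h] at hβs; exact hβs 0 (dvd_zero _)
    have hnd : β.roots.Nodup := by
      rw [Multiset.nodup_iff_count_le_one]
      intro τ
      rw [count_roots]
      by_contra hlt
      push Not at hlt
      exact hβs τ ((le_rootMultiplicity_iff hβ0).1 hlt)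
    have hcard : β.roots.toFinset.card = dg k := by
      rw [Multiset.toFinset_card_of_nodup hnd, ← hβd]
      exact (IsAlgClosed.splits β).natDegree_eq_card_roots.symm
    have hex : ∀ A ∈ (β.roots.toFinset).powersetCard l,
        ∃ q ∈ Set.range (lab (b := b) (b' := b') (m := m)), q.2.1 = A := by
      intro A hA
      rw [Finset.mem_powersetCard] at hA
      obtain ⟨f, hf⟩ := fam hk hbb hb hb' hr hz eA eB hmz.symm (m := m) rfl rfl rfl rfl rfl rfl A
        (by
          intro τ hτ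
          have := hA.1 hτ
          rw [Multiset.mem_toFinset, mem_roots hβ0] at this
          exact this) hA.2
      exact ⟨lab f, ⟨f, rfl⟩, hf⟩
    choose! g hg using hex
    have h2 : ((((β.roots.toFinset).powersetCard l : Finset (Finset ℂ)) : Set (Finset ℂ))).encard ≤
        (Set.range (lab (b := b) (b' := b') (m := m))).encard := by
      refine Set.encard_le_encard_of_injOn (f := g) ?_ ?_
      · intro A hA
        exact (hg A hA).1
      · intro A hA A' hA' h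
        have h3 := (hg A hA).2
        have h4 := (hg A' hA').2
        rw [h, h4] at h3
        exact_mod_cast h3.symm
    rw [Set.encard_coe_eq_coe_finsetCard, Finset.card_powersetCard, hcard] at h2
    exact h2

end Pool.Agent.Y198.Bat
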