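import Mathlib
import Pool.Agent.Y198.Bat.Label

set_option autoImplicit false

namespace Pool.Agent.Y198.Bat

open Polynomial

def GoodP (p q : ℂ[X]) (m : ℕ) (b : ℂ) : Prop := (p - C b * q).natDegree = m ∧ NoSq (p - C b * q)

theorem wronsk {p q : ℂ[X]} {m : ℕ} (h : Pr p q m) (hm : 0 < m) :
    derivative p * q - p * derivative q ≠ 0 := by
  intro hW
  have h1 : p ∣ derivative p := by
    have : p ∣ derivative p * q := ⟨derivative q, by linear_combination hW⟩
    exact h.cop.dvd_of_dvd_mul_right this
  have h2 : q ∣ derivative q := by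
    have : q ∣ derivative q * p := ⟨derivative p, by linear_combination -hW⟩
    exact h.cop.symm.dvd_of_dvd_mul_right this
  rw [dvd_derivative_iff] at h1 h2
  have e1 := derivative_eq_zero.1 h1
  have e2 := derivative_eq_zero.1 h2
  have := h.max_eq_deg
  rw [e1, e2] at this
  simp at this
  omega

theorem goodP_finite {p q : ℂ[X]} {m : ℕ} (h : Pr p q m) (hm : 0 < m) :
    {b | ¬ GoodP p q m b}.Finite := by
  have hW := wronsk h hm
  refine Set.Finite.subset ((Set.finite_singleton (p.coeff m / q.coeff m)).union
    ((Finset.finite_toSet (derivative p * q - p * derivative q).roots.toFinset).image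
      fun u => p.eval u / q.eval u)) ?_
  intro b hb
  by_contra hcon
  simp only [Set.mem_union, Set.mem_singleton_iff, Set.mem_image, Finset.mem_coe,
    Multiset.mem_toFinset, mem_roots hW, not_or, not_exists, not_and, IsRoot.def] at hcon
  obtain ⟨h1, h2⟩ := hcon
  apply hb
  have hle : (p - C b * q).natDegree ≤ m := by
    refine (natDegree_sub_le_of_le h.dp ((natDegree_C_mul_le _ _).trans h.dq)).trans
      (max_self m).le
  refine ⟨le_antisymm hle (le_natDegree_of_ne_zero ?_), ?_⟩
  · rw [coeff_sub, coeff_C_mul]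
    intro hz
    rcases h.top with ht | ht
    · have hq : q.coeff m ≠ 0 := by
        intro hq
        rw [hq, mul_zero, sub_zero] at hz
        exact ht hz
      apply h1
      field_simp
      linear_combination -hz
    · apply h1
      field_simp
      linear_combination -hz
  · intro u hu
    have e0 : (p - C b * q).eval u = 0 := by
      obtain ⟨c, hc⟩ := hu
      rw [hc]; simp
    have e1 : (derivative (p - C b * q)).eval u = 0 := by
      obtain ⟨c, hc⟩ := hu
      rw [hc]
      simp [derivative_mul, derivative_pow]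
    simp only [eval_sub, eval_mul, eval_C, derivative_sub, derivative_C_mul] at e0 e1
    have hq : q.eval u ≠ 0 := by
      intro hq
      rw [hq, mul_zero, sub_zero] at e0
      rcases h.ne_eval u with h' | h'
      · exact h' e0
      · exact h' hq
    refine h2 u ?_ ?_
    · simp only [eval_sub, eval_mul]
      linear_combination (q.eval u) * e1 - (derivative q).eval u * e0
    · field_simp
      linear_combination e0

theorem good_countable : ∃ S : Set ℂ, S.Countable ∧ ∀ b, b ∉ S → ∀ k, 0 < dg k → Good b k := by
  choose R hR hsol hall using classify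
  refine ⟨⋃ k, ⋃ (_ : 0 < dg k), ⋃ r ∈ R k, {b | ¬ GoodP (r 0) (r 1) (dg k) b}, ?_, ?_⟩
  · refine Set.countable_iUnion fun k => Set.countable_iUnion fun hk => ?_
    refine Set.Countable.biUnion (hR k).countable fun r hr => ?_
    exact (goodP_finite (hsol k r hr).hx hk).countable
  · intro b hb k hk s hs
    simp only [Set.mem_iUnion, Set.mem_ofPred_eq, not_exists, not_not] at hb
    obtain ⟨r, hr, e0, _⟩ := hall k s hs
    obtain ⟨c, hc, hc0, hc1⟩ := pr_prop hs.hx.cop (hsol k r hr).hx.cop e0
    obtain ⟨g1, g2⟩ := hb k hk r hr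
    have e : r 0 - C b * r 1 = C c * (s 0 - C b * s 1) := by
      rw [hc0, hc1]; ring
    rw [e] at g1 g2
    rw [natDegree_C_mul hc] at g1
    refine ⟨g1, fun τ hτ => g2 τ (hτ.mul_left _)⟩

theorem exists_good : ∃ b b' : ℂ, b ≠ b' ∧ b ^ 2 ≠ 1 ∧ b' ^ 2 ≠ -1 ∧
    ∀ k, 0 < dg k → Good b k ∧ Good b' k := by
  obtain ⟨S, hS, hgood⟩ := good_countable
  have hex : ∀ T : Set ℂ, T.Countable → ∃ b, b ∉ T := by
    intro T hT
    by_contra hc
    push Not at hc
    exact not_countable_complex (hT.mono fun x _ => hc x)
  obtain ⟨b, hb⟩ := hex (S ∪ {1, -1}) (hS.union (Set.toFinite _).countable)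
  obtain ⟨b', hb'⟩ := hex (S ∪ {b, Complex.I, -Complex.I}) (hS.union (Set.toFinite _).countable)
  simp only [Set.mem_union, Set.mem_insert_iff, Set.mem_singleton_iff, not_or] at hb hb'
  refine ⟨b, b', fun h => hb'.2.1 h.symm, ?_, ?_, fun k hk => ⟨hgood b hb.1 k hk,
    hgood b' hb'.1 k hk⟩⟩
  · intro h
    have : (b - 1) * (b + 1) = 0 := by linear_combination h
    rcases mul_eq_zero.1 this with h1 | h1
    · exact hb.2.1 (by linear_combination h1)
    · exact hb.2.2 (by linear_combination h1)
  · intro h
    have : (b' - Complex.I) * (b' + Complex.I) = 0 := by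
      linear_combination h - Complex.I_sq
    rcases mul_eq_zero.1 this with h1 | h1
    · exact hb'.2.2.1 (by linear_combination h1)
    · exact hb'.2.2.2 (by linear_combination h1)

end Pool.Agent.Y198.Bat
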