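import Mathlib
import Pool.Agent.Y198.Bat.Exist
import Pool.Agent.Y198.Bat.Generic
import Pool.Agent.Y198.Bat.Cone2

set_option autoImplicit false

namespace Pool.Agent.Y198.Bat

open MvPolynomial

def DX : Fin 2 → Fin 6 → ℕ := ![![1, 1, 1, 1, 1, 0], ![1, 0, 0, 0, 1, 1]]

/-- weights -/
def wt (v : Fin 6 × Fin 2) : Fin 6 → ℕ := Pi.single v.1 1

theorem multi_of {F : MvPolynomial (Fin 6 × Fin 2) ℂ} {d : Fin 6 → ℕ}
    (h : IsWeightedHomogeneous wt F d) : IsMultiHom F d := by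
  intro a ha i
  have h1 := h (mem_support_iff.1 ha)
  have h2 := congrFun h1 i
  rw [← h2, Finsupp.weight_apply, Finsupp.sum_fintype _ _ (by simp), Finset.sum_apply,
    Fintype.sum_prod_type]
  simp only [Pi.smul_apply, wt, smul_eq_mul, Fin.sum_univ_two, Pi.single_apply]
  rw [Finset.sum_eq_single i]
  · simp
  · intro j _ hj
    simp [Ne.symm hj]
  · simp

theorem wsub {F G : MvPolynomial (Fin 6 × Fin 2) ℂ} {d : Fin 6 → ℕ}
    (hF : IsWeightedHomogeneous wt F d) (hG : IsWeightedHomogeneous wt G d) :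
    IsWeightedHomogeneous wt (F - G) d := by
  have := (weightedHomogeneousSubmodule ℂ wt d).sub_mem
    ((mem_weightedHomogeneousSubmodule ℂ wt d F).2 hF)
    ((mem_weightedHomogeneousSubmodule ℂ wt d G).2 hG)
  exact (mem_weightedHomogeneousSubmodule ℂ wt d _).1 this

theorem wX (i : Fin 6) (j : Fin 2) : IsWeightedHomogeneous wt (X (i, j) : MvPolynomial _ ℂ)
    (Pi.single i 1 : Fin 6 → ℕ) := isWeightedHomogeneous_X ℂ wt (i, j)

theorem multi_X (b b' : ℂ) (j : Fin 2) : IsMultiHom (FX b b' j) (DX j) := by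
  fin_cases j
  · apply multi_of
    have h : DX 0 = (Pi.single 4 1 + ((Pi.single 2 1 + (Pi.single 0 1 + Pi.single 1 1)) +
        Pi.single 3 1) : Fin 6 → ℕ) := by
      funext i; fin_cases i <;> rfl
    change IsWeightedHomogeneous wt (FX b b' 0) (DX 0)
    rw [h]
    have hA : ∀ i j : Fin 2, IsWeightedHomogeneous wt (X (0, i) * X (1, j) : MvPolynomial _ ℂ)
        (Pi.single 0 1 + Pi.single 1 1 : Fin 6 → ℕ) := fun i j => (wX 0 i).mul (wX 1 j)
    have c0 := ((wX 2 0).mul (hA 1 1)).add ((wX 2 1).mul ((hA 0 1).add (hA 1 0)))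
    have c1 := ((wX 2 0).mul ((hA 1 1).add (hA 0 0)))
    have d0 := wsub ((wX 2 0).mul ((hA 0 1).add (hA 1 0))) ((wX 2 1).mul (hA 0 0))
    have d1 := (wX 2 1).mul (wsub (hA 1 1) (hA 0 0))
    exact ((wX 4 0).mul ((c0.mul (wX 3 0)).add (c1.mul (wX 3 1)))).add
      ((wX 4 1).mul ((d0.mul (wX 3 0)).add (d1.mul (wX 3 1))))
  · apply multi_of
    have h : DX 1 = (Pi.single 5 1 + Pi.single 4 1 + Pi.single 0 1 : Fin 6 → ℕ) := by
      funext i; fin_cases i <;> rfl
    change IsWeightedHomogeneous wt (FX b b' 1) (DX 1)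
    rw [h]
    have hC : ∀ c : ℂ, IsWeightedHomogeneous wt
        (X (0, 0) - algebraMap ℂ (MvPolynomial _ ℂ) c * X (0, 1) : MvPolynomial _ ℂ)
        (Pi.single 0 1 : Fin 6 → ℕ) := by
      intro c
      refine wsub (wX 0 0) ?_
      have := (isWeightedHomogeneous_C wt c).mul (wX 0 1)
      rwa [zero_add] at this
    exact wsub (((wX 5 0).mul (wX 4 0)).mul (hC b)) (((wX 5 1).mul (wX 4 1)).mul (hC b'))

theorem nef_X (i : Fin 6) : 0 ≤ antican DX i := by
  fin_cases i <;> simp [antican, DX]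

theorem big_X : 0 < Matrix.permanent (Matrix.of fun k i : Fin 6 =>
    if h : (k : ℕ) < 2 then (DX ⟨k, h⟩ i : ℤ) else antican DX i) := by
  have hnn : ∀ k i : Fin 6, 0 ≤ (if h : (k : ℕ) < 2 then (DX ⟨k, h⟩ i : ℤ) else antican DX i) := by
    intro k i
    split_ifs
    · positivity
    · exact nef_X i
  unfold Matrix.permanent
  refine Finset.sum_pos' (fun σ _ => Finset.prod_nonneg fun i _ => hnn _ _) ?_
  refine ⟨Equiv.ofBijective ![0, 2, 3, 4, 1, 5] (by decide), Finset.mem_univ _, ?_⟩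
  refine Finset.prod_pos fun i _ => ?_
  fin_cases i <;> simp [antican, DX]

theorem weakFano {b b' : ℂ} (hbb : b ≠ b') (hb : b ^ 2 ≠ 1) (hb' : b' ^ 2 ≠ -1) :
    IsSmoothWeakFano (FX b b') DX where
  multiHom := multi_X b b'
  smooth := smooth_X hbb hb hb'
  irreducible := irreducible_X hbb hb hb'
  nef := nef_X
  big := big_X

theorem two_pow_le (l : ℕ) : 2 ^ l ≤ (2 * l).choose l := by
  rw [← Nat.centralBinom_eq_two_mul_choose]
  induction l with
  | zero => simp
  | succ l ih =>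
    have h := Nat.succ_mul_centralBinom_succ l
    have h2 : (l + 1) * 2 ^ (l + 1) ≤ (l + 1) * (l + 1).centralBinom := by
      rw [h, pow_succ]
      calc (l + 1) * (2 ^ l * 2) ≤ 2 * (2 * l + 1) * 2 ^ l := by
            have : l + 1 ≤ 2 * l + 1 := by omega
            nlinarith [Nat.pos_of_ne_zero (pow_ne_zero l (two_ne_zero : (2:ℕ) ≠ 0))]
        _ ≤ 2 * (2 * l + 1) * l.centralBinom := Nat.mul_le_mul_left _ ih
    exact Nat.le_of_mul_le_mul_left h2 (Nat.succ_pos l)

theorem lower {b b' : ℂ} (hbb : b ≠ b') (hg : ∀ k, 0 < dg k → Good b k ∧ Good b' k) {k d : ℕ}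
    (hk : 2 ≤ k) (hd : 14 * k ^ 2 + 9 ≤ d) :
    ((2 ^ (k * (k - 1) / 2) : ℕ) : ℕ∞) ≤ numComponents (FX b b') d := by
  have hdg : 0 < dg k := Nat.mul_pos (by omega) (by omega)
  obtain ⟨m, hm, hc⟩ := many (l := dg k / 2) hdg hbb (hg k hdg).1 (hg k hdg).2
  have hsum : dg k + dg (k + 1) = 2 * k ^ 2 := by
    obtain ⟨j, rfl⟩ : ∃ j, k = j + 1 := ⟨k - 1, by omega⟩
    simp only [dg, Nat.add_sub_cancel]; ring
  have hm' : ∑ i, m i ≤ d := by
    rw [hsum] at hm; omega
  refine le_trans ?_ (hc.trans (encard_le_numComponents _ m hm'))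
  have heven : 2 * (dg k / 2) = dg k := by
    have : 2 ∣ dg k := by
      unfold dg
      rw [mul_comm]
      have := Nat.even_mul_pred_self k
      rw [mul_comm] at this
      exact this.two_dvd
    omega
  have h2 := two_pow_le (dg k / 2)
  rw [heven] at h2
  exact_mod_cast h2

end Pool.Agent.Y198.Bat
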