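import Mathlib
import Pool.Agent.Y198.Bat.Final

set_option autoImplicit false

namespace Pool.Agent.Y198.Bat

theorem arith {d : ℕ} (hd : 513 ≤ d) : ∃ k, 2 ≤ k ∧ 14 * k ^ 2 + 9 ≤ d ∧ d / 50 ≤ k * (k - 1) / 2 := by
  obtain ⟨k, hk⟩ : ∃ k, k = Nat.sqrt ((d - 9) / 14) := ⟨_, rfl⟩
  have h1 : k * k ≤ (d - 9) / 14 := hk ▸ Nat.sqrt_le _
  have h2 : (d - 9) / 14 < (k + 1) * (k + 1) := hk ▸ Nat.lt_succ_sqrt _
  have h3 : 6 ≤ k := by
    rw [hk, Nat.le_sqrt]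
    omega
  have h4 : 14 * (k * k) + 9 ≤ d := by omega
  have h5 : d < 14 * ((k + 1) * (k + 1)) + 9 := by omega
  refine ⟨k, by omega, by rw [pow_two]; exact h4, ?_⟩
  obtain ⟨j, rfl⟩ : ∃ j, k = j + 6 := ⟨k - 6, by omega⟩
  have h6 : 2 ∣ (j + 6) * (j + 6 - 1) := (Nat.even_mul_pred_self (j + 6)).two_dvd
  obtain ⟨l, hl⟩ := h6
  rw [hl]
  have h7 : (j + 6) * (j + 6 - 1) = (j + 6) * (j + 5) := rfl
  rw [h7] at hl
  have h8 : d < 50 * (l + 1) := by nlinarith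
  have h9 : d / 50 < l + 1 := Nat.div_lt_of_lt_mul h8
  omega

theorem poly_exp (P : Polynomial ℝ) : ∃ j : ℕ, 11 ≤ j ∧ P.eval ((50 * j : ℕ) : ℝ) < ((2 ^ j : ℕ) : ℝ) := by
  have hlog : 0 < Real.log 2 := Real.log_pos (by norm_num)
  have h := (P.comp (Polynomial.C (50 / Real.log 2) * Polynomial.X)).tendsto_div_exp_atTop
  have h2 : Filter.Tendsto (fun j : ℕ => (j : ℝ) * Real.log 2) Filter.atTop Filter.atTop :=
    tendsto_natCast_atTop_atTop.atTop_mul_const hlog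
  have h3 := h.comp h2
  have h4 := (h3.eventually (gt_mem_nhds (zero_lt_one))).and (Filter.eventually_ge_atTop 11)
  obtain ⟨j, hj, hj11⟩ := h4.exists
  refine ⟨j, hj11, ?_⟩
  simp only [Function.comp_apply] at hj
  rw [div_lt_one (Real.exp_pos _)] at hj
  have e1 : Real.exp ((j : ℝ) * Real.log 2) = 2 ^ j := by
    rw [mul_comm, Real.exp_mul, Real.exp_log (by norm_num)]
    exact Real.rpow_natCast 2 j
  have e2 : (P.comp (Polynomial.C (50 / Real.log 2) * Polynomial.X)).eval ((j : ℝ) * Real.log 2) =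
      P.eval ((50 * j : ℕ) : ℝ) := by
    rw [Polynomial.eval_comp]
    congr 1
    simp only [Polynomial.eval_mul, Polynomial.eval_C, Polynomial.eval_X]
    push_cast
    field_simp
  rw [e1, e2] at hj
  push_cast at hj ⊢
  exact hj

theorem main : ∃ (F : Fin 2 → MvPolynomial (Fin 6 × Fin 2) ℂ) (D : Fin 2 → Fin 6 → ℕ),
    IsSmoothWeakFano F D ∧
    (∀ d : ℕ, 513 ≤ d → ((2 ^ (d / 50) : ℕ) : ℕ∞) ≤ numComponents F d) ∧
    ∀ P : Polynomial ℝ, ∃ d N : ℕ, P.eval (d : ℝ) < N ∧ (N : ℕ∞) ≤ numComponents F d := by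
  obtain ⟨b, b', hbb, hb, hb', hg⟩ := exists_good
  have key : ∀ d : ℕ, 513 ≤ d → ((2 ^ (d / 50) : ℕ) : ℕ∞) ≤ numComponents (FX b b') d := by
    intro d hd
    obtain ⟨k, hk, h1, h2⟩ := arith hd
    refine le_trans ?_ (lower hbb hg hk h1)
    exact_mod_cast Nat.pow_le_pow_right (by norm_num) h2
  refine ⟨FX b b', DX, weakFano hbb hb hb', key, fun P => ?_⟩
  obtain ⟨j, hj, hP⟩ := poly_exp P
  refine ⟨50 * j, 2 ^ j, hP, ?_⟩
  have := key (50 * j) (by omega)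
  rwa [Nat.mul_div_cancel_left j (by norm_num)] at this

end Pool.Agent.Y198.Bat
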